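import Pool.Agent.MP_162c54_lc.NucG

set_option autoImplicit false
set_option linter.unusedSectionVars false
open scoped ComplexOrder Matrix.Norms.L2Operator ENNReal
open Matrix Cardinal

namespace Pool.Agent.MP_162c54_lc

universe u

/-- Gaussian rationals are dense. -/
noncomputable def gq : ℚ × ℚ →+ ℂ where
  toFun p := (p.1 : ℂ) + (p.2 : ℂ) * Complex.I
  map_zero' := by simp
  map_add' p q := by
    show ((p.1 + q.1 : ℚ) : ℂ) + ((p.2 + q.2 : ℚ) : ℂ) * Complex.I = _
    push_cast
    ring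

lemma gq_dense : DenseRange gq := by
  have h1 : DenseRange (Prod.map (fun q : ℚ => (q : ℝ)) (fun q : ℚ => (q : ℝ))) :=
    DenseRange.prodMap Rat.denseRange_cast Rat.denseRange_cast
  have h2 : (gq : ℚ × ℚ → ℂ) = Complex.equivRealProdCLM.symm ∘
      (Prod.map (fun q : ℚ => (q : ℝ)) (fun q : ℚ => (q : ℝ))) := by
    funext p
    show (p.1 : ℂ) + (p.2 : ℂ) * Complex.I = _
    rw [Function.comp_apply, Complex.equivRealProdCLM_symm_apply]
    simp
  rw [h2]
  exact (Complex.equivRealProdCLM.symm.surjective.denseRange).comp h1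
    Complex.equivRealProdCLM.symm.continuous

/-- In a normed space, finite combinations of a family lie in the closure of the countable-coefficient
combinations. -/
lemma exists_dense_group {E I : Type*} [NormedAddCommGroup E] [NormedSpace ℂ E] (g : I → E) :
    ∃ D : AddSubgroup E, (∃ f : (I →₀ ℚ × ℚ) → E, (D : Set E) = Set.range f) ∧
      ∀ (i : I) (c : ℂ), c • g i ∈ D.topologicalClosure := by
  classical
  set f : (I →₀ ℚ × ℚ) →+ E := Finsupp.liftAddHom (fun i =>
    ((AddMonoidHom.flip (smulAddHom ℂ E)) (g i)).comp gq) with hf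
  refine ⟨f.range, ⟨f, AddMonoidHom.coe_range f⟩, fun i c => ?_⟩
  have h1 : ∀ p : ℚ × ℚ, gq p • g i ∈ f.range := by
    intro p
    refine ⟨Finsupp.single i p, ?_⟩
    rw [hf, Finsupp.liftAddHom_apply_single]
    rfl
  have h2 : c ∈ closure (Set.range gq) := gq_dense c
  have h3 : Continuous fun c : ℂ => c • g i := by fun_prop
  have h4 := h3.closure_preimage_subset (f.range : Set E)
  have h5 : closure (Set.range gq) ⊆ closure ((fun c : ℂ => c • g i) ⁻¹' (f.range : Set E)) := by
    refine closure_mono ?_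
    rintro _ ⟨p, rfl⟩
    exact h1 p
  exact h4 (h5 h2)

variable {K β : Type u} {σ : β → ℕ → K} (lab : β → Bool)

/-- index type of the generators -/
abbrev Ind (K β : Type u) : Type u :=
  (Σ η : List K, ZMod (η.length + 1) × ZMod (η.length + 1)) ⊕ (β × Lam)

/-- generators -/
noncomputable def gen (hσ : Function.Injective σ) : Ind K β → GG σ lab hσ
  | Sum.inl p => inc lab hσ p.1 (single p.2.1 p.2.2 1)
  | Sum.inr q => ube lab hσ q.1 (Pi.single q.2 1)

lemma ext_ev (hσ : Function.Injective σ) {a b : GG σ lab hσ}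
    (h : ∀ η, evL lab hσ η a = evL lab hσ η b) : a = b := GG.ext (amb_ext fun η => h η)

lemma ube_decomp (hσ : Function.Injective σ) (b : β) (h : Lam → ℂ) :
    ube lab hσ b h = ∑ l, h l • ube lab hσ b (Pi.single l 1) := by
  refine ext_ev lab hσ fun η => ?_
  rw [map_sum]
  refine Eq.trans (b := brv σ lab b h η) rfl ?_
  rw [← brv_decomp lab b h η]
  refine Finset.sum_congr rfl fun l _ => ?_
  rw [map_smul]
  rfl

lemma inc_decomp (hσ : Function.Injective σ) (η : List K) (M : Blk η) :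
    inc lab hσ η M = ∑ i, ∑ j, M i j • inc lab hσ η (single i j 1) := by
  conv_lhs => rw [Matrix.matrix_eq_sum_single M]
  rw [map_sum]
  refine Finset.sum_congr rfl fun i _ => ?_
  rw [map_sum]
  refine Finset.sum_congr rfl fun j _ => ?_
  rw [← map_smul, Matrix.smul_single, smul_eq_mul, mul_one]

lemma G0_span (hσ : Function.Injective σ) (D : AddSubgroup (GG σ lab hσ))
    (hD : ∀ (i : Ind K β) (c : ℂ), c • gen lab hσ i ∈ D) (x : Amb K) (hx : x ∈ G0 σ lab hσ) :
    GG.mk hσ x (G0_le lab hσ hx) ∈ D := by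
  classical
  obtain ⟨S, F, h, hh⟩ := id hx
  have hu : ∀ b h, ube lab hσ b h ∈ D := by
    intro b h
    rw [ube_decomp]
    exact D.sum_mem fun l _ => hD (Sum.inr (b, l)) (h l)
  have hi : ∀ η M, inc lab hσ η M ∈ D := by
    intro η M
    rw [inc_decomp]
    exact D.sum_mem fun i _ => D.sum_mem fun j _ => hD (Sum.inl ⟨η, i, j⟩) (M i j)
  have hx' : GG.mk hσ x (G0_le lab hσ hx) = ∑ b ∈ S, ube lab hσ b (h b)
      + ∑ η ∈ F, inc lab hσ η (x η - ∑ b ∈ S, brv σ lab b (h b) η) := by
    refine GG.ext (amb_ext fun η => ?_)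
    show x η = evL lab hσ η (∑ b ∈ S, ube lab hσ b (h b)
      + ∑ η ∈ F, inc lab hσ η (x η - ∑ b ∈ S, brv σ lab b (h b) η))
    rw [map_add, map_sum, map_sum]
    have e1 : ∑ b ∈ S, evL lab hσ η (ube lab hσ b (h b)) = ∑ b ∈ S, brv σ lab b (h b) η := rfl
    rw [e1]
    by_cases hη : η ∈ F
    · rw [Finset.sum_eq_single_of_mem η hη]
      · show x η = _ + (blk η _ : (η : List K) → Blk η) η
        rw [blk_same]
        abel
      · intro η' _ hne
        exact blk_ne (Ne.symm hne) _
    · have e2 : ∑ η' ∈ F, evL lab hσ η (inc lab hσ η' (x η' - ∑ b ∈ S, brv σ lab b (h b) η'))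
          = 0 := by
        refine Finset.sum_eq_zero fun η' hη' => ?_
        exact blk_ne (fun h => hη (by rw [h]; exact hη')) _
      rw [e2, add_zero, hh η hη]
  rw [hx']
  exact D.add_mem (D.sum_mem fun b _ => hu b _) (D.sum_mem fun η _ => hi η _)

lemma mk_Ind_le (K β : Type u) : #(Ind K β) ≤ max ℵ₀ (max #K #β) := by
  have h0 : ℵ₀ ≤ max ℵ₀ (max #K #β) := le_max_left _ _
  have hadd : ∀ a b : Cardinal.{u}, a ≤ max ℵ₀ (max #K #β) → b ≤ max ℵ₀ (max #K #β) →
      a + b ≤ max ℵ₀ (max #K #β) := fun a b ha hb =>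
    (add_le_add ha hb).trans (Cardinal.add_eq_self h0).le
  have hmul : ∀ a b : Cardinal.{u}, a ≤ max ℵ₀ (max #K #β) → b ≤ max ℵ₀ (max #K #β) →
      a * b ≤ max ℵ₀ (max #K #β) := fun a b ha hb =>
    (mul_le_mul' ha hb).trans (Cardinal.mul_eq_self h0).le
  rw [Cardinal.mk_sum, Cardinal.lift_id, Cardinal.lift_id]
  refine hadd _ _ ?_ ?_
  · have hinj : Function.Injective (fun p : (Σ η : List K, ZMod (η.length + 1) × ZMod (η.length + 1))
        => (p.1, (p.2.1.val, p.2.2.val))) := by
      rintro ⟨η, i, j⟩ ⟨η', i', j'⟩ h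
      simp only [Prod.mk.injEq] at h
      obtain ⟨h1, h2, h3⟩ := h
      subst h1
      have h2' := ZMod.val_injective _ h2
      have h3' := ZMod.val_injective _ h3
      subst h2'
      subst h3'
      rfl
    refine (Cardinal.mk_le_of_injective hinj).trans ?_
    rw [Cardinal.mk_prod, Cardinal.mk_prod]
    simp only [Cardinal.lift_id, Cardinal.mk_nat, Cardinal.lift_aleph0,
      Cardinal.aleph0_mul_aleph0, Cardinal.lift_uzero]
    exact hmul _ _ ((Cardinal.mk_list_le_max K).trans (max_le h0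
      ((le_max_left _ _).trans (le_max_right _ _)))) h0
  · rw [Cardinal.mk_prod]
    refine hmul _ _ ?_ ?_
    · rw [Cardinal.lift_uzero]
      exact (le_max_right _ _).trans (le_max_right _ _)
    · refine le_trans ?_ h0
      rw [Cardinal.lift_le_aleph0]
      exact Cardinal.mk_le_aleph0

theorem GG_dens (hσ : Function.Injective σ) :
    ∃ D : Set (GG σ lab hσ), Dense D ∧ #D ≤ max ℵ₀ (max #K #β) := by
  obtain ⟨D, ⟨f, hf⟩, hD⟩ := exists_dense_group (gen lab hσ)
  refine ⟨D, ?_, ?_⟩
  · intro a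
    rw [← closure_closure, Metric.mem_closure_iff]
    intro ε hε
    have ha : a.val ∈ closure (G0 σ lab hσ : Set (Amb K)) := a.mem
    obtain ⟨x, hx, hxa⟩ := Metric.mem_closure_iff.1 ha ε hε
    exact ⟨GG.mk hσ x (G0_le lab hσ hx), G0_span lab hσ D.topologicalClosure hD x hx, hxa⟩
  · rw [hf]
    refine (Cardinal.mk_range_le).trans ?_
    have : Nonempty (Ind K β) := ⟨Sum.inl ⟨[], 0, 0⟩⟩
    rw [Cardinal.mk_finsupp_lift_of_infinite']
    refine max_le ?_ ?_
    · rw [Cardinal.lift_uzero]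
      exact mk_Ind_le K β
    · refine le_trans ?_ (le_max_left _ _)
      rw [Cardinal.lift_le_aleph0]
      exact Cardinal.mk_le_aleph0

end Pool.Agent.MP_162c54_lc
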