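import Pool.Agent.MP_162c54_lc.Defs
import Pool.Agent.MP_162c54_lc.Dens

set_option autoImplicit false
set_option linter.unusedSectionVars false
open scoped ComplexOrder Matrix.Norms.L2Operator ENNReal
open Matrix

namespace Pool.Agent.MP_162c54_lc

universe u

variable {K β : Type u} {σ : β → ℕ → K} (lab : β → Bool)

/-- the finite dimensional subalgebra attached to finitely many branches and nodes -/
noncomputable def fdG (hσ : Function.Injective σ) (S : Finset β) (F X : Finset (List K))
    (hX : ∀ η ∉ X, ∀ b ∈ S, ∀ b' ∈ S, On (σ b) η → On (σ b') η → b = b') (hXF : X ⊆ F) :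
    NonUnitalStarSubalgebra ℂ (GG σ lab hσ) where
  carrier := {a | Good σ lab S F a.val}
  add_mem' := fun {_ _} ha hb => Good.add ha hb
  zero_mem' := Good.zero
  mul_mem' := fun {_ _} ha hb => Good.mul hX hXF ha hb
  smul_mem' := fun c {_} ha => Good.smul c ha
  star_mem' := fun {_} ha => Good.star ha

lemma fdG_finite (hσ : Function.Injective σ) (S : Finset β) (F X : Finset (List K))
    (hX : ∀ η ∉ X, ∀ b ∈ S, ∀ b' ∈ S, On (σ b) η → On (σ b') η → b = b') (hXF : X ⊆ F) :
    FiniteDimensional ℂ (fdG lab hσ S F X hX hXF) := by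
  classical
  set V : Submodule ℂ (GG σ lab hσ) := Submodule.span ℂ
    ((⋃ η ∈ F, Set.range (fun p : ZMod (η.length + 1) × ZMod (η.length + 1) =>
        inc lab hσ η (single p.1 p.2 1))) ∪
      (⋃ b ∈ S, Set.range (fun l : Lam => brpG lab hσ F b l))) with hV
  have hVf : FiniteDimensional ℂ V := by
    apply FiniteDimensional.span_of_finite
    refine Set.Finite.union ?_ ?_
    · exact Set.Finite.biUnion F.finite_toSet fun η _ => Set.finite_range _
    · exact Set.Finite.biUnion S.finite_toSet fun b _ => Set.finite_range _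
  have hle : ((fdG lab hσ S F X hX hXF).toNonUnitalSubalgebra.toSubmodule :
      Submodule ℂ (GG σ lab hσ)) ≤ V := by
    intro a ha
    obtain ⟨h, hh⟩ := (show Good σ lab S F a.val from ha)
    have ha' : a = ∑ η ∈ F, inc lab hσ η (a.val η) + ∑ b ∈ S, ∑ l, h b l • brpG lab hσ F b l := by
      refine ext_ev lab hσ fun η => ?_
      rw [map_add, map_sum, map_sum]
      by_cases hη : η ∈ F
      · have e1 : ∑ η' ∈ F, evL lab hσ η (inc lab hσ η' (a.val η')) = a.val η := by
          rw [Finset.sum_eq_single_of_mem η hη]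
          · exact blk_same _ _
          · intro η' _ hne
            exact blk_ne (Ne.symm hne) _
        have e2 : ∑ b ∈ S, evL lab hσ η (∑ l, h b l • brpG lab hσ F b l) = 0 := by
          refine Finset.sum_eq_zero fun b _ => ?_
          rw [map_sum]
          refine Finset.sum_eq_zero fun l _ => ?_
          rw [map_smul]
          have : evL lab hσ η (brpG lab hσ F b l) = 0 := brp_in lab hη
          rw [this, smul_zero]
        rw [e1, e2, add_zero]
        rfl
      · have e1 : ∑ η' ∈ F, evL lab hσ η (inc lab hσ η' (a.val η')) = 0 := by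
          refine Finset.sum_eq_zero fun η' hη' => ?_
          exact blk_ne (fun h => hη (by rw [h]; exact hη')) _
        have e2 : ∀ b, evL lab hσ η (∑ l, h b l • brpG lab hσ F b l) = brv σ lab b (h b) η := by
          intro b
          rw [map_sum, ← brv_decomp lab b (h b) η]
          refine Finset.sum_congr rfl fun l _ => ?_
          rw [map_smul]
          have : evL lab hσ η (brpG lab hσ F b l) = brv σ lab b (Pi.single l 1) η := brp_out lab hη
          rw [this]
        rw [e1, zero_add, Finset.sum_congr rfl fun b _ => e2 b]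
        exact hh η hη
    rw [ha']
    refine V.add_mem (V.sum_mem fun η hη => ?_) (V.sum_mem fun b hb => V.sum_mem fun l _ =>
      V.smul_mem _ (Submodule.subset_span (Or.inr ?_)))
    · rw [inc_decomp]
      refine V.sum_mem fun i _ => V.sum_mem fun j _ => V.smul_mem _
        (Submodule.subset_span (Or.inl ?_))
      exact Set.mem_biUnion hη ⟨(i, j), rfl⟩
    · exact Set.mem_biUnion hb ⟨l, rfl⟩
  have := Submodule.finiteDimensional_of_le hle
  exact this

theorem GG_lfd (hσ : Function.Injective σ) : IsLocallyFinDim (GG σ lab hσ) := by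
  classical
  intro F ε hε
  have h1 : ∀ a : GG σ lab hσ, ∃ x : Amb K, x ∈ G0 σ lab hσ ∧ ‖a.val - x‖ < ε := by
    intro a
    have ha : a.val ∈ closure (G0 σ lab hσ : Set (Amb K)) := a.mem
    obtain ⟨x, hx, hxa⟩ := Metric.mem_closure_iff.1 ha ε hε
    exact ⟨x, hx, by rwa [dist_eq_norm] at hxa⟩
  choose x0 hx0 hx0' using h1
  have h2 : ∀ a : GG σ lab hσ, ∃ (S : Finset β) (F' : Finset (List K)), Good σ lab S F' (x0 a) :=
    fun a => hx0 a
  choose Sa Fa hSF using h2
  obtain ⟨X, hX⟩ := exists_cross hσ (F.biUnion Sa)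
  refine ⟨fdG lab hσ (F.biUnion Sa) (F.biUnion Fa ∪ X) X hX Finset.subset_union_right,
    fdG_finite lab hσ _ _ _ _ _, fun a ha => ⟨GG.mk hσ (x0 a) (G0_le lab hσ (hx0 a)), ?_, hx0' a⟩⟩
  exact (hSF a).mono (Finset.subset_biUnion_of_mem Sa ha)
    ((Finset.subset_biUnion_of_mem Fa ha).trans Finset.subset_union_left)

end Pool.Agent.MP_162c54_lc
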