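import Pool.Agent.MP_162c54_lc.Conflict
import Pool.Agent.MP_162c54_lc.LFD

set_option autoImplicit false
set_option linter.unusedSectionVars false
open scoped ComplexOrder Matrix.Norms.L2Operator ENNReal
open Matrix Cardinal

namespace Pool.Agent.MP_162c54_lc

universe u

section

variable {U : Type u} [NonUnitalCStarAlgebra U] {K : Type u}

/-- Realisations of two different types over the same sequence of blocks are impossible in a
nuclear algebra. -/
lemma no_two (hU : IsNuclear U) (s : ℕ → K) (g g' : ∀ n, Blk (node s n) →⋆ₙₐ[ℂ] U)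
    (hg : ∀ n, Function.Injective (g n))
    (hgg : ∀ n i j, g n (single i j 1) = g' n (single i j 1)) (u u' : Bool → U)
    (hu : ∀ c, ‖u c‖ ≤ 1) (hu' : ∀ c, ‖u' c‖ ≤ 1) (b b' : Bool) (hbb : b ≠ b')
    (h : ∀ n c, u c * g n 1 = g n (dl ((node s n).length + 1) b (hh c)))
    (h' : ∀ n c, u' c * g' n 1 = g' n (dl ((node s n).length + 1) b' (hh c))) : False := by
  classical
  have hgeq : ∀ n M, g n M = g' n M := by
    intro n M
    rw [Matrix.matrix_eq_sum_single M, map_sum, map_sum]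
    refine Finset.sum_congr rfl fun i _ => ?_
    rw [map_sum, map_sum]
    refine Finset.sum_congr rfl fun j _ => ?_
    have : single i j (M i j) = M i j • single i j (1 : ℂ) := by
      rw [Matrix.smul_single, smul_eq_mul, mul_one]
    rw [this, map_smul, map_smul, hgg]
  obtain ⟨N, hN⟩ := conflict hU (fun j : Bool × Bool => if j.1 = b then u j.2 else u' j.2) (by
    intro j
    show ‖(if j.1 = b then u j.2 else u' j.2)‖ ≤ 1
    split_ifs
    · exact hu _
    · exact hu' _)
  refine hN ((node s N).length + 1) (by rw [length_node]; omega) (g N) (hg N) ?_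
  rintro ⟨c, d⟩
  show (if c = b then u d else u' d) * g N 1 = g N (dl ((node s N).length + 1) c (hh d))
  by_cases hc : c = b
  · rw [if_pos hc, hc]
    exact h N d
  · have hc' : c = b' := by
      cases c <;> cases b <;> cases b' <;> simp_all
    rw [if_neg hc, hc', hgeq, hgeq]
    exact h' N d

end

/-- The cardinality of a metric space with a dense set of size at most `κ`. -/
lemma mk_le_of_dense {X : Type u} [MetricSpace X] {κ : Cardinal.{u}} (D : Set X) (hD : Dense D)
    (hc : #D ≤ κ) : #X ≤ κ ^ (ℵ₀ : Cardinal.{u}) := by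
  have h1 : ∀ x : X, ∃ f : ℕ → D, Filter.Tendsto (fun n => ((f n : D) : X)) Filter.atTop (nhds x) := by
    intro x
    obtain ⟨f, hf, hfx⟩ := mem_closure_iff_seq_limit.1 (hD x)
    exact ⟨fun n => ⟨f n, hf n⟩, hfx⟩
  choose f hf using h1
  have hinj : Function.Injective f := by
    intro x y hxy
    have h2 := hf x
    rw [hxy] at h2
    exact tendsto_nhds_unique h2 (hf y)
  have h3 := Cardinal.mk_le_of_injective hinj
  rw [Cardinal.mk_arrow, Cardinal.lift_uzero, Cardinal.mk_nat, Cardinal.lift_aleph0] at h3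
  exact h3.trans (Cardinal.power_le_power_right hc)

/-- `κ ^ ℵ₀ = κ`: every nuclear algebra of density at most `κ` misses a nuclear algebra of density
at most `κ`. -/
theorem misses_of_power (κ : Cardinal.{u}) (hκ : ℵ₀ ≤ κ) (hκω : κ ^ (ℵ₀ : Cardinal.{u}) = κ)
    (U : Type u) [NonUnitalCStarAlgebra U] (hU : IsNuclear U)
    (hd : ∃ D : Set U, Dense D ∧ #D ≤ κ) :
    ∃ (B : Type u) (_ : NonUnitalCStarAlgebra B), IsNuclear B ∧ IsLocallyFinDim B ∧
      (∃ D : Set B, Dense D ∧ #D ≤ κ) ∧ ¬ ∃ f : B →⋆ₙₐ[ℂ] U, Function.Injective f := by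
  classical
  obtain ⟨D, hD, hDc⟩ := hd
  have hUc : #U ≤ κ := (mk_le_of_dense D hD hDc).trans hκω.le
  let K : Type u := ℕ → ℕ → U
  let β : Type u := ℕ → K
  have hpow : ∀ X : Type u, #X ≤ κ → #(ℕ → X) ≤ κ := by
    intro X hX
    rw [Cardinal.mk_arrow, Cardinal.lift_uzero, Cardinal.mk_nat, Cardinal.lift_aleph0]
    exact (Cardinal.power_le_power_right hX).trans hκω.le
  have hKc : #K ≤ κ := hpow _ (hpow _ hUc)
  have hβc : #β ≤ κ := hpow _ hKc
  let Ext : Bool → β → Prop := fun b s => ∃ (g : ∀ n, Blk (node s n) →⋆ₙₐ[ℂ] U) (u : Bool → U),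
    (∀ n, Function.Injective (g n)) ∧ (∀ n i j, g n (single i j 1) = s n i.val j.val) ∧
    (∀ c, ‖u c‖ ≤ 1) ∧ ∀ n c, u c * g n 1 = g n (dl ((node s n).length + 1) b (hh c))
  have hnot : ∀ s, ¬ (Ext false s ∧ Ext true s) := by
    rintro s ⟨⟨g, u, h1, h2, h3, h4⟩, ⟨g', u', h1', h2', h3', h4'⟩⟩
    exact no_two hU s g g' h1 (fun n i j => (h2 n i j).trans (h2' n i j).symm) u u' h3 h3'
      false true (by simp) h4 h4'
  let lab : β → Bool := fun s => if Ext false s then true else false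
  have hlab : ∀ s, ¬ Ext (lab s) s := by
    intro s h
    by_cases hs : Ext false s
    · have : lab s = true := if_pos hs
      rw [this] at h
      exact hnot s ⟨hs, h⟩
    · have : lab s = false := if_neg hs
      rw [this] at h
      exact hs h
  have hσ : Function.Injective (id : β → ℕ → K) := Function.injective_id
  refine ⟨GG (id : β → ℕ → K) lab hσ, inferInstance, GG_nuclear lab hσ, GG_lfd lab hσ, ?_, ?_⟩
  · obtain ⟨D', hD', hc⟩ := GG_dens lab hσ
    exact ⟨D', hD', hc.trans (max_le hκ (max_le hKc hβc))⟩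
  · rintro ⟨f, hf⟩
    let val : List K → K := fun η a b => f (inc lab hσ η (single (a : ZMod _) (b : ZMod _) 1))
    let L : ℕ → List K := fun n => Nat.rec [] (fun _ η => val η :: η) n
    let s : β := fun n => val (L n)
    have hL : ∀ n, node s n = L n := by
      intro n
      induction n with
      | zero => rfl
      | succ n ih =>
        show s n :: node s n = val (L n) :: L n
        rw [ih]
    apply hlab s
    refine ⟨fun n => f.comp (inc lab hσ (node s n)), fun c => f (ube lab hσ s (hh c)), ?_, ?_, ?_, ?_⟩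
    · intro n
      exact hf.comp (inc_injective lab hσ _)
    · intro n i j
      have h1 : s n = val (node s n) := by rw [hL]
      rw [h1]
      show f (inc lab hσ (node s n) (single i j 1)) = f (inc lab hσ (node s n)
        (single ((i.val : ℕ) : ZMod _) ((j.val : ℕ) : ZMod _) 1))
      rw [ZMod.natCast_zmod_val, ZMod.natCast_zmod_val]
    · intro c
      exact (NonUnitalStarAlgHom.norm_apply_le f _).trans (ube_norm lab hσ s c)
    · intro n c
      show f (ube lab hσ s (hh c)) * f (inc lab hσ (node s n) 1) = f (inc lab hσ (node s n) _)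
      rw [← map_mul, ube_mul_inc lab hσ (b := s) (on_node s n)]

/-- Counting argument. -/
theorem misses_of_counting (μ κ : Cardinal.{u}) (hμ : ℵ₀ ≤ μ) (hμκ : μ ≤ κ)
    (hκμ : κ ≤ μ ^ (ℵ₀ : Cardinal.{u})) (hlt : κ ^ μ < 2 ^ κ)
    (U : Type u) [NonUnitalCStarAlgebra U] (hU : IsNuclear U)
    (hd : ∃ D : Set U, Dense D ∧ #D ≤ κ) :
    ∃ (B : Type u) (_ : NonUnitalCStarAlgebra B), IsNuclear B ∧ IsLocallyFinDim B ∧
      (∃ D : Set B, Dense D ∧ #D ≤ κ) ∧ ¬ ∃ f : B →⋆ₙₐ[ℂ] U, Function.Injective f := by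
  classical
  have hκ : ℵ₀ ≤ κ := hμ.trans hμκ
  obtain ⟨D, hD, hDc⟩ := hd
  have hUc : #U ≤ κ ^ (ℵ₀ : Cardinal.{u}) := mk_le_of_dense D hD hDc
  let K : Type u := μ.out
  let β : Type u := κ.out
  have hK : #K = μ := Cardinal.mk_out μ
  have hβ : #β = κ := Cardinal.mk_out κ
  obtain ⟨⟨σ, hσ⟩⟩ : Nonempty (β ↪ (ℕ → K)) := by
    rw [← Cardinal.le_def, Cardinal.mk_arrow, Cardinal.lift_uzero, Cardinal.mk_nat,
      Cardinal.lift_aleph0, hK, hβ]
    exact hκμ
  by_contra hcon
  push Not at hcon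
  have hemb : ∀ lab : β → Bool, ∃ f : GG σ lab hσ →⋆ₙₐ[ℂ] U, Function.Injective f := by
    intro lab
    refine hcon (GG σ lab hσ) inferInstance (GG_nuclear lab hσ) (GG_lfd lab hσ) ?_
    obtain ⟨D', hD', hc⟩ := GG_dens lab hσ
    refine ⟨D', hD', hc.trans (max_le hκ (max_le ?_ ?_))⟩
    · rw [hK]; exact hμκ
    · rw [hβ]
  choose f hf using hemb
  let r : (β → Bool) → (List K → ℕ → ℕ → U) := fun lab η a b =>
    f lab (inc lab hσ η (single (a : ZMod _) (b : ZMod _) 1))
  have hcard : #(List K → ℕ → ℕ → U) < #(β → Bool) := by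
    have h1 : #(ℕ → ℕ → U) ≤ κ ^ (ℵ₀ : Cardinal.{u}) := by
      rw [Cardinal.mk_arrow, Cardinal.mk_arrow, Cardinal.lift_uzero, Cardinal.lift_uzero,
        Cardinal.mk_nat, Cardinal.lift_aleph0, ← Cardinal.power_mul, Cardinal.aleph0_mul_aleph0]
      refine (Cardinal.power_le_power_right hUc).trans ?_
      rw [← Cardinal.power_mul, Cardinal.aleph0_mul_aleph0]
    have h2 : #(List K) = μ := by
      have : Infinite K := by
        rw [Cardinal.infinite_iff, hK]; exact hμ
      rw [Cardinal.mk_list_eq_mk, hK]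
    rw [Cardinal.mk_arrow, Cardinal.lift_id, Cardinal.lift_id, h2]
    calc #(ℕ → ℕ → U) ^ μ ≤ (κ ^ (ℵ₀ : Cardinal.{u})) ^ μ := Cardinal.power_le_power_right h1
      _ = κ ^ μ := by rw [← Cardinal.power_mul, Cardinal.aleph0_mul_eq hμ]
      _ < 2 ^ κ := hlt
      _ = #(β → Bool) := by
          rw [Cardinal.mk_arrow]
          simp [hβ]
  obtain ⟨lab, lab', hr, hne⟩ : ∃ lab lab', r lab = r lab' ∧ lab ≠ lab' := by
    by_contra hno
    push Not at hno
    have hinj : Function.Injective r := fun x y hxy => hno x y hxy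
    exact absurd (Cardinal.mk_le_of_injective hinj) (not_le.2 hcard)
  obtain ⟨b, hb⟩ := Function.ne_iff.1 hne
  refine no_two hU (σ b) (fun n => (f lab).comp (inc lab hσ (node (σ b) n)))
    (fun n => (f lab').comp (inc lab' hσ (node (σ b) n)))
    (fun n => (hf lab).comp (inc_injective lab hσ _)) ?_
    (fun c => f lab (ube lab hσ b (hh c))) (fun c => f lab' (ube lab' hσ b (hh c)))
    (fun c => (NonUnitalStarAlgHom.norm_apply_le _ _).trans (ube_norm lab hσ b c))
    (fun c => (NonUnitalStarAlgHom.norm_apply_le _ _).trans (ube_norm lab' hσ b c))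
    (lab b) (lab' b) hb ?_ ?_
  · intro n i j
    have h1 := congr_fun (congr_fun (congr_fun hr (node (σ b) n)) i.val) j.val
    show f lab (inc lab hσ (node (σ b) n) (single i j 1))
      = f lab' (inc lab' hσ (node (σ b) n) (single i j 1))
    have h2 : ∀ lab, r lab (node (σ b) n) i.val j.val
        = f lab (inc lab hσ (node (σ b) n) (single i j 1)) := by
      intro lab
      show f lab (inc lab hσ (node (σ b) n) (single ((i.val : ℕ) : ZMod _)
        ((j.val : ℕ) : ZMod _) 1)) = _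
      rw [ZMod.natCast_zmod_val, ZMod.natCast_zmod_val]
    rw [← h2, ← h2, h1]
  · intro n c
    show f lab (ube lab hσ b (hh c)) * f lab (inc lab hσ (node (σ b) n) 1)
      = f lab (inc lab hσ (node (σ b) n) _)
    rw [← map_mul, ube_mul_inc lab hσ (on_node (σ b) n)]
  · intro n c
    show f lab' (ube lab' hσ b (hh c)) * f lab' (inc lab' hσ (node (σ b) n) 1)
      = f lab' (inc lab' hσ (node (σ b) n) _)
    rw [← map_mul, ube_mul_inc lab' hσ (on_node (σ b) n)]

lemma NoNuclearContainsAll.not_universal {κ : Cardinal.{u}} (h : NoNuclearContainsAll κ) :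
    ¬ ExistsUniversalNuclear κ := by
  rintro ⟨A, _, hA, hD, _, hB⟩
  obtain ⟨B, _, hB1, _, hB3, hB4⟩ := h A hA hD
  exact hB4 (hB B hB1 hB3)

lemma aleph_one_case (h : (2 : Cardinal.{u}) ^ (ℵ₀ : Cardinal.{u}) < 2 ^ (Cardinal.aleph 1)) :
    NoNuclearContainsAll.{u} (Cardinal.aleph 1) := by
  intro A _ hA hD
  refine misses_of_counting ℵ₀ (Cardinal.aleph 1) le_rfl (Cardinal.aleph0_le_aleph 1) ?_ ?_ A hA hD
  · rw [← Cardinal.succ_aleph0, Cardinal.aleph0_power_aleph0]
    exact Order.succ_le_of_lt (Cardinal.cantor _)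
  · have h1 : (Cardinal.aleph 1 : Cardinal.{u}) ≤ 2 ^ (ℵ₀ : Cardinal.{u}) := by
      rw [← Cardinal.succ_aleph0]
      exact Order.succ_le_of_lt (Cardinal.cantor _)
    calc (Cardinal.aleph 1 : Cardinal.{u}) ^ (ℵ₀ : Cardinal.{u})
        ≤ ((2 : Cardinal.{u}) ^ (ℵ₀ : Cardinal.{u})) ^ (ℵ₀ : Cardinal.{u}) :=
          Cardinal.power_le_power_right h1
      _ = 2 ^ (ℵ₀ : Cardinal.{u}) := by rw [← Cardinal.power_mul, Cardinal.aleph0_mul_aleph0]
      _ < _ := h

end Pool.Agent.MP_162c54_lc
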