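import Pool.Agent.MP_162c54_lc.Regular
import Pool.Agent.MP_162c54_lc.Main

set_option autoImplicit false
open Cardinal Set

namespace Pool.Agent.MP_162c54_lc

universe u

/-- Hausdorff's formula, in the form needed here. -/
lemma aleph_pow_le (n : ℕ) : (ℵ_ (n : Ordinal.{u}) : Cardinal.{u}) ^ (ℵ₀ : Cardinal.{u})
    ≤ max (2 ^ (ℵ₀ : Cardinal.{u})) (ℵ_ (n : Ordinal.{u})) := by
  induction n with
  | zero =>
    rw [Nat.cast_zero, Cardinal.aleph_zero, Cardinal.aleph0_power_aleph0]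
    refine le_trans ?_ (le_max_left _ _)
    rw [Cardinal.two_power_aleph0]
  | succ n ih =>
    set κ : Cardinal.{u} := ℵ_ ((n + 1 : ℕ) : Ordinal.{u}) with hκdef
    have hreg : κ.IsRegular := by
      rw [hκdef, Nat.cast_succ]
      exact Cardinal.isRegular_aleph_add_one _
    have hκ0 : ℵ₀ < κ := by
      rw [hκdef, ← Cardinal.aleph_zero, Cardinal.aleph_lt_aleph]
      exact_mod_cast Nat.succ_pos n
    have hIio : ∀ b : KK κ, #(Iio b) ≤ ℵ_ (n : Ordinal.{u}) := by
      intro b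
      have h1 : #(Iio b) < κ := by
        have := Cardinal.mk_Iio_lt b (by rw [Cardinal.mk_ord_toType, Ordinal.type_toType])
        rwa [Cardinal.mk_ord_toType] at this
      have h2 : κ = Order.succ (ℵ_ (n : Ordinal.{u})) := by
        rw [hκdef, Nat.cast_succ, Cardinal.succ_aleph]
      exact Order.lt_succ_iff.1 (h1.trans_eq h2)
    have hsurj : Function.Surjective (fun p : (Σ b : KK κ, (ℕ → Iio b)) =>
        (fun m => (p.2 m).1 : ℕ → KK κ)) := by
      intro g
      obtain ⟨b, hb⟩ := bound_K_countable hreg hκ0 g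
      exact ⟨⟨b, fun m => ⟨g m, hb m⟩⟩, rfl⟩
    have h1 := Cardinal.mk_le_of_surjective hsurj
    rw [Cardinal.mk_arrow, Cardinal.mk_nat, Cardinal.lift_aleph0, Cardinal.lift_uzero,
      Cardinal.mk_ord_toType, Cardinal.mk_sigma] at h1
    refine h1.trans ?_
    have h2 : ∀ b : KK κ, #(ℕ → Iio b) ≤ max (2 ^ (ℵ₀ : Cardinal.{u})) κ := by
      intro b
      rw [Cardinal.mk_arrow, Cardinal.mk_nat, Cardinal.lift_aleph0, Cardinal.lift_uzero]
      refine (Cardinal.power_le_power_right (hIio b)).trans (ih.trans (max_le_max le_rfl ?_))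
      rw [hκdef, Cardinal.aleph_le_aleph]
      exact_mod_cast Nat.le_succ n
    have h3 := Cardinal.sum_le_sum _ _ h2
    refine h3.trans ?_
    rw [Cardinal.sum_const, Cardinal.lift_id, Cardinal.lift_id, Cardinal.mk_ord_toType]
    refine (mul_le_mul_left (le_max_right (2 ^ (ℵ₀ : Cardinal.{u})) κ) _).trans ?_
    exact (Cardinal.mul_eq_self (hκ0.le.trans (le_max_right _ _))).le

/-- in ZFC, for all `n ≥ 2` -/
theorem alephN_case (n : ℕ) (hn : 2 ≤ n) : NoNuclearContainsAll.{u} (ℵ_ (n : Ordinal.{u})) := by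
  intro A _ hA hd
  have hreg : (ℵ_ (n : Ordinal.{u}) : Cardinal.{u}).IsRegular := by
    obtain ⟨m, rfl⟩ := Nat.exists_eq_succ_of_ne_zero (by omega : n ≠ 0)
    rw [Nat.cast_succ]
    exact Cardinal.isRegular_aleph_add_one _
  by_cases h : (ℵ_ (n : Ordinal.{u}) : Cardinal.{u}) < 2 ^ (ℵ₀ : Cardinal.{u})
  · have h1 : ℵ₁ < (ℵ_ (n : Ordinal.{u}) : Cardinal.{u}) := by
      rw [Cardinal.aleph_lt_aleph]
      exact_mod_cast hn
    obtain ⟨B, hB, -, h2, h3, h4, h5⟩ := misses_of_regular _ hreg h1 h A hd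
    exact ⟨B, hB, h2, h3, h4, h5⟩
  · rw [not_lt] at h
    refine misses_of_power _ hreg.aleph0_le ?_ A hA hd
    apply le_antisymm
    · exact (aleph_pow_le n).trans (max_le h le_rfl)
    · exact Cardinal.self_le_power _ Cardinal.one_le_aleph0

end Pool.Agent.MP_162c54_lc
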