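import Pool.Agent.MP_162c54_lc.Types

set_option autoImplicit false
set_option linter.unusedSectionVars false
open scoped ComplexOrder Matrix.Norms.L2Operator ENNReal
open Matrix

namespace Pool.Agent.MP_162c54_lc

universe u

/-- the matrix block sitting at a node of the tree -/
abbrev Blk {K : Type u} (η : List K) : Type :=
  Matrix (ZMod (η.length + 1)) (ZMod (η.length + 1)) ℂ

/-- the C*-algebra of all bounded families of blocks -/
abbrev Amb (K : Type u) : Type u := lp (fun η : List K => Blk η) ∞

/-- the node of level `n` on a branch -/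
def node {K : Type u} (s : ℕ → K) : ℕ → List K
  | 0 => []
  | n + 1 => s n :: node s n

@[simp] lemma length_node {K : Type u} (s : ℕ → K) (n : ℕ) : (node s n).length = n := by
  induction n with
  | zero => rfl
  | succ n ih => simp [node, ih]

lemma node_inj {K : Type u} {s t : ℕ → K} {n : ℕ} (h : node s n = node t n) :
    ∀ m < n, s m = t m := by
  induction n with
  | zero => intro m hm; omega
  | succ n ih =>
    simp only [node, List.cons.injEq] at h
    intro m hm
    rcases Nat.lt_succ_iff_lt_or_eq.1 hm with h1 | h1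
    · exact ih h.2 m h1
    · rw [h1]; exact h.1

/-- `η` is a node of the branch `s` -/
def On {K : Type u} (s : ℕ → K) (η : List K) : Prop := η = node s η.length

lemma on_node {K : Type u} (s : ℕ → K) (n : ℕ) : On s (node s n) := by
  unfold On; rw [length_node]

variable {K β : Type u} (σ : β → ℕ → K) (lab : β → Bool)

open Classical in
/-- value at a node of the branch element with coefficients `h` -/
noncomputable def brv (b : β) (h : Lam → ℂ) (η : List K) : Blk η :=
  if On (σ b) η then dl (η.length + 1) (lab b) h else 0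

lemma brv_on {b : β} {η : List K} (hη : On (σ b) η) (h : Lam → ℂ) :
    brv σ lab b h η = dl (η.length + 1) (lab b) h := if_pos hη

lemma brv_off {b : β} {η : List K} (hη : ¬ On (σ b) η) (h : Lam → ℂ) :
    brv σ lab b h η = 0 := if_neg hη

lemma brv_add (b : β) (h h' : Lam → ℂ) (η : List K) :
    brv σ lab b (h + h') η = brv σ lab b h η + brv σ lab b h' η := by
  by_cases hη : On (σ b) η
  · simp only [brv_on σ lab hη, dl_add]
  · simp only [brv_off σ lab hη, add_zero]

lemma brv_zero (b : β) (η : List K) : brv σ lab b 0 η = 0 := by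
  by_cases hη : On (σ b) η
  · rw [brv_on σ lab hη, dl]
    simp only [Pi.zero_apply, Matrix.diagonal_zero, Matrix.mul_zero, Matrix.zero_mul]
  · exact brv_off σ lab hη _

lemma brv_smul (b : β) (c : ℂ) (h : Lam → ℂ) (η : List K) :
    brv σ lab b (c • h) η = c • brv σ lab b h η := by
  by_cases hη : On (σ b) η
  · simp only [brv_on σ lab hη, dl_smul]
  · simp only [brv_off σ lab hη, smul_zero]

lemma brv_mul (b : β) (h h' : Lam → ℂ) (η : List K) :
    brv σ lab b h η * brv σ lab b h' η = brv σ lab b (h * h') η := by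
  by_cases hη : On (σ b) η
  · simp only [brv_on σ lab hη, dl_mul]
  · simp only [brv_off σ lab hη, mul_zero]

lemma brv_star (b : β) (h : Lam → ℂ) (η : List K) :
    star (brv σ lab b h η) = brv σ lab b (star h) η := by
  by_cases hη : On (σ b) η
  · simp only [brv_on σ lab hη, dl_star]
  · simp only [brv_off σ lab hη, star_zero]

lemma brv_norm_le (b : β) (h : Lam → ℂ) (C : ℝ) (hC : 0 ≤ C) (hh : ∀ l, ‖h l‖ ≤ C)
    (η : List K) : ‖brv σ lab b h η‖ ≤ C := by
  by_cases hη : On (σ b) η
  · rw [brv_on σ lab hη]; exact dl_norm_le _ _ _ hC hh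
  · rw [brv_off σ lab hη, norm_zero]; exact hC

/-- an element of the ambient algebra from a bounded family -/
noncomputable def mkAmb (f : (η : List K) → Blk η) (C : ℝ) (hf : ∀ η, ‖f η‖ ≤ C) : Amb K :=
  ⟨f, memℓp_infty ⟨C, by rintro _ ⟨η, rfl⟩; exact hf η⟩⟩

@[simp] lemma mkAmb_apply (f : (η : List K) → Blk η) (C : ℝ) (hf : ∀ η, ‖f η‖ ≤ C)
    (η : List K) : (mkAmb f C hf : (η : List K) → Blk η) η = f η := rfl

/-- the branch element -/
noncomputable def br (b : β) (h : Lam → ℂ) : Amb K :=
  mkAmb (brv σ lab b h) (‖h‖) (brv_norm_le σ lab b h _ (norm_nonneg _) (norm_le_pi_norm h))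

@[simp] lemma br_apply (b : β) (h : Lam → ℂ) (η : List K) :
    (br σ lab b h : (η : List K) → Blk η) η = brv σ lab b h η := rfl

open Classical in
/-- the element supported at one node -/
noncomputable def blk (η : List K) (M : Blk η) : Amb K :=
  mkAmb (Pi.single η M) ‖M‖ (by
    intro η'
    by_cases h : η' = η
    · subst h; simp
    · simp [Pi.single_eq_of_ne h])

lemma blk_same (η : List K) (M : Blk η) : (blk η M : (η : List K) → Blk η) η = M := by
  classical
  simp [blk]

lemma blk_ne {η η' : List K} (h : η' ≠ η) (M : Blk η) :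
    (blk η M : (η : List K) → Blk η) η' = 0 := by
  classical
  simp [blk, Pi.single_eq_of_ne h]

/-- Elements which off the finite set `F` of nodes are combinations of the branch elements of the
finite set `S`. -/
def Good (S : Finset β) (F : Finset (List K)) (x : Amb K) : Prop :=
  ∃ h : β → Lam → ℂ, ∀ η ∉ F, x η = ∑ b ∈ S, brv σ lab b (h b) η

variable {σ lab}

lemma Good.mono {S S' : Finset β} {F F' : Finset (List K)} {x : Amb K}
    (hx : Good σ lab S F x) (hS : S ⊆ S') (hF : F ⊆ F') : Good σ lab S' F' x := by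
  classical
  obtain ⟨h, hh⟩ := hx
  refine ⟨fun b => if b ∈ S then h b else 0, fun η hη => ?_⟩
  rw [hh η fun h => hη (hF h)]
  rw [← Finset.sum_subset hS (f := fun b => brv σ lab b (if b ∈ S then h b else 0) η)]
  · refine Finset.sum_congr rfl fun b hb => ?_
    rw [if_pos hb]
  · intro b _ hb
    simp only [if_neg hb, brv_zero]

lemma Good.add {S : Finset β} {F : Finset (List K)} {x y : Amb K}
    (hx : Good σ lab S F x) (hy : Good σ lab S F y) : Good σ lab S F (x + y) := by
  obtain ⟨h, hh⟩ := hx
  obtain ⟨h', hh'⟩ := hy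
  refine ⟨h + h', fun η hη => ?_⟩
  show x η + y η = _
  rw [hh η hη, hh' η hη, ← Finset.sum_add_distrib]
  exact Finset.sum_congr rfl fun b _ => (brv_add σ lab b _ _ η).symm

lemma Good.zero {S : Finset β} {F : Finset (List K)} : Good σ lab S F 0 := by
  refine ⟨0, fun η _ => ?_⟩
  show (0 : Blk η) = _
  symm
  exact Finset.sum_eq_zero fun b _ => brv_zero σ lab b η

lemma Good.smul {S : Finset β} {F : Finset (List K)} {x : Amb K} (c : ℂ)
    (hx : Good σ lab S F x) : Good σ lab S F (c • x) := by
  obtain ⟨h, hh⟩ := hx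
  refine ⟨fun b => c • h b, fun η hη => ?_⟩
  show c • x η = _
  rw [hh η hη, Finset.smul_sum]
  exact Finset.sum_congr rfl fun b _ => (brv_smul σ lab b _ _ η).symm

lemma Good.star {S : Finset β} {F : Finset (List K)} {x : Amb K}
    (hx : Good σ lab S F x) : Good σ lab S F (star x) := by
  obtain ⟨h, hh⟩ := hx
  refine ⟨fun b => Star.star (h b), fun η hη => ?_⟩
  show Star.star (x η) = _
  rw [hh η hη, star_sum]
  exact Finset.sum_congr rfl fun b _ => brv_star σ lab b _ η

/-- finitely many branches split off a finite set of nodes -/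
lemma exists_cross (hσ : Function.Injective σ) (S : Finset β) : ∃ X : Finset (List K),
    ∀ η ∉ X, ∀ b ∈ S, ∀ b' ∈ S, On (σ b) η → On (σ b') η → b = b' := by
  classical
  have h1 : ∀ p : β × β, ∃ n, p.1 ≠ p.2 → σ p.1 n ≠ σ p.2 n := by
    intro p
    by_cases h : p.1 = p.2
    · exact ⟨0, fun h' => absurd h h'⟩
    · have : σ p.1 ≠ σ p.2 := fun h' => h (hσ h')
      obtain ⟨n, hn⟩ := Function.ne_iff.1 this
      exact ⟨n, fun _ => hn⟩
  choose N hN using h1
  set M := (S ×ˢ S).sup N with hM
  refine ⟨(S ×ˢ Finset.range (M + 1)).image fun q => node (σ q.1) q.2, ?_⟩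
  intro η hη b hb b' hb' hon hon'
  by_contra hne
  have hlen : M < η.length := by
    by_contra hle
    push Not at hle
    apply hη
    rw [Finset.mem_image]
    refine ⟨(b, η.length), ?_, ?_⟩
    · rw [Finset.mem_product]
      exact ⟨hb, Finset.mem_range.2 (by omega)⟩
    · exact hon.symm
  have h2 : node (σ b) η.length = node (σ b') η.length := hon.symm.trans hon'
  have h3 : N (b, b') ≤ M := Finset.le_sup (f := N) (Finset.mem_product.2 ⟨hb, hb'⟩)
  exact hN (b, b') hne (node_inj h2 _ (by omega))

/-- Off the crossing set, at most one branch contributes. -/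
lemma sum_unique {S : Finset β} {η : List K}
    (hc : ∀ b ∈ S, ∀ b' ∈ S, On (σ b) η → On (σ b') η → b = b') (h : β → Lam → ℂ) {b : β}
    (hb : b ∈ S) (hon : On (σ b) η) :
    ∑ b' ∈ S, brv σ lab b' (h b') η = brv σ lab b (h b) η := by
  refine Finset.sum_eq_single_of_mem b hb fun b' hb' hne => ?_
  refine brv_off σ lab (fun hon' => hne ?_) _
  exact hc b' hb' b hb hon' hon

lemma Good.mul {S : Finset β} {F X : Finset (List K)} {x y : Amb K}
    (hX : ∀ η ∉ X, ∀ b ∈ S, ∀ b' ∈ S, On (σ b) η → On (σ b') η → b = b')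
    (hXF : X ⊆ F) (hx : Good σ lab S F x) (hy : Good σ lab S F y) :
    Good σ lab S F (x * y) := by
  obtain ⟨h, hh⟩ := hx
  obtain ⟨h', hh'⟩ := hy
  refine ⟨fun b => h b * h' b, fun η hη => ?_⟩
  show x η * y η = _
  rw [hh η hη, hh' η hη]
  have hc := hX η fun h => hη (hXF h)
  by_cases hex : ∃ b ∈ S, On (σ b) η
  · obtain ⟨b, hb, hon⟩ := hex
    rw [sum_unique hc h hb hon, sum_unique hc h' hb hon,
      sum_unique hc (fun b => h b * h' b) hb hon, brv_mul]
  · push Not at hex
    rw [Finset.sum_eq_zero fun b hb => brv_off σ lab (hex b hb) _, zero_mul]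
    symm
    exact Finset.sum_eq_zero fun b hb => brv_off σ lab (hex b hb) _

variable (σ lab)

/-- the dense *-subalgebra -/
noncomputable def G0 (hσ : Function.Injective σ) : NonUnitalStarSubalgebra ℂ (Amb K) where
  carrier := {x | ∃ S F, Good σ lab S F x}
  add_mem' := by
    classical
    rintro x y ⟨S, F, hx⟩ ⟨S', F', hy⟩
    exact ⟨S ∪ S', F ∪ F', (hx.mono Finset.subset_union_left Finset.subset_union_left).add
      (hy.mono Finset.subset_union_right Finset.subset_union_right)⟩
  zero_mem' := ⟨∅, ∅, Good.zero⟩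
  mul_mem' := by
    classical
    rintro x y ⟨S, F, hx⟩ ⟨S', F', hy⟩
    obtain ⟨X, hX⟩ := exists_cross hσ (S ∪ S')
    refine ⟨S ∪ S', (F ∪ F') ∪ X, Good.mul hX Finset.subset_union_right ?_ ?_⟩
    · exact hx.mono Finset.subset_union_left
        (Finset.subset_union_left.trans Finset.subset_union_left)
    · exact hy.mono Finset.subset_union_right
        (Finset.subset_union_right.trans Finset.subset_union_left)
  smul_mem' := by
    rintro c x ⟨S, F, hx⟩
    exact ⟨S, F, hx.smul c⟩
  star_mem' := by
    rintro x ⟨S, F, hx⟩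
    exact ⟨S, F, hx.star⟩

/-- the C*-algebra associated with a family of labelled branches -/
noncomputable def GS (hσ : Function.Injective σ) : NonUnitalStarSubalgebra ℂ (Amb K) :=
  (G0 σ lab hσ).topologicalClosure

instance GS_closed (hσ : Function.Injective σ) : IsClosed ((GS σ lab hσ : Set (Amb K))) :=
  (G0 σ lab hσ).isClosed_topologicalClosure

/-- the C*-algebra associated with a family of labelled branches, as a type -/
def GG (hσ : Function.Injective σ) : Type u := GS σ lab hσ

noncomputable instance (hσ : Function.Injective σ) : NonUnitalCStarAlgebra (GG σ lab hσ) :=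
  NonUnitalStarSubalgebra.nonUnitalCStarAlgebra (GS σ lab hσ)

variable {σ lab}

/-- the underlying bounded family -/
def GG.val {hσ : Function.Injective σ} (a : GG σ lab hσ) : Amb K := Subtype.val a

/-- constructor -/
def GG.mk (hσ : Function.Injective σ) (x : Amb K) (hx : x ∈ GS σ lab hσ) : GG σ lab hσ := ⟨x, hx⟩

lemma GG.val_mk (hσ : Function.Injective σ) (x : Amb K) (hx : x ∈ GS σ lab hσ) :
    (GG.mk hσ x hx).val = x := rfl

lemma GG.ext {hσ : Function.Injective σ} {a b : GG σ lab hσ} (h : a.val = b.val) : a = b :=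
  Subtype.ext h

lemma GG.mem {hσ : Function.Injective σ} (a : GG σ lab hσ) : a.val ∈ GS σ lab hσ := a.2

lemma GG.val_add {hσ : Function.Injective σ} (a b : GG σ lab hσ) :
    (a + b).val = a.val + b.val := rfl

lemma GG.val_sub {hσ : Function.Injective σ} (a b : GG σ lab hσ) :
    (a - b).val = a.val - b.val := rfl

lemma GG.val_zero {hσ : Function.Injective σ} : (0 : GG σ lab hσ).val = 0 := rfl

lemma GG.val_mul {hσ : Function.Injective σ} (a b : GG σ lab hσ) :
    (a * b).val = a.val * b.val := rfl

lemma GG.val_smul {hσ : Function.Injective σ} (c : ℂ) (a : GG σ lab hσ) :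
    (c • a).val = c • a.val := rfl

lemma GG.val_star {hσ : Function.Injective σ} (a : GG σ lab hσ) :
    (star a).val = star a.val := rfl

lemma GG.norm_val {hσ : Function.Injective σ} (a : GG σ lab hσ) : ‖a.val‖ = ‖a‖ := rfl

variable (lab)

lemma mem_G0_of_good (hσ : Function.Injective σ) {S : Finset β} {F : Finset (List K)}
    {x : Amb K} (hx : Good σ lab S F x) : x ∈ G0 σ lab hσ := ⟨S, F, hx⟩

lemma G0_le (hσ : Function.Injective σ) : G0 σ lab hσ ≤ GS σ lab hσ :=
  (G0 σ lab hσ).le_topologicalClosure

lemma good_blk (η : List K) (M : Blk η) : Good σ lab ∅ {η} (blk η M) := by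
  refine ⟨0, fun η' hη' => ?_⟩
  rw [Finset.sum_empty]
  exact blk_ne (by simpa using hη') M

lemma good_br (b : β) (h : Lam → ℂ) : Good σ lab {b} ∅ (br σ lab b h) := by
  refine ⟨fun _ => h, fun η _ => ?_⟩
  rw [Finset.sum_singleton]
  rfl

lemma blk_mem (hσ : Function.Injective σ) (η : List K) (M : Blk η) : blk η M ∈ GS σ lab hσ :=
  G0_le lab hσ (mem_G0_of_good lab hσ (good_blk lab η M))

lemma br_mem (hσ : Function.Injective σ) (b : β) (h : Lam → ℂ) : br σ lab b h ∈ GS σ lab hσ :=
  G0_le lab hσ (mem_G0_of_good lab hσ (good_br lab b h))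

lemma amb_ext {x y : Amb K} (h : ∀ η, x η = y η) : x = y := lp.ext (funext h)

lemma blk_add (η : List K) (M N : Blk η) : blk η (M + N) = blk η M + blk η N := by
  refine amb_ext fun η' => ?_
  show _ = (blk η M : (η : List K) → Blk η) η' + (blk η N : (η : List K) → Blk η) η'
  by_cases h : η' = η
  · subst h; simp only [blk_same]
  · simp only [blk_ne h, add_zero]

lemma blk_smul (η : List K) (c : ℂ) (M : Blk η) : blk η (c • M) = c • blk η M := by
  refine amb_ext fun η' => ?_
  show _ = c • (blk η M : (η : List K) → Blk η) η'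
  by_cases h : η' = η
  · subst h; simp only [blk_same]
  · simp only [blk_ne h, smul_zero]

lemma blk_mul (η : List K) (M N : Blk η) : blk η (M * N) = blk η M * blk η N := by
  refine amb_ext fun η' => ?_
  show _ = (blk η M : (η : List K) → Blk η) η' * (blk η N : (η : List K) → Blk η) η'
  by_cases h : η' = η
  · subst h; simp only [blk_same]
  · simp only [blk_ne h, mul_zero]

lemma blk_star (η : List K) (M : Blk η) : blk η (star M) = star (blk η M) := by
  refine amb_ext fun η' => ?_
  show _ = star ((blk η M : (η : List K) → Blk η) η')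
  by_cases h : η' = η
  · subst h; simp only [blk_same]
  · simp only [blk_ne h, star_zero]

lemma br_mul_blk {b : β} {η : List K} (hon : On (σ b) η) (h : Lam → ℂ) (M : Blk η) :
    br σ lab b h * blk η M = blk η (dl (η.length + 1) (lab b) h * M) := by
  refine amb_ext fun η' => ?_
  show (br σ lab b h : (η : List K) → Blk η) η' * (blk η M : (η : List K) → Blk η) η' = _
  by_cases hη : η' = η
  · subst hη; rw [blk_same, blk_same, br_apply, brv_on σ lab hon]
  · simp only [blk_ne hη, mul_zero]

/-- the inclusion of a block -/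
noncomputable def inc (hσ : Function.Injective σ) (η : List K) : Blk η →⋆ₙₐ[ℂ] GG σ lab hσ where
  toFun M := GG.mk hσ (blk η M) (blk_mem lab hσ η M)
  map_smul' c M := GG.ext (blk_smul η c M)
  map_zero' := GG.ext (by
    have := blk_smul η 0 (0 : Blk η)
    rw [zero_smul, zero_smul] at this
    exact this)
  map_add' M N := GG.ext (blk_add η M N)
  map_mul' M N := GG.ext (blk_mul η M N)
  map_star' M := GG.ext (blk_star η M)

lemma inc_val (hσ : Function.Injective σ) (η : List K) (M : Blk η) :
    (inc lab hσ η M).val = blk η M := rfl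

lemma inc_injective (hσ : Function.Injective σ) (η : List K) :
    Function.Injective (inc lab hσ η) := by
  intro M N h
  have h1 : blk η M = blk η N := congrArg GG.val h
  have h2 := congrArg (fun x : Amb K => x η) h1
  simpa [blk_same] using h2

/-- the branch element of the algebra -/
noncomputable def ube (hσ : Function.Injective σ) (b : β) (h : Lam → ℂ) : GG σ lab hσ :=
  GG.mk hσ (br σ lab b h) (br_mem lab hσ b h)

lemma ube_norm (hσ : Function.Injective σ) (b : β) (c : Bool) :
    ‖ube lab hσ b (hh c)‖ ≤ 1 := by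
  rw [← GG.norm_val]
  show ‖br σ lab b (hh c)‖ ≤ 1
  refine lp.norm_le_of_forall_le zero_le_one fun η => ?_
  exact brv_norm_le σ lab b _ 1 zero_le_one (fun l => (hh_norm c l).le) η

lemma ube_mul_inc (hσ : Function.Injective σ) {b : β} {η : List K} (hon : On (σ b) η)
    (h : Lam → ℂ) : ube lab hσ b h * inc lab hσ η 1 = inc lab hσ η (dl (η.length + 1) (lab b) h) := by
  refine GG.ext ?_
  show br σ lab b h * blk η 1 = blk η _
  rw [br_mul_blk lab hon, Matrix.mul_one]

end Pool.Agent.MP_162c54_lc
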