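import Mathlib

set_option autoImplicit false
set_option linter.unusedSectionVars false
open scoped ComplexOrder Matrix.Norms.L2Operator
open Matrix

namespace Pool.Agent.MP_162c54_lc

variable {m n p : Type*} [Fintype m] [Fintype n] [Fintype p]

/-- squared Hilbert-Schmidt norm -/
noncomputable def hs (A : Matrix m n ℂ) : ℝ := ∑ i, ∑ j, ‖A i j‖ ^ 2

lemma hs_nonneg (A : Matrix m n ℂ) : 0 ≤ hs A :=
  Finset.sum_nonneg fun _ _ => Finset.sum_nonneg fun _ _ => by positivity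

lemma hs_eq_trace (A : Matrix m n ℂ) : ((hs A : ℝ) : ℂ) = (Aᴴ * A).trace := by
  unfold hs
  rw [Finset.sum_comm]
  simp only [Matrix.trace, Matrix.diag_apply, Matrix.mul_apply, Matrix.conjTranspose_apply]
  push_cast
  refine Finset.sum_congr rfl fun j _ => Finset.sum_congr rfl fun i _ => ?_
  rw [Complex.star_def, ← Complex.normSq_eq_conj_mul_self, Complex.normSq_eq_norm_sq]
  push_cast
  rfl

lemma hs_eq_re_trace (A : Matrix m n ℂ) : hs A = ((Aᴴ * A).trace).re := by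
  rw [← hs_eq_trace]; simp

lemma hs_conjTranspose (A : Matrix m n ℂ) : hs Aᴴ = hs A := by
  unfold hs
  rw [Finset.sum_comm]
  simp [Matrix.conjTranspose_apply]

lemma hs_eq_zero_iff (A : Matrix m n ℂ) : hs A = 0 ↔ A = 0 := by
  constructor
  · intro h
    ext i j
    have h1 : ∀ i ∈ Finset.univ, ∑ j, ‖A i j‖ ^ 2 = 0 := by
      refine (Finset.sum_eq_zero_iff_of_nonneg ?_).1 h
      intro i _
      exact Finset.sum_nonneg fun _ _ => by positivity
    have h2 := (Finset.sum_eq_zero_iff_of_nonneg (fun _ _ => by positivity)).1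
      (h1 i (Finset.mem_univ _)) j (Finset.mem_univ _)
    simpa using h2
  · rintro rfl
    simp [hs]

lemma hs_sub (A B : Matrix m n ℂ) : hs (A - B) = hs A + hs B - 2 * ((Aᴴ * B).trace).re := by
  rw [hs_eq_re_trace, hs_eq_re_trace, hs_eq_re_trace]
  have h : (A - B)ᴴ * (A - B) = Aᴴ * A + Bᴴ * B - (Aᴴ * B + (Aᴴ * B)ᴴ) := by
    rw [Matrix.conjTranspose_sub, Matrix.conjTranspose_mul, Matrix.conjTranspose_conjTranspose]
    simp only [Matrix.sub_mul, Matrix.mul_sub]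
    abel
  rw [h, Matrix.trace_sub, Matrix.trace_add, Matrix.trace_add, Matrix.trace_conjTranspose]
  simp
  ring

lemma hs_smul (c : ℂ) (A : Matrix m n ℂ) : hs (c • A) = ‖c‖ ^ 2 * hs A := by
  unfold hs
  rw [Finset.mul_sum]
  refine Finset.sum_congr rfl fun i _ => ?_
  rw [Finset.mul_sum]
  refine Finset.sum_congr rfl fun j _ => ?_
  simp [mul_pow]

variable [DecidableEq m] [DecidableEq n] [DecidableEq p]

lemma hs_isometry_mul (W : Matrix p m ℂ) (hW : Wᴴ * W = 1) (A : Matrix m n ℂ) :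
    hs (W * A) = hs A := by
  rw [hs_eq_re_trace, hs_eq_re_trace, Matrix.conjTranspose_mul, Matrix.mul_assoc,
    ← Matrix.mul_assoc Wᴴ, hW, Matrix.one_mul]

lemma hs_mul_coisometry (W : Matrix n p ℂ) (hW : W * Wᴴ = 1) (A : Matrix m n ℂ) :
    hs (A * W) = hs A := by
  rw [← hs_conjTranspose, Matrix.conjTranspose_mul, hs_isometry_mul, hs_conjTranspose]
  rw [Matrix.conjTranspose_conjTranspose, hW]

/-- columns of a contraction -/
lemma col_le_of_norm_le {M : Matrix m n ℂ} (hM : ‖M‖ ≤ 1) (j : n) : ∑ i, ‖M i j‖ ^ 2 ≤ 1 := by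
  have h := Matrix.l2_opNorm_mulVec M (EuclideanSpace.single j (1 : ℂ))
  have h1 : ‖EuclideanSpace.single j (1 : ℂ)‖ = 1 := by simp
  rw [h1, mul_one] at h
  have h2 := h.trans hM
  have h3 : ‖(EuclideanSpace.equiv m ℂ).symm (M *ᵥ (EuclideanSpace.single j (1:ℂ)))‖ ^ 2 ≤ 1 := by
    have := norm_nonneg ((EuclideanSpace.equiv m ℂ).symm (M *ᵥ (EuclideanSpace.single j (1:ℂ))))
    nlinarith
  rw [EuclideanSpace.norm_sq_eq] at h3
  simpa using h3

lemma row_le_of_norm_le {M : Matrix m n ℂ} (hM : ‖M‖ ≤ 1) (i : m) : ∑ j, ‖M i j‖ ^ 2 ≤ 1 := by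
  have h := col_le_of_norm_le (M := Mᴴ) (by rwa [Matrix.l2_opNorm_conjTranspose]) i
  simpa [Matrix.conjTranspose_apply] using h

lemma norm_mulVec_sq (M : Matrix m n ℂ) (x : n → ℂ) :
    ((∑ i, ‖(M *ᵥ x) i‖ ^ 2 : ℝ) : ℂ) = star x ⬝ᵥ ((Mᴴ * M) *ᵥ x) := by
  rw [← Matrix.mulVec_mulVec, Matrix.dotProduct_mulVec, Matrix.vecMul_conjTranspose, star_star]
  simp only [dotProduct, Pi.star_apply]
  push_cast
  refine Finset.sum_congr rfl fun i _ => ?_
  rw [Complex.star_def, ← Complex.normSq_eq_conj_mul_self, Complex.normSq_eq_norm_sq]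
  push_cast
  rfl

lemma posSemidef_one_sub_iff (M : Matrix m n ℂ) : (1 - Mᴴ * M).PosSemidef ↔ ‖M‖ ≤ 1 := by
  constructor
  · intro h
    rw [Matrix.l2_opNorm_def]
    refine ContinuousLinearMap.opNorm_le_bound _ zero_le_one fun x => ?_
    rw [one_mul]
    have h1 := h.dotProduct_mulVec_nonneg x.ofLp
    rw [Matrix.sub_mulVec, Matrix.one_mulVec, dotProduct_sub, ← norm_mulVec_sq] at h1
    have h2 : star x.ofLp ⬝ᵥ x.ofLp = ((‖x‖ ^ 2 : ℝ) : ℂ) := by
      rw [EuclideanSpace.norm_sq_eq]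
      simp only [dotProduct, Pi.star_apply]
      push_cast
      refine Finset.sum_congr rfl fun i _ => ?_
      rw [Complex.star_def, ← Complex.normSq_eq_conj_mul_self, Complex.normSq_eq_norm_sq]
      push_cast
      rfl
    rw [h2, ← Complex.ofReal_sub] at h1
    have h3 : (0:ℝ) ≤ ‖x‖ ^ 2 - ∑ i, ‖(M *ᵥ x.ofLp) i‖ ^ 2 := by exact_mod_cast h1
    have h4 : ‖(((Matrix.toEuclideanLin (𝕜 := ℂ) (m := m) (n := n)).trans
        LinearMap.toContinuousLinearMap) M) x‖ ^ 2 = ∑ i, ‖(M *ᵥ x.ofLp) i‖ ^ 2 := by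
      rw [EuclideanSpace.norm_sq_eq]
      rfl
    have h5 := norm_nonneg ((((Matrix.toEuclideanLin (𝕜 := ℂ) (m := m) (n := n)).trans
        LinearMap.toContinuousLinearMap) M) x)
    have h6 := norm_nonneg x
    nlinarith
  · intro h
    refine Matrix.PosSemidef.of_dotProduct_mulVec_nonneg ?_ fun x => ?_
    · exact (Matrix.isHermitian_one).sub (Matrix.isHermitian_conjTranspose_mul_self M)
    · rw [Matrix.sub_mulVec, Matrix.one_mulVec, dotProduct_sub, ← norm_mulVec_sq]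
      have h2 : star x ⬝ᵥ x = ((‖(WithLp.toLp 2 x : EuclideanSpace ℂ n)‖ ^ 2 : ℝ) : ℂ) := by
        rw [EuclideanSpace.norm_sq_eq]
        simp only [dotProduct, Pi.star_apply]
        push_cast
        refine Finset.sum_congr rfl fun i _ => ?_
        rw [Complex.star_def, ← Complex.normSq_eq_conj_mul_self, Complex.normSq_eq_norm_sq]
        push_cast
        rfl
      rw [h2, ← Complex.ofReal_sub]
      have h3 := Matrix.l2_opNorm_mulVec M (WithLp.toLp 2 x : EuclideanSpace ℂ n)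
      have h4 : ‖(EuclideanSpace.equiv m ℂ).symm (M *ᵥ x)‖ ^ 2 = ∑ i, ‖(M *ᵥ x) i‖ ^ 2 := by
        rw [EuclideanSpace.norm_sq_eq]
        rfl
      have h5 := norm_nonneg (WithLp.toLp 2 x : EuclideanSpace ℂ n)
      have h6 := norm_nonneg ((EuclideanSpace.equiv m ℂ).symm (M *ᵥ x))
      have h7 : ‖(EuclideanSpace.equiv m ℂ).symm (M *ᵥ x)‖ ≤ ‖(WithLp.toLp 2 x : EuclideanSpace ℂ n)‖ := by
        refine h3.trans ?_
        nlinarith
      have h8 : (0:ℝ) ≤ ‖(WithLp.toLp 2 x : EuclideanSpace ℂ n)‖ ^ 2 - ∑ i, ‖(M *ᵥ x) i‖ ^ 2 := by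
        rw [← h4]
        nlinarith
      exact_mod_cast h8

lemma posSemidef_of_quad (C : Matrix m m ℂ) (h : ∀ x : m → ℂ, 0 ≤ star x ⬝ᵥ (C *ᵥ x)) :
    C.PosSemidef := by
  rw [← Matrix.isPositive_toEuclideanLin_iff, LinearMap.isPositive_iff_complex]
  intro x
  have h1 : inner ℂ (C.toEuclideanLin x) x = star (star x.ofLp ⬝ᵥ (C *ᵥ x.ofLp)) := by
    rw [EuclideanSpace.inner_eq_star_dotProduct, ← Matrix.star_dotProduct_star, star_star,
      dotProduct_comm]
    rfl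
  have h2 := h x.ofLp
  rw [h1]
  rw [Complex.le_def] at h2
  obtain ⟨h3, h4⟩ := h2
  simp only [Complex.zero_re, Complex.zero_im] at h3 h4
  constructor
  · apply Complex.ext
    · simp
    · simp [← h4]
  · simpa using h3

end Pool.Agent.MP_162c54_lc
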