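import Pool.Agent.MP_162c54_lc.Defs
import Pool.Agent.MP_162c54_lc.HS

set_option autoImplicit false
set_option linter.unusedSectionVars false
open scoped ComplexOrder Matrix.Norms.L2Operator
open Matrix

namespace Pool.Agent.MP_162c54_lc

universe w

section SOS

variable {A : Type*} [NonUnitalCStarAlgebra A]

lemma exists_star_mul_self_sum {ι : Type*} (s : Finset ι) (f : ι → A)
    (hf : ∀ i ∈ s, ∃ t, f i = star t * t) : ∃ t, ∑ i ∈ s, f i = star t * t := by
  let _ := CStarAlgebra.spectralOrder A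
  let _ := CStarAlgebra.spectralOrderedRing A
  rw [← CStarAlgebra.nonneg_iff_eq_star_mul_self]
  refine Finset.sum_nonneg fun i hi => ?_
  rw [CStarAlgebra.nonneg_iff_eq_star_mul_self]
  exact hf i hi

/-- complete positivity in the form used by `IsNuclear` -/
def CP {J : Type*} [Fintype J] (ψ : Matrix J J ℂ → A) : Prop :=
  ∀ (m : ℕ) (Y : Fin m → Matrix J J ℂ) (y : Fin m → A),
    ∃ s : A, ∑ i, ∑ j, star (y i) * ψ (star (Y i) * Y j) * y j = star s * s

lemma cp_sum {J ι : Type*} [Fintype J] (s : Finset ι) (ψ : ι → Matrix J J ℂ → A)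
    (h : ∀ i ∈ s, CP (ψ i)) : CP (fun T => ∑ i ∈ s, ψ i T) := by
  intro m Y y
  have h1 : ∑ i, ∑ j, star (y i) * (∑ r ∈ s, ψ r (star (Y i) * Y j)) * y j
      = ∑ r ∈ s, ∑ i, ∑ j, star (y i) * ψ r (star (Y i) * Y j) * y j := by
    symm
    rw [Finset.sum_comm]
    refine Finset.sum_congr rfl fun i _ => ?_
    rw [Finset.sum_comm]
    refine Finset.sum_congr rfl fun j _ => ?_
    rw [Finset.mul_sum, Finset.sum_mul]
  show ∃ t : A, ∑ i, ∑ j, star (y i) * (∑ r ∈ s, ψ r (star (Y i) * Y j)) * y j = star t * t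
  rw [h1]
  exact exists_star_mul_self_sum s _ fun r hr => h r hr m Y y

/-- a map with a Kraus type decomposition is completely positive -/
lemma cp_of_kraus {J ι : Type*} [Fintype J] (s : Finset ι) (ψ : Matrix J J ℂ → A)
    (V : ι → Matrix J J ℂ → A)
    (h : ∀ Y Y', ψ (star Y * Y') = ∑ r ∈ s, star (V r Y) * V r Y') : CP ψ := by
  intro m Y y
  have h1 : ∑ i, ∑ j, star (y i) * ψ (star (Y i) * Y j) * y j
      = ∑ r ∈ s, star (∑ i, V r (Y i) * y i) * (∑ j, V r (Y j) * y j) := by
    simp only [h]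
    calc ∑ i, ∑ j, star (y i) * (∑ r ∈ s, star (V r (Y i)) * V r (Y j)) * y j
        = ∑ i, ∑ j, ∑ r ∈ s, (star (y i) * star (V r (Y i))) * (V r (Y j) * y j) := by
          refine Finset.sum_congr rfl fun i _ => Finset.sum_congr rfl fun j _ => ?_
          rw [Finset.mul_sum, Finset.sum_mul]
          exact Finset.sum_congr rfl fun r _ => by simp only [mul_assoc]
      _ = ∑ r ∈ s, ∑ i, ∑ j, (star (y i) * star (V r (Y i))) * (V r (Y j) * y j) := by
          rw [Finset.sum_comm]
          simp only [Finset.sum_comm (s := (Finset.univ : Finset (Fin m))) (t := s)]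
          refine Finset.sum_congr rfl fun r _ => ?_
          rw [Finset.sum_comm]
      _ = _ := by
          refine Finset.sum_congr rfl fun r _ => ?_
          rw [star_sum, Finset.sum_mul_sum]
          refine Finset.sum_congr rfl fun i _ => Finset.sum_congr rfl fun j _ => ?_
          rw [star_mul]
  rw [h1]
  exact exists_star_mul_self_sum s _ fun r _ => ⟨_, rfl⟩

end SOS

/-- A criterion for nuclearity, with arbitrary finite index types and a *-homomorphism as first
map. -/
theorem isNuclear_of_model {A : Type*} [NonUnitalCStarAlgebra A]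
    (H : ∀ (F : Finset A) (ε : ℝ), 0 < ε → ∃ (J : Type w) (_ : Fintype J) (_ : DecidableEq J)
      (φ : A →⋆ₙₐ[ℂ] Matrix J J ℂ) (ψ : Matrix J J ℂ →ₗ[ℂ] A), CP ψ ∧
      (∀ M : Matrix J J ℂ, ‖M‖ ≤ 1 → ‖ψ M‖ ≤ 1) ∧ ∀ a ∈ F, ‖ψ (φ a) - a‖ < ε) :
    IsNuclear A := by
  intro F ε hε
  obtain ⟨J, _, _, φ, ψ, hψ, hψ1, happ⟩ := H F ε hε
  set e : Fin (Fintype.card J) ≃ J := (Fintype.equivFin J).symm with he
  have hsub : ∀ M N : Matrix J J ℂ, (star M * N).submatrix e e
      = star (M.submatrix e e) * N.submatrix e e := by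
    intro M N
    rw [← Matrix.submatrix_mul_equiv _ _ _ e]
    rfl
  have hsub' : ∀ M N : Matrix (Fin (Fintype.card J)) (Fin (Fintype.card J)) ℂ,
      (star M * N).submatrix e.symm e.symm
      = star (M.submatrix e.symm e.symm) * N.submatrix e.symm e.symm := by
    intro M N
    rw [← Matrix.submatrix_mul_equiv _ _ _ e.symm]
    rfl
  refine ⟨Fintype.card J,
    { toFun := fun a => (φ a).submatrix e e
      map_add' := fun a b => by rw [map_add]; rfl
      map_smul' := fun c a => by rw [map_smul]; rfl },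
    { toFun := fun M => ψ (M.submatrix e.symm e.symm)
      map_add' := fun a b => by rw [← map_add]; rfl
      map_smul' := fun c a => by rw [← map_smul]; rfl }, ?_, ?_, ?_, ?_, ?_⟩
  · intro m x
    have h1 : (Matrix.of (fun p q : Fin m × Fin (Fintype.card J) =>
        (φ (star (x p.1) * x q.1)).submatrix e e p.2 q.2))
        = (Matrix.of (fun (c : J) (p : Fin m × Fin (Fintype.card J)) => φ (x p.1) c (e p.2)))ᴴ
          * (Matrix.of (fun (c : J) (p : Fin m × Fin (Fintype.card J)) => φ (x p.1) c (e p.2))) := by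
      ext p q
      rw [Matrix.of_apply, Matrix.submatrix_apply, map_mul, map_star, Matrix.mul_apply,
        Matrix.mul_apply]
      rfl
    show (Matrix.of (fun p q : Fin m × Fin (Fintype.card J) =>
        (φ (star (x p.1) * x q.1)).submatrix e e p.2 q.2)).PosSemidef
    rw [h1]
    exact Matrix.posSemidef_conjTranspose_mul_self _
  · intro m Y y
    obtain ⟨s, hs⟩ := hψ m (fun i => (Y i).submatrix e.symm e.symm) y
    refine ⟨s, ?_⟩
    rw [← hs]
    refine Finset.sum_congr rfl fun i _ => Finset.sum_congr rfl fun j _ => ?_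
    show star (y i) * ψ ((star (Y i) * Y j).submatrix e.symm e.symm) * y j = _
    rw [hsub']
  · intro a ha
    show (1 - star ((φ a).submatrix e e) * (φ a).submatrix e e).PosSemidef
    rw [← hsub]
    have h1 : (1 : Matrix (Fin (Fintype.card J)) (Fin (Fintype.card J)) ℂ)
        = (1 : Matrix J J ℂ).submatrix e e := by simp
    rw [h1]
    have h2 : (1 - star (φ a) * φ a).PosSemidef :=
      (posSemidef_one_sub_iff _).2 ((NonUnitalStarAlgHom.norm_apply_le φ a).trans ha)
    exact h2.submatrix e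
  · intro M hM
    show ‖ψ (M.submatrix e.symm e.symm)‖ ≤ 1
    apply hψ1
    rw [← posSemidef_one_sub_iff, ← Matrix.star_eq_conjTranspose, ← hsub']
    have h1 : (1 : Matrix J J ℂ)
        = (1 : Matrix (Fin (Fintype.card J)) (Fin (Fintype.card J)) ℂ).submatrix e.symm e.symm := by
      simp
    rw [h1]
    exact hM.submatrix e.symm
  · intro a ha
    show ‖ψ (((φ a).submatrix e e).submatrix e.symm e.symm) - a‖ < ε
    have h1 : ((φ a).submatrix e e).submatrix e.symm e.symm = φ a := by
      ext i j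
      simp
    rw [h1]
    exact happ a ha

end Pool.Agent.MP_162c54_lc
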