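import Pool.Agent.MP_162c54_lc.Dens
import Pool.Agent.MP_162c54_lc.Model

set_option autoImplicit false
set_option linter.unusedSectionVars false
open scoped ComplexOrder Matrix.Norms.L2Operator ENNReal
open Matrix Cardinal

namespace Pool.Agent.MP_162c54_lc

universe u

section

variable {I : Type u} {X : Type} [LinearOrder X] (ev : I → X)

/-- bounded functions on `I` -/
abbrev CAmb (I : Type u) : Type u := lp (fun _ : I => ℂ) ∞

lemma camb_ext {x y : CAmb I} (h : ∀ i, x i = y i) : x = y := lp.ext (funext h)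

/-- a bounded function as an element of the algebra -/
noncomputable def mkC (f : I → ℂ) (C : ℝ) (hf : ∀ i, ‖f i‖ ≤ C) : CAmb I :=
  ⟨f, memℓp_infty ⟨C, by rintro _ ⟨i, rfl⟩; exact hf i⟩⟩

@[simp] lemma mkC_apply (f : I → ℂ) (C : ℝ) (hf : ∀ i, ‖f i‖ ≤ C) (i : I) :
    (mkC f C hf : I → ℂ) i = f i := rfl

/-- functions which only depend on the position relative to the finite set `S`, and vanish above
`S` -/
def Simple (S : Finset I) (x : CAmb I) : Prop :=
  (∀ i j, (∀ l ∈ S, (ev i ≤ ev l ↔ ev j ≤ ev l)) → x i = x j) ∧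
  ∀ i, (∀ l ∈ S, ¬ ev i ≤ ev l) → x i = 0

variable {ev}

lemma Simple.mono {S S' : Finset I} {x : CAmb I} (hx : Simple ev S x) (h : S ⊆ S') :
    Simple ev S' x :=
  ⟨fun i j hij => hx.1 i j fun l hl => hij l (h hl), fun i hi => hx.2 i fun l hl => hi l (h hl)⟩

lemma Simple.add {S : Finset I} {x y : CAmb I} (hx : Simple ev S x) (hy : Simple ev S y) :
    Simple ev S (x + y) := by
  refine ⟨fun i j hij => ?_, fun i hi => ?_⟩
  · rw [lp.coeFn_add, Pi.add_apply, Pi.add_apply, hx.1 i j hij, hy.1 i j hij]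
  · rw [lp.coeFn_add, Pi.add_apply, hx.2 i hi, hy.2 i hi, add_zero]

lemma Simple.zero {S : Finset I} : Simple ev S (0 : CAmb I) :=
  ⟨fun _ _ _ => rfl, fun _ _ => rfl⟩

lemma Simple.smul {S : Finset I} {x : CAmb I} (c : ℂ) (hx : Simple ev S x) :
    Simple ev S (c • x) := by
  refine ⟨fun i j hij => ?_, fun i hi => ?_⟩
  · rw [lp.coeFn_smul, Pi.smul_apply, Pi.smul_apply, hx.1 i j hij]
  · rw [lp.coeFn_smul, Pi.smul_apply, hx.2 i hi, smul_zero]

lemma Simple.mul {S : Finset I} {x y : CAmb I} (hx : Simple ev S x) (hy : Simple ev S y) :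
    Simple ev S (x * y) := by
  refine ⟨fun i j hij => ?_, fun i hi => ?_⟩
  · rw [lp.infty_coeFn_mul, Pi.mul_apply, Pi.mul_apply, hx.1 i j hij, hy.1 i j hij]
  · rw [lp.infty_coeFn_mul, Pi.mul_apply, hx.2 i hi, zero_mul]

lemma Simple.star {S : Finset I} {x : CAmb I} (hx : Simple ev S x) : Simple ev S (star x) := by
  refine ⟨fun i j hij => ?_, fun i hi => ?_⟩
  · rw [lp.coeFn_star, Pi.star_apply, Pi.star_apply, hx.1 i j hij]
  · rw [lp.coeFn_star, Pi.star_apply, hx.2 i hi, star_zero]

variable (ev)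

/-- the dense *-subalgebra -/
noncomputable def C0 : NonUnitalStarSubalgebra ℂ (CAmb I) where
  carrier := {x | ∃ S, Simple ev S x}
  add_mem' := by
    classical
    rintro x y ⟨S, hx⟩ ⟨S', hy⟩
    exact ⟨S ∪ S', (hx.mono Finset.subset_union_left).add (hy.mono Finset.subset_union_right)⟩
  zero_mem' := ⟨∅, Simple.zero⟩
  mul_mem' := by
    classical
    rintro x y ⟨S, hx⟩ ⟨S', hy⟩
    exact ⟨S ∪ S', (hx.mono Finset.subset_union_left).mul (hy.mono Finset.subset_union_right)⟩
  smul_mem' := by
    rintro c x ⟨S, hx⟩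
    exact ⟨S, hx.smul c⟩
  star_mem' := by
    rintro x ⟨S, hx⟩
    exact ⟨S, hx.star⟩

/-- the commutative C*-algebra of a family of points of a linear order: the norm closure of the
*-algebra spanned by the indicator functions of initial segments -/
noncomputable def CS : NonUnitalStarSubalgebra ℂ (CAmb I) := (C0 ev).topologicalClosure

instance CS_closed : IsClosed ((CS ev : Set (CAmb I))) := (C0 ev).isClosed_topologicalClosure

/-- the same, as a type -/
def CC : Type u := CS ev

noncomputable instance : NonUnitalCStarAlgebra (CC ev) :=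
  NonUnitalStarSubalgebra.nonUnitalCStarAlgebra (CS ev)

variable {ev}

/-- the underlying bounded function -/
def CC.val (a : CC ev) : CAmb I := Subtype.val a

variable (ev) in
/-- constructor -/
def CC.mk (x : CAmb I) (hx : x ∈ CS ev) : CC ev := ⟨x, hx⟩

lemma CC.ext {a b : CC ev} (h : a.val = b.val) : a = b := Subtype.ext h

lemma CC.ext' {a b : CC ev} (h : ∀ i, a.val i = b.val i) : a = b := CC.ext (camb_ext h)

lemma CC.mem (a : CC ev) : a.val ∈ CS ev := a.2

lemma CC.norm_val (a : CC ev) : ‖a.val‖ = ‖a‖ := rfl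

lemma CC.mul_comm (a b : CC ev) : a * b = b * a :=
  CC.ext' fun i => by
    show (a.val * b.val : CAmb I) i = (b.val * a.val : CAmb I) i
    rw [lp.infty_coeFn_mul, lp.infty_coeFn_mul, Pi.mul_apply, Pi.mul_apply, _root_.mul_comm]

variable (ev)

lemma C0_le : C0 ev ≤ CS ev := (C0 ev).le_topologicalClosure

/-- evaluation at a point -/
noncomputable def evC (i : I) : CC ev →ₗ[ℂ] ℂ where
  toFun a := a.val i
  map_add' a b := by
    show (a.val + b.val : CAmb I) i = _
    rw [lp.coeFn_add, Pi.add_apply]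
  map_smul' c a := by
    show (c • a.val : CAmb I) i = _
    rw [lp.coeFn_smul, Pi.smul_apply]
    rfl

open Classical in
/-- the indicator function of the initial segment -/
noncomputable def pc (l : I) : CC ev :=
  CC.mk ev (mkC (fun i => if ev i ≤ ev l then 1 else 0) 1 (by
    intro i
    split_ifs <;> simp)) (C0_le ev ⟨{l}, by
      constructor
      · intro i j hij
        have := hij l (Finset.mem_singleton_self l)
        show (if ev i ≤ ev l then (1 : ℂ) else 0) = if ev j ≤ ev l then (1 : ℂ) else 0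
        rw [if_congr this rfl rfl]
      · intro i hi
        show (if ev i ≤ ev l then (1 : ℂ) else 0) = 0
        exact if_neg (hi l (Finset.mem_singleton_self l))⟩)

open Classical in
lemma pc_val (l i : I) : (pc ev l).val i = if ev i ≤ ev l then (1 : ℂ) else 0 := rfl

lemma pc_star (l : I) : star (pc ev l) = pc ev l := by
  classical
  refine CC.ext' fun i => ?_
  show (star (pc ev l).val : CAmb I) i = _
  rw [lp.coeFn_star, Pi.star_apply, pc_val]
  split_ifs <;> simp

lemma CC.val_mul (a b : CC ev) (i : I) : (a * b).val i = a.val i * b.val i := by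
  show (a.val * b.val : CAmb I) i = _
  rw [lp.infty_coeFn_mul, Pi.mul_apply]

lemma CC.val_sub (a b : CC ev) (i : I) : (a - b).val i = a.val i - b.val i := by
  show (a.val - b.val : CAmb I) i = _
  rw [lp.coeFn_sub, Pi.sub_apply]

lemma pc_mul_of_le {l m : I} (h : ev m ≤ ev l) : pc ev m * pc ev l = pc ev m := by
  classical
  refine CC.ext' fun i => ?_
  rw [CC.val_mul, pc_val, pc_val]
  by_cases h1 : ev i ≤ ev m
  · rw [if_pos h1, if_pos (h1.trans h), mul_one]
  · rw [if_neg h1, zero_mul]

lemma pc_idem (l : I) : pc ev l * pc ev l = pc ev l := pc_mul_of_le ev le_rfl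

/-- `θ (p_m, p_l) = 1` for `m` above `l` -/
lemma one_le_norm {l m : I} (h : ev l < ev m) : 1 ≤ ‖pc ev m - pc ev m * pc ev l‖ := by
  classical
  have h1 : (pc ev m - pc ev m * pc ev l).val m = 1 := by
    rw [CC.val_sub, CC.val_mul, pc_val, pc_val, if_pos le_rfl, if_neg (not_le.2 h)]
    ring
  calc (1 : ℝ) = ‖((pc ev m - pc ev m * pc ev l).val m : ℂ)‖ := by rw [h1, norm_one]
    _ ≤ ‖(pc ev m - pc ev m * pc ev l).val‖ := lp.norm_apply_le_norm ENNReal.top_ne_zero _ m

/-- functions simple over `S` are spanned by the indicator functions -/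
lemma simple_span (D : AddSubgroup (CC ev)) (hD : ∀ (l : I) (c : ℂ), c • pc ev l ∈ D)
    (S : Finset I) : ∀ (x : CAmb I) (hx : Simple ev S x), CC.mk ev x (C0_le ev ⟨S, hx⟩) ∈ D := by
  classical
  induction hn : S.card generalizing S with
  | zero =>
    intro x hx
    rw [Finset.card_eq_zero] at hn
    subst hn
    have : CC.mk ev x (C0_le ev ⟨∅, hx⟩) = 0 := by
      refine CC.ext' fun i => ?_
      show x i = 0
      exact hx.2 i fun l hl => absurd hl (Finset.notMem_empty l)
    rw [this]
    exact D.zero_mem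
  | succ n ih =>
    intro x hx
    have hne : S.Nonempty := by rw [← Finset.card_pos]; omega
    obtain ⟨l0, hl0, hmax⟩ := Finset.exists_max_image S ev hne
    have hy : Simple ev (S.erase l0) (x - x l0 • (pc ev l0).val) := by
      have hval : ∀ i, (x - x l0 • (pc ev l0).val : CAmb I) i
          = x i - x l0 * (if ev i ≤ ev l0 then 1 else 0) := by
        intro i
        rw [lp.coeFn_sub, Pi.sub_apply, lp.coeFn_smul, Pi.smul_apply, pc_val, smul_eq_mul]
      -- points in the last interval
      have hlast : ∀ i, ev i ≤ ev l0 → (∀ l ∈ S.erase l0, ¬ ev i ≤ ev l) → x i = x l0 := by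
        intro i hi hl
        refine hx.1 i l0 fun l hlS => ?_
        by_cases hll : l = l0
        · rw [hll]; exact ⟨fun _ => le_rfl, fun _ => hi⟩
        · have h1 := hl l (Finset.mem_erase.2 ⟨hll, hlS⟩)
          exact ⟨fun h => absurd h h1, fun h => absurd (hi.trans h) h1⟩
      have hzero : ∀ i, (∀ l ∈ S.erase l0, ¬ ev i ≤ ev l) →
          (x - x l0 • (pc ev l0).val : CAmb I) i = 0 := by
        intro i hi
        rw [hval]
        by_cases h : ev i ≤ ev l0
        · rw [if_pos h, hlast i h hi, mul_one, sub_self]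
        · rw [if_neg h, mul_zero, sub_zero]
          refine hx.2 i fun l hl => ?_
          by_cases hll : l = l0
          · rw [hll]; exact h
          · exact hi l (Finset.mem_erase.2 ⟨hll, hl⟩)
      refine ⟨fun i j hij => ?_, hzero⟩
      by_cases hi : ∀ l ∈ S.erase l0, ¬ ev i ≤ ev l
      · rw [hzero i hi, hzero j fun l hl h => hi l hl ((hij l hl).2 h)]
      · push Not at hi
        obtain ⟨l, hl, hil⟩ := hi
        have hl' := Finset.mem_erase.1 hl
        have h1 : ev i ≤ ev l0 := hil.trans (hmax l hl'.2)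
        have h2 : ev j ≤ ev l0 := ((hij l hl).1 hil).trans (hmax l hl'.2)
        rw [hval, hval, if_pos h1, if_pos h2]
        congr 1
        refine hx.1 i j fun l' hl' => ?_
        by_cases hll : l' = l0
        · rw [hll]; exact ⟨fun _ => h2, fun _ => h1⟩
        · exact hij l' (Finset.mem_erase.2 ⟨hll, hl'⟩)
    have h1 := ih (S.erase l0) (by rw [Finset.card_erase_of_mem hl0]; omega) _ hy
    have h2 : CC.mk ev x (C0_le ev ⟨S, hx⟩)
        = CC.mk ev _ (C0_le ev ⟨S.erase l0, hy⟩) + x l0 • pc ev l0 := by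
      refine CC.ext ?_
      show x = (x - x l0 • (pc ev l0).val) + x l0 • (pc ev l0).val
      rw [sub_add_cancel]
    rw [h2]
    exact D.add_mem h1 (hD _ _)

/-- density -/
theorem CC_dens [Infinite I] : ∃ D : Set (CC ev), Dense D ∧ #D ≤ #I := by
  obtain ⟨D, ⟨f, hf⟩, hD⟩ := exists_dense_group (pc ev)
  refine ⟨D, ?_, ?_⟩
  · intro a
    rw [← closure_closure, Metric.mem_closure_iff]
    intro ε hε
    have ha : a.val ∈ closure (C0 ev : Set (CAmb I)) := a.mem
    obtain ⟨x, ⟨S, hx⟩, hxa⟩ := Metric.mem_closure_iff.1 ha ε hε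
    exact ⟨CC.mk ev x (C0_le ev ⟨S, hx⟩), simple_span ev D.topologicalClosure hD S x hx, hxa⟩
  · rw [hf]
    refine (Cardinal.mk_range_le).trans ?_
    rw [Cardinal.mk_finsupp_lift_of_infinite]
    refine max_le ?_ ?_
    · rw [Cardinal.lift_uzero]
    · have h1 : Cardinal.lift.{u} #(ℚ × ℚ) ≤ ℵ₀ := by
        rw [Cardinal.lift_le_aleph0]
        exact Cardinal.mk_le_aleph0
      exact h1.trans (Cardinal.infinite_iff.1 inferInstance)

end

end Pool.Agent.MP_162c54_lc
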