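import Mathlib

set_option autoImplicit false
set_option linter.unusedSectionVars false
set_option linter.unusedSimpArgs false

namespace Pool.Agent.MP_162c54_lc

/-- Transport of mass along an almost invariant permutation. -/
lemma push_mass {X : Type*} [Fintype X] (m : X → ℝ) (V : ℝ) (hV : ∑ v, m v ^ 2 = V)
    (σ : Equiv.Perm X) (hσ : ∑ v, (m (σ v) - m v) ^ 2 ≤ V / 100) (p q : X → Prop)
    [DecidablePred p] [DecidablePred q] (h : ∀ v, p v → q (σ v)) :
    ∑ v, (if p v then m v ^ 2 else 0) ≤ ∑ v, (if q v then m v ^ 2 else 0) + V / 5 := by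
  have hV' : ∑ v, m (σ v) ^ 2 = V := by
    rw [← hV]; exact Equiv.sum_comp σ (fun v => m v ^ 2)
  have h1 : ∑ v, (if q v then m v ^ 2 else 0) = ∑ v, (if q (σ v) then m (σ v) ^ 2 else 0) :=
    (Equiv.sum_comp σ (fun v => if q v then m v ^ 2 else 0)).symm
  rw [h1]
  have h2 : ∀ v, (if p v then m v ^ 2 else 0) ≤ (if q (σ v) then m (σ v) ^ 2 else 0)
      + (10 * (m (σ v) - m v) ^ 2 + (m (σ v) + m v) ^ 2 / 40) := by
    intro v
    have h3 : m v ^ 2 ≤ m (σ v) ^ 2 + (10 * (m (σ v) - m v) ^ 2 + (m (σ v) + m v) ^ 2 / 40) := by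
      nlinarith [sq_nonneg (20 * (m (σ v) - m v) + (m (σ v) + m v))]
    by_cases hp : p v
    · simp only [hp, h v hp, if_true]
      exact h3
    · simp only [hp, if_false]
      have : (0:ℝ) ≤ (if q (σ v) then m (σ v) ^ 2 else 0) := by split_ifs <;> positivity
      positivity
  calc ∑ v, (if p v then m v ^ 2 else 0)
      ≤ ∑ v, ((if q (σ v) then m (σ v) ^ 2 else 0)
        + (10 * (m (σ v) - m v) ^ 2 + (m (σ v) + m v) ^ 2 / 40)) :=
        Finset.sum_le_sum fun v _ => h2 v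
    _ = ∑ v, (if q (σ v) then m (σ v) ^ 2 else 0) + (10 * ∑ v, (m (σ v) - m v) ^ 2
        + (∑ v, (m (σ v) + m v) ^ 2) / 40) := by
        rw [Finset.sum_add_distrib, Finset.sum_add_distrib, Finset.mul_sum, Finset.sum_div]
    _ ≤ ∑ v, (if q (σ v) then m (σ v) ^ 2 else 0) + V / 5 := by
        have h4 : ∑ v, (m (σ v) + m v) ^ 2 ≤ 4 * V := by
          calc ∑ v, (m (σ v) + m v) ^ 2 ≤ ∑ v, (2 * m (σ v) ^ 2 + 2 * m v ^ 2) :=
                Finset.sum_le_sum fun v _ => by nlinarith [sq_nonneg (m (σ v) - m v)]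
            _ = 4 * V := by
                rw [Finset.sum_add_distrib, ← Finset.mul_sum, ← Finset.mul_sum, hV, hV']; ring
        linarith

/-- the four cones -/
def cP (A B : ℤ) : Prop := (0 < A ∧ 0 ≤ B) ∨ (A < 0 ∧ B ≤ 0)
def cN (A B : ℤ) : Prop := (0 < B ∧ A ≤ 0) ∨ (B < 0 ∧ 0 ≤ A)

lemma cone_ineq (k : ℕ) [NeZero k] (m : ZMod k × ZMod k → ℝ) (V : ℝ)
    (h0 : m (0, 0) = 0) (hV : ∑ v, m v ^ 2 = V)
    (h1 : ∑ v : ZMod k × ZMod k, (if (k : ℤ) ≤ 6 * |v.1.valMinAbs| then m v ^ 2 else 0) ≤ V / 100)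
    (h2 : ∑ v : ZMod k × ZMod k, (if (k : ℤ) ≤ 6 * |v.2.valMinAbs| then m v ^ 2 else 0) ≤ V / 100)
    (h3 : ∑ v : ZMod k × ZMod k, (m (v.1, v.2 + 2 * v.1) - m v) ^ 2 ≤ V / 100)
    (h4 : ∑ v : ZMod k × ZMod k, (m (v.1 + 2 * v.2, v.2) - m v) ^ 2 ≤ V / 100) : V = 0 := by
  classical
  have hV0 : 0 ≤ V := hV ▸ Finset.sum_nonneg fun _ _ => sq_nonneg _
  let σ : Equiv.Perm (ZMod k × ZMod k) :=
    { toFun := fun v => (v.1, v.2 + 2 * v.1)
      invFun := fun v => (v.1, v.2 - 2 * v.1)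
      left_inv := fun v => by ext <;> simp
      right_inv := fun v => by ext <;> simp }
  let τ : Equiv.Perm (ZMod k × ZMod k) :=
    { toFun := fun v => (v.1 + 2 * v.2, v.2)
      invFun := fun v => (v.1 - 2 * v.2, v.2)
      left_inv := fun v => by ext <;> simp
      right_inv := fun v => by ext <;> simp }
  have hσ : ∑ v, (m (σ v) - m v) ^ 2 ≤ V / 100 := h3
  have hτ : ∑ v, (m (τ v) - m v) ^ 2 ≤ V / 100 := h4
  have hσ' : ∑ v, (m (σ.symm v) - m v) ^ 2 ≤ V / 100 := by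
    rw [← Equiv.sum_comp σ]
    refine le_trans (le_of_eq ?_) hσ
    refine Finset.sum_congr rfl fun v _ => ?_
    rw [Equiv.symm_apply_apply]; ring
  have hτ' : ∑ v, (m (τ.symm v) - m v) ^ 2 ≤ V / 100 := by
    rw [← Equiv.sum_comp τ]
    refine le_trans (le_of_eq ?_) hτ
    refine Finset.sum_congr rfl fun v _ => ?_
    rw [Equiv.symm_apply_apply]; ring
  -- region without wrap around
  let Om : ZMod k × ZMod k → Prop := fun v => 6 * |v.1.valMinAbs| < k ∧ 6 * |v.2.valMinAbs| < k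
  let P : ZMod k × ZMod k → Prop := fun v => cP v.1.valMinAbs v.2.valMinAbs
  let N : ZMod k × ZMod k → Prop := fun v => cN v.1.valMinAbs v.2.valMinAbs
  let R1 : ZMod k × ZMod k → Prop := fun v => P v ∧ |v.2.valMinAbs| < |v.1.valMinAbs|
  let R2 : ZMod k × ZMod k → Prop := fun v => P v ∧ ¬ |v.2.valMinAbs| < |v.1.valMinAbs|
  let R3 : ZMod k × ZMod k → Prop := fun v => N v ∧ |v.1.valMinAbs| < |v.2.valMinAbs|
  let R4 : ZMod k × ZMod k → Prop := fun v => N v ∧ ¬ |v.1.valMinAbs| < |v.2.valMinAbs|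
  have bd : ∀ A : ℤ, 6 * |A| < k → -(k:ℤ) < 6 * A ∧ 6 * A < k := by
    intro A hA
    rcases abs_cases A with ⟨h, _⟩ | ⟨h, _⟩ <;> constructor <;> omega
  have key : ∀ (a b : ZMod k), 6 * |a.valMinAbs| < k → 6 * |b.valMinAbs| < k →
      (a + 2 * b).valMinAbs = a.valMinAbs + 2 * b.valMinAbs := by
    intro a b ha hb
    have := bd _ ha
    have := bd _ hb
    rw [ZMod.valMinAbs_spec]
    constructor
    · push_cast [ZMod.coe_valMinAbs]; ring
    · constructor <;> omega
  have key' : ∀ (a b : ZMod k), 6 * |a.valMinAbs| < k → 6 * |b.valMinAbs| < k →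
      (a - 2 * b).valMinAbs = a.valMinAbs - 2 * b.valMinAbs := by
    intro a b ha hb
    have := bd _ ha
    have := bd _ hb
    rw [ZMod.valMinAbs_spec]
    constructor
    · push_cast [ZMod.coe_valMinAbs]; ring
    · constructor <;> omega
  have e1 := push_mass m V hV σ hσ (fun v => P v ∧ Om v) R2 (by
    rintro ⟨a, b⟩ ⟨hP, ha, hb⟩
    show cP a.valMinAbs (b + 2 * a).valMinAbs ∧ ¬ |(b + 2 * a).valMinAbs| < |a.valMinAbs|
    rw [key b a hb ha]
    have hP' : cP a.valMinAbs b.valMinAbs := hP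
    unfold cP at hP' ⊢
    rcases abs_cases a.valMinAbs with ⟨h, _⟩ | ⟨h, _⟩ <;>
    rcases abs_cases (b.valMinAbs + 2 * a.valMinAbs) with ⟨h', _⟩ | ⟨h', _⟩ <;>
    rw [h, h'] <;> omega)
  have e2 := push_mass m V hV τ hτ (fun v => P v ∧ Om v) R1 (by
    rintro ⟨a, b⟩ ⟨hP, ha, hb⟩
    show cP (a + 2 * b).valMinAbs b.valMinAbs ∧ |b.valMinAbs| < |(a + 2 * b).valMinAbs|
    rw [key a b ha hb]
    have hP' : cP a.valMinAbs b.valMinAbs := hP
    unfold cP at hP' ⊢
    rcases abs_cases b.valMinAbs with ⟨h, _⟩ | ⟨h, _⟩ <;>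
    rcases abs_cases (a.valMinAbs + 2 * b.valMinAbs) with ⟨h', _⟩ | ⟨h', _⟩ <;>
    rw [h, h'] <;> omega)
  have e3 := push_mass m V hV σ.symm hσ' (fun v => N v ∧ Om v) R3 (by
    rintro ⟨a, b⟩ ⟨hN, ha, hb⟩
    show cN a.valMinAbs (b - 2 * a).valMinAbs ∧ |a.valMinAbs| < |(b - 2 * a).valMinAbs|
    rw [key' b a hb ha]
    have hN' : cN a.valMinAbs b.valMinAbs := hN
    unfold cN at hN' ⊢
    rcases abs_cases a.valMinAbs with ⟨h, _⟩ | ⟨h, _⟩ <;>
    rcases abs_cases (b.valMinAbs - 2 * a.valMinAbs) with ⟨h', _⟩ | ⟨h', _⟩ <;>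
    rw [h, h'] <;> omega)
  have e4 := push_mass m V hV τ.symm hτ' (fun v => N v ∧ Om v) R4 (by
    rintro ⟨a, b⟩ ⟨hN, ha, hb⟩
    show cN (a - 2 * b).valMinAbs b.valMinAbs ∧ ¬ |(a - 2 * b).valMinAbs| < |b.valMinAbs|
    rw [key' a b ha hb]
    have hN' : cN a.valMinAbs b.valMinAbs := hN
    unfold cN at hN' ⊢
    rcases abs_cases b.valMinAbs with ⟨h, _⟩ | ⟨h, _⟩ <;>
    rcases abs_cases (a.valMinAbs - 2 * b.valMinAbs) with ⟨h', _⟩ | ⟨h', _⟩ <;>
    rw [h, h'] <;> omega)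
  -- bookkeeping
  have b1 : ∑ v, (if R1 v then m v ^ 2 else 0) + ∑ v, (if R2 v then m v ^ 2 else 0)
      = ∑ v, (if P v then m v ^ 2 else 0) := by
    rw [← Finset.sum_add_distrib]
    refine Finset.sum_congr rfl fun v _ => ?_
    show (if P v ∧ |v.2.valMinAbs| < |v.1.valMinAbs| then m v ^ 2 else 0)
      + (if P v ∧ ¬ |v.2.valMinAbs| < |v.1.valMinAbs| then m v ^ 2 else 0) = _
    by_cases h : P v <;> by_cases h' : |v.2.valMinAbs| < |v.1.valMinAbs| <;> simp [h, h']
  have b2 : ∑ v, (if R3 v then m v ^ 2 else 0) + ∑ v, (if R4 v then m v ^ 2 else 0)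
      = ∑ v, (if N v then m v ^ 2 else 0) := by
    rw [← Finset.sum_add_distrib]
    refine Finset.sum_congr rfl fun v _ => ?_
    show (if N v ∧ |v.1.valMinAbs| < |v.2.valMinAbs| then m v ^ 2 else 0)
      + (if N v ∧ ¬ |v.1.valMinAbs| < |v.2.valMinAbs| then m v ^ 2 else 0) = _
    by_cases h : N v <;> by_cases h' : |v.1.valMinAbs| < |v.2.valMinAbs| <;> simp [h, h']
  have b3 : V ≤ ∑ v, (if P v ∧ Om v then m v ^ 2 else 0) + ∑ v, (if N v ∧ Om v then m v ^ 2 else 0)
      + (∑ v, (if ¬ Om v then m v ^ 2 else 0)) := by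
    rw [← Finset.sum_add_distrib, ← Finset.sum_add_distrib, ← hV]
    refine Finset.sum_le_sum fun v _ => ?_
    by_cases hv : v = (0, 0)
    · rw [hv, h0]
      simp
    · have : P v ∨ N v := by
        by_contra hc
        push Not at hc
        obtain ⟨hc1, hc2⟩ := hc
        have hc1' : ¬ cP v.1.valMinAbs v.2.valMinAbs := hc1
        have hc2' : ¬ cN v.1.valMinAbs v.2.valMinAbs := hc2
        unfold cP at hc1'
        unfold cN at hc2'
        have h5 : v.1.valMinAbs = 0 := by omega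
        have h6 : v.2.valMinAbs = 0 := by omega
        rw [ZMod.valMinAbs_eq_zero] at h5 h6
        exact hv (Prod.ext h5 h6)
      have hsq : 0 ≤ m v ^ 2 := sq_nonneg _
      by_cases hO : Om v
      · rcases this with h | h
        · simp only [h, hO, and_self, if_true, not_true, if_false]
          split_ifs <;> linarith
        · simp only [h, hO, and_self, if_true, not_true, if_false]
          split_ifs <;> linarith
      · simp only [hO, and_false, if_false, not_false_iff, if_true]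
        linarith
  have b4 : ∑ v, (if P v then m v ^ 2 else 0) + ∑ v, (if N v then m v ^ 2 else 0)
      ≤ ∑ v, (if P v ∧ Om v then m v ^ 2 else 0) + ∑ v, (if N v ∧ Om v then m v ^ 2 else 0)
      + (∑ v, (if ¬ Om v then m v ^ 2 else 0)) := by
    rw [← Finset.sum_add_distrib, ← Finset.sum_add_distrib, ← Finset.sum_add_distrib]
    refine Finset.sum_le_sum fun v _ => ?_
    have hsq : 0 ≤ m v ^ 2 := sq_nonneg _
    have hdis : ¬ (P v ∧ N v) := by
      rintro ⟨h, h'⟩
      have h1 : cP v.1.valMinAbs v.2.valMinAbs := h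
      have h2 : cN v.1.valMinAbs v.2.valMinAbs := h'
      unfold cP at h1
      unfold cN at h2
      omega
    by_cases h : P v <;> by_cases h' : N v <;> by_cases hO : Om v
    all_goals first
      | (simp only [h, h', hO, and_self, and_true, and_false, true_and, false_and, if_true,
          if_false, not_true, not_false_iff]; linarith)
      | exact (hdis (And.intro h h')).elim
  have b5 : ∑ v, (if ¬ Om v then m v ^ 2 else 0) ≤ V / 100 + V / 100 := by
    refine le_trans ?_ (add_le_add h1 h2)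
    rw [← Finset.sum_add_distrib]
    refine Finset.sum_le_sum fun v _ => ?_
    have hsq : 0 ≤ m v ^ 2 := sq_nonneg _
    by_cases hO : Om v
    · simp only [hO, not_true, if_false]
      split_ifs <;> linarith
    · have : (k : ℤ) ≤ 6 * |v.1.valMinAbs| ∨ (k : ℤ) ≤ 6 * |v.2.valMinAbs| := by
        by_contra hc
        push Not at hc
        exact hO hc
      simp only [hO, not_false_iff, if_true]
      rcases this with h | h
      · simp only [h, if_true]
        split_ifs <;> linarith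
      · simp only [h, if_true]
        split_ifs <;> linarith
  linarith

end Pool.Agent.MP_162c54_lc
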