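import Pool.Agent.MP_162c54_lc.HS

set_option autoImplicit false
set_option linter.unusedSectionVars false
open scoped ComplexOrder Matrix.Norms.L2Operator
open Matrix

namespace Pool.Agent.MP_162c54_lc

variable {m n J : Type*} [Fintype m] [Fintype n] [Fintype J] [DecidableEq m] [DecidableEq n]

lemma trace_le_hs (V : Matrix m n ℂ) (w : Matrix n n ℂ) (T : Matrix m m ℂ)
    (hw' : w * wᴴ = 1) (hT : ‖T‖ ≤ 1) : ((wᴴ * (Vᴴ * T * V)).trace).re ≤ hs V := by
  have h1 : hs (V * w - T * V) = hs (V * w) + hs (T * V) - 2 * (((V * w)ᴴ * (T * V)).trace).re :=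
    hs_sub _ _
  have h2 : hs (V * w) = hs V := hs_mul_coisometry _ hw' _
  have h3 : hs (T * V) ≤ hs V := by
    rw [hs_eq_re_trace, hs_eq_re_trace]
    have h4 : (Vᴴ * (1 - Tᴴ * T) * V).PosSemidef :=
      ((posSemidef_one_sub_iff T).2 hT).conjTranspose_mul_mul_same V
    have h5 := h4.trace_nonneg
    have h6 : Vᴴ * (1 - Tᴴ * T) * V = Vᴴ * V - (T * V)ᴴ * (T * V) := by
      rw [Matrix.conjTranspose_mul, Matrix.mul_sub, Matrix.sub_mul, Matrix.mul_one]
      simp only [Matrix.mul_assoc]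
    rw [h6, Matrix.trace_sub, Complex.le_def] at h5
    have := h5.1
    rw [Complex.sub_re, Complex.zero_re] at this
    linarith
  have h7 := hs_nonneg (V * w - T * V)
  have h8 : ((V * w)ᴴ * (T * V)).trace = (wᴴ * (Vᴴ * T * V)).trace := by
    rw [Matrix.conjTranspose_mul]
    simp only [Matrix.mul_assoc]
  rw [h8] at h1
  linarith

/-- From a positive Choi matrix which almost intertwines, extract a single Kraus operator which
almost intertwines. -/
theorem extract (C : Matrix (m × n) (m × n) ℂ) (hC : C.PosSemidef) (ε : ℝ) (hε0 : 0 ≤ ε)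
    (hε1 : ε < 1) (hn : 0 < Fintype.card n) (htr : (C.trace).re ≤ Fintype.card n)
    (w : J → Matrix n n ℂ) (hw' : ∀ j, w j * (w j)ᴴ = 1)
    (T : J → Matrix m m ℂ) (hT : ∀ j, ‖T j‖ ≤ 1) [Nonempty J]
    (hmain : ∀ j, (1 - ε) * Fintype.card n ≤
      (∑ s, ∑ t, ∑ i, ∑ i', star (w j s t) * T j i i' * C (i, s) (i', t)).re) :
    ∃ V : Matrix m n ℂ, 0 < hs V ∧ ∀ j, (1 - (Fintype.card J * ε / (1 - ε))) * hs V ≤
      (((w j)ᴴ * (Vᴴ * T j * V)).trace).re := by
  obtain ⟨R, v, hv⟩ := Matrix.posSemidef_iff_eq_sum_vecMulVec.1 hC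
  set V : Fin R → Matrix m n ℂ := fun r => Matrix.of fun i s => star (v r (i, s)) with hVdef
  have hCe : ∀ i s i' t, C (i, s) (i', t) = ∑ r, star (V r i s) * V r i' t := by
    intro i s i' t
    rw [hv, Matrix.sum_apply]
    refine Finset.sum_congr rfl fun r _ => ?_
    simp [hVdef, Matrix.vecMulVec_apply]
  have hsum : ∑ r, hs (V r) ≤ Fintype.card n := by
    refine le_trans (le_of_eq ?_) htr
    unfold hs Matrix.trace
    rw [Complex.re_sum, Fintype.sum_prod_type, Finset.sum_comm]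
    refine Finset.sum_congr rfl fun i _ => ?_
    rw [Finset.sum_comm]
    refine Finset.sum_congr rfl fun s _ => ?_
    rw [Matrix.diag_apply, hCe, Complex.re_sum]
    refine Finset.sum_congr rfl fun r _ => ?_
    rw [Complex.star_def, ← Complex.normSq_eq_conj_mul_self, Complex.normSq_eq_norm_sq]
    simp only [Complex.ofReal_re]
  have hmain' : ∀ j, (1 - ε) * Fintype.card n ≤
      ∑ r, (((w j)ᴴ * ((V r)ᴴ * T j * V r)).trace).re := by
    intro j
    refine (hmain j).trans (le_of_eq ?_)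
    rw [← Complex.re_sum]
    congr 1
    have h1 : ∀ r, ((w j)ᴴ * ((V r)ᴴ * T j * V r)).trace
        = ∑ s, ∑ t, ∑ i, ∑ i', star (w j s t) * T j i i' * (star (V r i s) * V r i' t) := by
      intro r
      rw [Finset.sum_comm]
      simp only [Matrix.trace, Matrix.diag_apply, Matrix.mul_apply, Matrix.conjTranspose_apply]
      refine Finset.sum_congr rfl fun t _ => Finset.sum_congr rfl fun s _ => ?_
      rw [Finset.mul_sum, Finset.sum_comm]
      refine Finset.sum_congr rfl fun i' _ => ?_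
      rw [Finset.sum_mul, Finset.mul_sum]
      refine Finset.sum_congr rfl fun i _ => ?_
      ring
    simp only [h1, hCe]
    symm
    rw [Finset.sum_comm]
    refine Finset.sum_congr rfl fun s _ => ?_
    rw [Finset.sum_comm]
    refine Finset.sum_congr rfl fun t _ => ?_
    rw [Finset.sum_comm]
    refine Finset.sum_congr rfl fun i _ => ?_
    rw [Finset.sum_comm]
    refine Finset.sum_congr rfl fun i' _ => ?_
    rw [Finset.mul_sum]
  have hle : ∀ j r, (((w j)ᴴ * ((V r)ᴴ * T j * V r)).trace).re ≤ hs (V r) := fun j r =>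
    trace_le_hs _ _ _ (hw' j) (hT j)
  have hn' : (0 : ℝ) < Fintype.card n := by exact_mod_cast hn
  have h1ε : 0 < 1 - ε := by linarith
  set δ := Fintype.card J * ε / (1 - ε) with hδ
  by_contra hcon
  push Not at hcon
  have h2 : ∀ r, δ * hs (V r) ≤ ∑ j, (hs (V r) - (((w j)ᴴ * ((V r)ᴴ * T j * V r)).trace).re) := by
    intro r
    rcases (hs_nonneg (V r)).eq_or_lt with h | h
    · rw [← h, mul_zero]
      refine Finset.sum_nonneg fun j _ => ?_
      have := hle j r
      linarith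
    · obtain ⟨j, hj⟩ := hcon (V r) h
      have h3 : hs (V r) - (((w j)ᴴ * ((V r)ᴴ * T j * V r)).trace).re
          ≤ ∑ j, (hs (V r) - (((w j)ᴴ * ((V r)ᴴ * T j * V r)).trace).re) :=
        Finset.single_le_sum (f := fun j => hs (V r) - (((w j)ᴴ * ((V r)ᴴ * T j * V r)).trace).re)
          (fun j _ => sub_nonneg.2 (hle j r)) (Finset.mem_univ j)
      linarith
  have h2' : ∀ r, 0 < hs (V r) →
      δ * hs (V r) < ∑ j, (hs (V r) - (((w j)ᴴ * ((V r)ᴴ * T j * V r)).trace).re) := by
    intro r h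
    obtain ⟨j, hj⟩ := hcon (V r) h
    have h3 : hs (V r) - (((w j)ᴴ * ((V r)ᴴ * T j * V r)).trace).re
        ≤ ∑ j, (hs (V r) - (((w j)ᴴ * ((V r)ᴴ * T j * V r)).trace).re) :=
      Finset.single_le_sum (f := fun j => hs (V r) - (((w j)ᴴ * ((V r)ᴴ * T j * V r)).trace).re)
        (fun j _ => sub_nonneg.2 (hle j r)) (Finset.mem_univ j)
    linarith
  have hpos : (1 - ε) * Fintype.card n ≤ ∑ r, hs (V r) := by
    obtain ⟨j⟩ := (inferInstance : Nonempty J)
    exact (hmain' j).trans (Finset.sum_le_sum fun r _ => hle j r)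
  have hex : ∃ r, 0 < hs (V r) := by
    by_contra hno
    push Not at hno
    have : ∑ r, hs (V r) ≤ 0 := Finset.sum_nonpos fun r _ => hno r
    nlinarith
  obtain ⟨r0, hr0⟩ := hex
  have h4 : δ * ∑ r, hs (V r) < ∑ r, ∑ j, (hs (V r) - (((w j)ᴴ * ((V r)ᴴ * T j * V r)).trace).re) := by
    rw [Finset.mul_sum]
    exact Finset.sum_lt_sum (fun r _ => h2 r) ⟨r0, Finset.mem_univ _, h2' r0 hr0⟩
  have h5 : ∑ r, ∑ j, (hs (V r) - (((w j)ᴴ * ((V r)ᴴ * T j * V r)).trace).re)
      ≤ Fintype.card J * (ε * Fintype.card n) := by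
    rw [Finset.sum_comm]
    calc ∑ j, ∑ r, (hs (V r) - (((w j)ᴴ * ((V r)ᴴ * T j * V r)).trace).re)
        ≤ ∑ _j : J, (ε * Fintype.card n) := by
          refine Finset.sum_le_sum fun j _ => ?_
          rw [Finset.sum_sub_distrib]
          have := hmain' j
          linarith
      _ = _ := by simp
  have hδ0 : 0 ≤ δ := by positivity
  have h6 : Fintype.card J * (ε * Fintype.card n) = δ * ((1 - ε) * Fintype.card n) := by
    rw [hδ]
    field_simp
  have h7 := mul_le_mul_of_nonneg_left hpos hδ0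
  linarith

end Pool.Agent.MP_162c54_lc
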