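import Pool.Agent.MP_162c54_lc.HS

set_option autoImplicit false
set_option linter.unusedSectionVars false
open scoped ComplexOrder Matrix.Norms.L2Operator
open Matrix

namespace Pool.Agent.MP_162c54_lc

variable {m n : Type*} [Fintype m] [Fintype n] [DecidableEq m] [DecidableEq n]

/-- Weighted estimate in a basis which diagonalises `VᴴV`. -/
lemma diag_estimate (l : n → ℝ) (hl : ∀ t, 0 ≤ l t) (u K : Matrix n n ℂ) (hu : uᴴ * u = 1)
    (hu' : u * uᴴ = 1) (hK : ‖K‖ ≤ 1) (δ : ℝ)
    (h : (1 - δ) * ∑ t, l t ^ 2 ≤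
      ((uᴴ * (diagonal (fun t => (l t : ℂ)) * K * diagonal (fun t => (l t : ℂ)))).trace).re) :
    hs (u * diagonal (fun t => (l t : ℂ)) - diagonal (fun t => (l t : ℂ)) * u)
      ≤ 4 * δ * ∑ t, l t ^ 2 := by
  set a := ∑ s, ∑ t, ‖u s t‖ ^ 2 * (l s * l t) with ha
  set b := ∑ s, ∑ t, ‖K s t‖ ^ 2 * (l s * l t) with hb
  set v := ∑ t, l t ^ 2 with hv
  have hcolu : ∀ t, ∑ s, ‖u s t‖ ^ 2 = 1 := by
    intro t
    have := congr_fun (congr_fun hu t) t
    rw [Matrix.mul_apply] at this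
    simp only [Matrix.conjTranspose_apply, Matrix.one_apply_eq] at this
    have h2 : ((∑ s, ‖u s t‖ ^ 2 : ℝ) : ℂ) = 1 := by
      rw [← this]
      push_cast
      refine Finset.sum_congr rfl fun s _ => ?_
      rw [Complex.star_def, ← Complex.normSq_eq_conj_mul_self, Complex.normSq_eq_norm_sq]
      push_cast
      rfl
    exact_mod_cast h2
  have hrowu : ∀ s, ∑ t, ‖u s t‖ ^ 2 = 1 := by
    intro s
    have := congr_fun (congr_fun hu' s) s
    rw [Matrix.mul_apply] at this
    simp only [Matrix.conjTranspose_apply, Matrix.one_apply_eq] at this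
    have h2 : ((∑ t, ‖u s t‖ ^ 2 : ℝ) : ℂ) = 1 := by
      rw [← this]
      push_cast
      refine Finset.sum_congr rfl fun t _ => ?_
      rw [Complex.star_def, mul_comm, ← Complex.normSq_eq_conj_mul_self,
        Complex.normSq_eq_norm_sq]
      push_cast
      rfl
    exact_mod_cast h2
  have hbv : b ≤ v := by
    have h1 : b ≤ ∑ s, ∑ t, ‖K s t‖ ^ 2 * ((l s ^ 2 + l t ^ 2) / 2) := by
      refine Finset.sum_le_sum fun s _ => Finset.sum_le_sum fun t _ => ?_
      have : 0 ≤ (l s - l t) ^ 2 := sq_nonneg _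
      exact mul_le_mul_of_nonneg_left (by nlinarith) (by positivity)
    have h2 : ∑ s, ∑ t, ‖K s t‖ ^ 2 * ((l s ^ 2 + l t ^ 2) / 2)
        = (∑ s, l s ^ 2 * ∑ t, ‖K s t‖ ^ 2) / 2 + (∑ t, l t ^ 2 * ∑ s, ‖K s t‖ ^ 2) / 2 := by
      have h3 : ∑ t, l t ^ 2 * ∑ s, ‖K s t‖ ^ 2 = ∑ s, ∑ t, ‖K s t‖ ^ 2 * l t ^ 2 := by
        rw [Finset.sum_comm]
        refine Finset.sum_congr rfl fun t _ => ?_
        rw [Finset.mul_sum]
        exact Finset.sum_congr rfl fun s _ => by ring
      rw [h3]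
      rw [Finset.sum_div, Finset.sum_div, ← Finset.sum_add_distrib]
      refine Finset.sum_congr rfl fun s _ => ?_
      rw [Finset.mul_sum, Finset.sum_div, Finset.sum_div, ← Finset.sum_add_distrib]
      exact Finset.sum_congr rfl fun t _ => by ring
    have h4 : (∑ s, l s ^ 2 * ∑ t, ‖K s t‖ ^ 2) ≤ v := by
      refine Finset.sum_le_sum fun s _ => ?_
      have := row_le_of_norm_le hK s
      nlinarith [sq_nonneg (l s)]
    have h5 : (∑ t, l t ^ 2 * ∑ s, ‖K s t‖ ^ 2) ≤ v := by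
      refine Finset.sum_le_sum fun t _ => ?_
      have := col_le_of_norm_le hK t
      nlinarith [sq_nonneg (l t)]
    linarith
  have htr : ((uᴴ * (diagonal (fun t => (l t : ℂ)) * K * diagonal (fun t => (l t : ℂ)))).trace).re
      ≤ (a + b) / 2 := by
    have h1 : (uᴴ * (diagonal (fun t => (l t : ℂ)) * K * diagonal (fun t => (l t : ℂ)))).trace
        = ∑ s, ∑ t, star (u s t) * K s t * ((l s * l t : ℝ) : ℂ) := by
      rw [Finset.sum_comm]
      simp only [Matrix.trace, Matrix.diag_apply, Matrix.mul_apply, Matrix.conjTranspose_apply]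
      refine Finset.sum_congr rfl fun t _ => Finset.sum_congr rfl fun s _ => ?_
      have : ∑ x, (∑ x_1, diagonal (fun t => (l t : ℂ)) s x_1 * K x_1 x) *
          diagonal (fun t => (l t : ℂ)) x t = l s * K s t * l t := by
        simp [Matrix.diagonal_apply]
      rw [this]
      push_cast
      ring
    rw [h1, Complex.re_sum]
    have h2 : (a + b) / 2 = ∑ s, ∑ t, (‖u s t‖ ^ 2 + ‖K s t‖ ^ 2) / 2 * (l s * l t) := by
      rw [ha, hb, ← Finset.sum_add_distrib, Finset.sum_div]
      refine Finset.sum_congr rfl fun s _ => ?_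
      rw [← Finset.sum_add_distrib, Finset.sum_div]
      exact Finset.sum_congr rfl fun t _ => by ring
    rw [h2]
    refine Finset.sum_le_sum fun s _ => ?_
    rw [Complex.re_sum]
    refine Finset.sum_le_sum fun t _ => ?_
    have h3 : (star (u s t) * K s t * ((l s * l t : ℝ) : ℂ)).re
        ≤ ‖u s t‖ * ‖K s t‖ * (l s * l t) := by
      refine (Complex.re_le_norm _).trans ?_
      rw [norm_mul, norm_mul, norm_star, Complex.norm_real, Real.norm_of_nonneg
        (mul_nonneg (hl s) (hl t))]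
    refine h3.trans (mul_le_mul_of_nonneg_right ?_ (mul_nonneg (hl s) (hl t)))
    nlinarith [sq_nonneg (‖u s t‖ - ‖K s t‖)]
  have hhs : hs (u * diagonal (fun t => (l t : ℂ)) - diagonal (fun t => (l t : ℂ)) * u)
      = 2 * v - 2 * a := by
    have h1 : hs (u * diagonal (fun t => (l t : ℂ)) - diagonal (fun t => (l t : ℂ)) * u)
        = ∑ s, ∑ t, ‖u s t‖ ^ 2 * (l t - l s) ^ 2 := by
      unfold hs
      refine Finset.sum_congr rfl fun s _ => Finset.sum_congr rfl fun t _ => ?_
      rw [Matrix.sub_apply, Matrix.mul_diagonal, Matrix.diagonal_mul]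
      have : u s t * (l t : ℂ) - (l s : ℂ) * u s t = u s t * ((l t - l s : ℝ) : ℂ) := by
        push_cast; ring
      rw [this, norm_mul, mul_pow, Complex.norm_real]
      simp
    rw [h1]
    have h2 : ∑ s, ∑ t, ‖u s t‖ ^ 2 * (l t - l s) ^ 2
        = (∑ t, l t ^ 2 * ∑ s, ‖u s t‖ ^ 2) + (∑ s, l s ^ 2 * ∑ t, ‖u s t‖ ^ 2) - 2 * a := by
      have h3 : ∑ t, l t ^ 2 * ∑ s, ‖u s t‖ ^ 2 = ∑ s, ∑ t, ‖u s t‖ ^ 2 * l t ^ 2 := by
        rw [Finset.sum_comm]
        refine Finset.sum_congr rfl fun t _ => ?_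
        rw [Finset.mul_sum]
        exact Finset.sum_congr rfl fun s _ => by ring
      rw [h3, ha, Finset.mul_sum, ← Finset.sum_add_distrib, ← Finset.sum_sub_distrib]
      refine Finset.sum_congr rfl fun s _ => ?_
      rw [Finset.mul_sum, Finset.mul_sum, ← Finset.sum_add_distrib, ← Finset.sum_sub_distrib]
      exact Finset.sum_congr rfl fun t _ => by ring
    rw [h2]
    simp only [hcolu, hrowu, mul_one]
    ring
  rw [hhs]
  nlinarith

/-- The absolute value of `V`, with its trace estimate and the transfer of almost intertwining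
relations. -/
theorem exists_abs (V : Matrix m n ℂ) : ∃ y : Matrix n n ℂ, hs y = hs V ∧
    ‖y.trace‖ ^ 2 ≤ (Fintype.card m : ℝ) * hs V ∧
    ∀ (u : Matrix n n ℂ) (T : Matrix m m ℂ) (δ : ℝ), uᴴ * u = 1 → u * uᴴ = 1 → ‖T‖ ≤ 1 →
      (1 - δ) * hs V ≤ ((uᴴ * (Vᴴ * T * V)).trace).re →
      hs (u * y - y * u) ≤ 4 * δ * hs V := by
  have hA : (Vᴴ * V).PosSemidef := Matrix.posSemidef_conjTranspose_mul_self V
  set hH := hA.isHermitian
  set E : Matrix n n ℂ := (hH.eigenvectorUnitary : Matrix n n ℂ) with hE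
  have hE1 : Eᴴ * E = 1 := by
    have := hH.eigenvectorUnitary.2
    exact (Matrix.mem_unitaryGroup_iff').1 this
  have hE2 : E * Eᴴ = 1 := by
    have := hH.eigenvectorUnitary.2
    exact (Matrix.mem_unitaryGroup_iff).1 this
  set d := hH.eigenvalues with hd
  have hd0 : ∀ t, 0 ≤ d t := fun t => hA.eigenvalues_nonneg t
  have hspec : Vᴴ * V = E * diagonal (fun t => (d t : ℂ)) * Eᴴ := by
    have := hH.spectral_theorem
    rw [Unitary.conjStarAlgAut_apply] at this
    exact this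
  set l : n → ℝ := fun t => Real.sqrt (d t) with hldef
  have hl0 : ∀ t, 0 ≤ l t := fun t => Real.sqrt_nonneg _
  have hl2 : ∀ t, l t ^ 2 = d t := fun t => Real.sq_sqrt (hd0 t)
  set D : Matrix n n ℂ := diagonal (fun t => (l t : ℂ)) with hD
  have hsV : hs V = ∑ t, l t ^ 2 := by
    rw [hs_eq_re_trace, hspec, Matrix.trace_mul_comm, ← Matrix.mul_assoc, hE1, Matrix.one_mul,
      Matrix.trace_diagonal]
    simp [hl2]
  have hsD : hs D = ∑ t, l t ^ 2 := by
    unfold hs
    refine Finset.sum_congr rfl fun s _ => ?_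
    rw [Finset.sum_eq_single s]
    · simp [hD]
    · intro t _ hts
      simp [hD, Matrix.diagonal_apply_ne _ (Ne.symm hts)]
    · simp
  -- V' and W
  set V' : Matrix m n ℂ := V * E with hV'
  have hV'2 : V'ᴴ * V' = diagonal (fun t => (d t : ℂ)) := by
    rw [hV', Matrix.conjTranspose_mul, Matrix.mul_assoc, ← Matrix.mul_assoc Vᴴ, hspec]
    rw [Matrix.mul_assoc, Matrix.mul_assoc, hE1, Matrix.mul_one,
      ← Matrix.mul_assoc, hE1, Matrix.one_mul]
  set W : Matrix m n ℂ := V' * diagonal (fun t => ((l t)⁻¹ : ℂ)) with hW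
  have hWD : W * D = V' := by
    ext i t
    rw [hW, hD, Matrix.mul_diagonal, Matrix.mul_diagonal]
    by_cases ht : l t = 0
    · have h1 : ∑ i, ‖V' i t‖ ^ 2 = 0 := by
        have h2 := congr_fun (congr_fun hV'2 t) t
        rw [Matrix.mul_apply, Matrix.diagonal_apply_eq] at h2
        simp only [Matrix.conjTranspose_apply] at h2
        have h3 : ((∑ i, ‖V' i t‖ ^ 2 : ℝ) : ℂ) = (d t : ℂ) := by
          rw [← h2]
          push_cast
          refine Finset.sum_congr rfl fun s _ => ?_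
          rw [Complex.star_def, ← Complex.normSq_eq_conj_mul_self, Complex.normSq_eq_norm_sq]
          push_cast
          rfl
        have h4 : ∑ i, ‖V' i t‖ ^ 2 = d t := by exact_mod_cast h3
        rw [h4, ← hl2, ht]
        ring
      have h5 := (Finset.sum_eq_zero_iff_of_nonneg (fun _ _ => by positivity)).1 h1 i
        (Finset.mem_univ _)
      have h6 : V' i t = 0 := by simpa using h5
      rw [h6, ht]
      simp
    · have : (l t : ℂ) ≠ 0 := by exact_mod_cast ht
      rw [mul_assoc, inv_mul_cancel₀ this, mul_one]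
  have hWn : ‖W‖ ≤ 1 := by
    have h1 : Wᴴ * W = diagonal (fun t => if l t = 0 then (0:ℂ) else 1) := by
      rw [hW, Matrix.conjTranspose_mul, Matrix.mul_assoc, ← Matrix.mul_assoc V'ᴴ, hV'2,
        Matrix.diagonal_conjTranspose, Matrix.diagonal_mul_diagonal, Matrix.diagonal_mul_diagonal]
      congr 1
      funext t
      by_cases ht : l t = 0
      · simp [ht]
      · have : (l t : ℂ) ≠ 0 := by exact_mod_cast ht
        simp only [ht, if_false, Pi.star_apply]
        rw [← hl2]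
        push_cast
        rw [star_inv₀]
        simp
        field_simp
    have h2 : ‖W‖ * ‖W‖ ≤ 1 := by
      rw [← Matrix.l2_opNorm_conjTranspose_mul_self, h1, Matrix.l2_opNorm_diagonal]
      refine (pi_norm_le_iff_of_nonneg zero_le_one).2 fun t => ?_
      split_ifs <;> simp
    nlinarith [norm_nonneg W]
  refine ⟨E * D * Eᴴ, ?_, ?_, ?_⟩
  · rw [hs_mul_coisometry _ (by rw [Matrix.conjTranspose_conjTranspose, hE1]),
      hs_isometry_mul _ hE1, hsD, hsV]
  · rw [Matrix.trace_mul_comm, ← Matrix.mul_assoc, hE1, Matrix.one_mul, hD, Matrix.trace_diagonal]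
    have h1 : ‖∑ t, (l t : ℂ)‖ = ∑ t, l t := by
      rw [← Complex.ofReal_sum, Complex.norm_real, Real.norm_of_nonneg]
      exact Finset.sum_nonneg fun t _ => hl0 t
    rw [h1, hsV]
    set S : Finset n := Finset.univ.filter fun t => d t ≠ 0 with hS
    have h2 : ∑ t, l t = ∑ t ∈ S, l t := by
      rw [hS, Finset.sum_filter]
      refine Finset.sum_congr rfl fun t _ => ?_
      split_ifs with h
      · rfl
      · rw [not_not] at h
        simp [hldef, h]
    have h3 : ∑ t ∈ S, l t ^ 2 ≤ ∑ t, l t ^ 2 :=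
      Finset.sum_le_sum_of_subset_of_nonneg (Finset.subset_univ _) fun _ _ _ => sq_nonneg _
    have h4 : (S.card : ℝ) ≤ Fintype.card m := by
      have h5 : S.card = (Vᴴ * V).rank := by
        rw [hH.rank_eq_card_non_zero_eigs, Fintype.card_subtype]
      rw [h5, Matrix.rank_conjTranspose_mul_self]
      exact_mod_cast V.rank_le_card_height
    rw [h2]
    calc (∑ t ∈ S, l t) ^ 2 ≤ S.card * ∑ t ∈ S, l t ^ 2 := sq_sum_le_card_mul_sum_sq
      _ ≤ Fintype.card m * ∑ t, l t ^ 2 := by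
          refine mul_le_mul h4 h3 (Finset.sum_nonneg fun _ _ => sq_nonneg _) (by positivity)
  · intro u T δ hu hu' hT h
    set u' : Matrix n n ℂ := Eᴴ * u * E with hu'def
    have e1 : u'ᴴ * u' = 1 := by
      rw [hu'def, Matrix.conjTranspose_mul, Matrix.conjTranspose_mul,
        Matrix.conjTranspose_conjTranspose]
      calc Eᴴ * (uᴴ * E) * (Eᴴ * u * E) = Eᴴ * uᴴ * (E * Eᴴ) * u * E := by
            simp only [Matrix.mul_assoc]
        _ = Eᴴ * (uᴴ * u) * E := by rw [hE2]; simp only [Matrix.mul_assoc, Matrix.one_mul]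
        _ = 1 := by rw [hu, Matrix.mul_one, hE1]
    have e2 : u' * u'ᴴ = 1 := by
      rw [hu'def, Matrix.conjTranspose_mul, Matrix.conjTranspose_mul,
        Matrix.conjTranspose_conjTranspose]
      calc Eᴴ * u * E * (Eᴴ * (uᴴ * E)) = Eᴴ * u * (E * Eᴴ) * uᴴ * E := by
            simp only [Matrix.mul_assoc]
        _ = Eᴴ * (u * uᴴ) * E := by rw [hE2]; simp only [Matrix.mul_assoc, Matrix.one_mul]
        _ = 1 := by rw [hu', Matrix.mul_one, hE1]
    have hK : ‖Wᴴ * T * W‖ ≤ 1 := by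
      have h1 : ‖Wᴴ‖ ≤ 1 := by rwa [Matrix.l2_opNorm_conjTranspose]
      calc ‖Wᴴ * T * W‖ ≤ ‖Wᴴ * T‖ * ‖W‖ := Matrix.l2_opNorm_mul _ _
        _ ≤ (‖Wᴴ‖ * ‖T‖) * ‖W‖ := by gcongr; exact Matrix.l2_opNorm_mul _ _
        _ ≤ (1 * 1) * 1 := by gcongr
        _ = 1 := by norm_num
    have h1 : (uᴴ * (Vᴴ * T * V)).trace = (u'ᴴ * (D * (Wᴴ * T * W) * D)).trace := by
      have h2 : D * (Wᴴ * T * W) * D = V'ᴴ * T * V' := by
        have hDh : Dᴴ = D := by
          rw [hD, Matrix.diagonal_conjTranspose]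
          congr 1
          funext t
          simp
        have h3 : D * Wᴴ = V'ᴴ := by
          rw [← hWD, Matrix.conjTranspose_mul W D, hDh]
        calc D * (Wᴴ * T * W) * D = (D * Wᴴ) * T * (W * D) := by simp only [Matrix.mul_assoc]
          _ = _ := by rw [h3, hWD]
      rw [h2, hu'def, hV', Matrix.conjTranspose_mul, Matrix.conjTranspose_mul,
        Matrix.conjTranspose_conjTranspose, Matrix.conjTranspose_mul]
      calc (uᴴ * (Vᴴ * T * V)).trace = ((E * Eᴴ) * uᴴ * (E * Eᴴ) * (Vᴴ * T * V)).trace := by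
            rw [hE2, Matrix.one_mul, Matrix.mul_one]
        _ = (E * (Eᴴ * uᴴ * (E * Eᴴ) * (Vᴴ * T * V))).trace := by
            simp only [Matrix.mul_assoc]
        _ = ((Eᴴ * uᴴ * (E * Eᴴ) * (Vᴴ * T * V)) * E).trace := Matrix.trace_mul_comm _ _
        _ = _ := by simp only [Matrix.mul_assoc]
    rw [h1, hsV] at h
    have h5 := diag_estimate l hl0 u' (Wᴴ * T * W) e1 e2 hK δ h
    have h6 : u * (E * D * Eᴴ) - (E * D * Eᴴ) * u = E * (u' * D - D * u') * Eᴴ := by
      have h7 : u * (E * D * Eᴴ) = E * (u' * D) * Eᴴ := by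
        calc u * (E * D * Eᴴ) = (E * Eᴴ) * u * (E * D * Eᴴ) := by rw [hE2, Matrix.one_mul]
          _ = _ := by rw [hu'def]; simp only [Matrix.mul_assoc]
      have h8 : (E * D * Eᴴ) * u = E * (D * u') * Eᴴ := by
        calc (E * D * Eᴴ) * u = (E * D * Eᴴ) * u * (E * Eᴴ) := by rw [hE2, Matrix.mul_one]
          _ = _ := by rw [hu'def]; simp only [Matrix.mul_assoc]
      rw [h7, h8, Matrix.mul_sub, Matrix.sub_mul]
    rw [h6, hs_mul_coisometry _ (by rw [Matrix.conjTranspose_conjTranspose, hE1]),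
      hs_isometry_mul _ hE1, hsV]
    exact h5

end Pool.Agent.MP_162c54_lc
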