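import Mathlib

set_option autoImplicit false
open scoped ComplexOrder

namespace Pool.Agent.MP_162c54_lc

/-- A norm one functional taking the value one at a projection `p` is positive on the corner
`p U p`. -/
theorem exists_corner_state {U : Type*} [NonUnitalCStarAlgebra U] (p : U) (hpp : p * p = p)
    (hps : star p = p) (hp0 : p ≠ 0) : ∃ ρ : U →L[ℂ] ℂ, ρ p = 1 ∧ (∀ x, ‖ρ x‖ ≤ ‖x‖) ∧
      ∀ x : U, 0 ≤ ρ (star (x * p) * (x * p)) := by
  let _ := CStarAlgebra.spectralOrder U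
  let _ := CStarAlgebra.spectralOrderedRing U
  have hpn : ‖p‖ = 1 := by
    have h1 : ‖p‖ * ‖p‖ = ‖p‖ := by
      have := CStarRing.norm_star_mul_self (x := p)
      rw [hps, hpp] at this
      exact this.symm
    have h2 : ‖p‖ ≠ 0 := norm_ne_zero_iff.2 hp0
    exact mul_left_cancel₀ h2 (by rw [h1, mul_one])
  obtain ⟨ρ, hρ, hρp⟩ := exists_dual_vector ℂ p (norm_ne_zero_iff.2 hp0)
  have hb : ∀ x, ‖ρ x‖ ≤ ‖x‖ := fun x => by
    have := ρ.le_opNorm x
    rwa [hρ, one_mul] at this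
  have hρp' : ρ p = 1 := by rw [hρp, hpn]; simp
  refine ⟨ρ, hρp', hb, fun x => ?_⟩
  set a := star (x * p) * (x * p) with ha
  have ha0 : 0 ≤ a := star_mul_self_nonneg _
  have has : star a = a := (IsSelfAdjoint.star_mul_self (x * p)).star_eq
  have hap : a * p = a := by
    rw [ha, mul_assoc, mul_assoc x p p, hpp]
  have hpa : p * a = a := by
    have := congrArg star hap
    rwa [star_mul, hps, has] at this
  -- the value is real
  have him : (ρ a).im = 0 := by
    by_contra hne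
    have h1 : ∀ t : ℝ, (ρ a).re ^ 2 + ((ρ a).im + t) ^ 2 ≤ ‖a‖ ^ 2 + t ^ 2 := by
      intro t
      have h2 : ‖a + ((t : ℂ) * Complex.I) • p‖ ^ 2 ≤ ‖a‖ ^ 2 + t ^ 2 := by
        have h3 : star (a + ((t : ℂ) * Complex.I) • p) * (a + ((t : ℂ) * Complex.I) • p)
            = a * a + ((t ^ 2 : ℝ) : ℂ) • p := by
          have h4 : star ((t : ℂ) * Complex.I) = -((t : ℂ) * Complex.I) := by
            simp [Complex.star_def]
          have h5 : -((t : ℂ) * Complex.I) * ((t : ℂ) * Complex.I) = ((t ^ 2 : ℝ) : ℂ) := by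
            push_cast
            linear_combination (-(t : ℂ) ^ 2) * Complex.I_sq
          rw [star_add, star_smul, has, hps, h4, add_mul, mul_add, mul_add, smul_mul_smul_comm,
            hpp, h5, smul_mul_assoc, mul_smul_comm, hap, hpa]
          module
        rw [sq, ← CStarRing.norm_star_mul_self, h3]
        calc ‖a * a + ((t ^ 2 : ℝ) : ℂ) • p‖ ≤ ‖a * a‖ + ‖((t ^ 2 : ℝ) : ℂ) • p‖ := norm_add_le _ _
          _ ≤ ‖a‖ * ‖a‖ + t ^ 2 := by
              refine add_le_add (norm_mul_le _ _) ?_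
              rw [norm_smul, hpn, mul_one, Complex.norm_real, Real.norm_of_nonneg (sq_nonneg t)]
          _ = _ := by ring
      have h6 : ‖ρ (a + ((t : ℂ) * Complex.I) • p)‖ ^ 2 ≤ ‖a‖ ^ 2 + t ^ 2 :=
        (pow_le_pow_left₀ (norm_nonneg _) (hb _) 2).trans h2
      rw [map_add, map_smul, hρp', smul_eq_mul, mul_one, ← Complex.normSq_eq_norm_sq,
        Complex.normSq_apply] at h6
      simp at h6
      nlinarith
    have h7 := h1 ((‖a‖ ^ 2 + 1) / (2 * (ρ a).im))
    have h8 : ((ρ a).im + (‖a‖ ^ 2 + 1) / (2 * (ρ a).im)) ^ 2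
        = (ρ a).im ^ 2 + (‖a‖ ^ 2 + 1) + ((‖a‖ ^ 2 + 1) / (2 * (ρ a).im)) ^ 2 := by
      field_simp
      ring
    rw [h8] at h7
    nlinarith [sq_nonneg (ρ a).re, sq_nonneg (ρ a).im]
  -- the value is nonnegative
  have hre : 0 ≤ (ρ a).re := by
    by_cases hM : ‖a‖ = 0
    · have : a = 0 := norm_eq_zero.1 hM
      rw [this]; simp
    · have hMpos : 0 < ‖a‖ := lt_of_le_of_ne (norm_nonneg _) (Ne.symm hM)
      have h1 : a ≤ ‖a‖ • p := by
        have h2 := CStarAlgebra.star_left_conjugate_le_norm_smul (a := p) (b := a) (by exact has)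
        rwa [hps, hpa, hap, hpp] at h2
      have h3 : 0 ≤ ‖a‖ • p - a := sub_nonneg.2 h1
      have h4 : ‖a‖ • p - a ≤ ‖a‖ • p := sub_le_self _ ha0
      have h5 := CStarAlgebra.norm_le_norm_of_nonneg_of_le h3 h4
      rw [norm_smul, hpn, mul_one, norm_norm] at h5
      have h6 : ‖ρ (‖a‖ • p - a)‖ ≤ ‖a‖ := (hb _).trans h5
      have h7 : ρ (‖a‖ • p - a) = (‖a‖ : ℂ) - ρ a := by
        rw [map_sub]
        congr 1
        have : ‖a‖ • p = (‖a‖ : ℂ) • p := by simp
        rw [this, map_smul, hρp', smul_eq_mul, mul_one]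
      rw [h7] at h6
      have h8 := (Complex.abs_re_le_norm ((‖a‖ : ℂ) - ρ a)).trans h6
      rw [Complex.sub_re, Complex.ofReal_re] at h8
      have := (abs_le.1 h8).2
      linarith
  rw [Complex.le_def]
  exact ⟨by simpa using hre, by simpa using him.symm⟩

end Pool.Agent.MP_162c54_lc
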