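import Pool.Agent.MP_162c54_lc.Gap

set_option autoImplicit false
set_option linter.unusedSectionVars false
open scoped ComplexOrder Matrix.Norms.L2Operator
open Matrix

namespace Pool.Agent.MP_162c54_lc

lemma exists_LL : ∃ n : ℕ, n = 300 := ⟨300, rfl⟩

/-- number of arcs of the circle (equal to 300; defined through `choose` so that it is never
unfolded) -/
noncomputable def LL : ℕ := exists_LL.choose

lemma LL_eq : LL = 300 := exists_LL.choose_spec

variable {k : ℕ} [NeZero k]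

/-- index of the arc containing the root of unity `ee θ` -/
noncomputable def arc (θ : ZMod k) : Fin LL :=
  ⟨LL * θ.val / k, by
    rw [Nat.div_lt_iff_lt_mul (Nat.pos_of_ne_zero (NeZero.ne k))]
    exact Nat.mul_lt_mul_of_pos_left θ.val_lt (by norm_num [LL_eq])⟩

/-- a point of the arc -/
noncomputable def zt (l : Fin LL) : ℂ := Complex.exp ((2 * Real.pi * l / LL : ℝ) * Complex.I)

lemma zt_norm (l : Fin LL) : ‖zt l‖ = 1 := Complex.norm_exp_ofReal_mul_I _

lemma zt_approx (θ : ZMod k) : ‖ee θ - zt (arc θ)‖ ≤ 1 / 40 := by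
  have hk : (0 : ℝ) < k := by exact_mod_cast Nat.pos_of_ne_zero (NeZero.ne k)
  have h1 : ee θ = Complex.exp ((2 * Real.pi * θ.val / k : ℝ) * Complex.I) := by
    unfold ee
    conv_lhs => rw [← ZMod.natCast_zmod_val θ]
    have := ZMod.stdAddChar_coe (N := k) (θ.val : ℤ)
    push_cast at this
    rw [this]
    congr 1
    push_cast
    ring
  rw [h1, zt]
  set x : ℝ := 2 * Real.pi * θ.val / k
  set y : ℝ := 2 * Real.pi * ((arc θ : Fin LL) : ℕ) / LL
  have h2 : Complex.exp (x * Complex.I) - Complex.exp (y * Complex.I)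
      = Complex.exp (y * Complex.I) * (Complex.exp (((x - y : ℝ) : ℂ) * Complex.I) - 1) := by
    rw [mul_sub, ← Complex.exp_add]
    congr 2
    · push_cast; ring
    · ring
  rw [h2, norm_mul, Complex.norm_exp_ofReal_mul_I, one_mul]
  have h3 : ‖Complex.exp (((x - y : ℝ) : ℂ) * Complex.I) - 1‖ ≤ |x - y| := by
    have := Real.norm_exp_I_mul_ofReal_sub_one_le (x := x - y)
    rwa [mul_comm, Real.norm_eq_abs] at this
  refine h3.trans ?_
  have h4 : x - y = 2 * Real.pi * ((θ.val : ℝ) / k - ((arc θ : Fin LL) : ℕ) / LL) := by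
    simp only [x, y]; ring
  have hLL : (0 : ℝ) < LL := by norm_num [LL_eq]
  have h5 : ((arc θ : Fin LL) : ℕ) * k ≤ LL * θ.val := Nat.div_mul_le_self _ _
  have h6 : LL * θ.val < (((arc θ : Fin LL) : ℕ) + 1) * k := by
    have : LL * θ.val / k < ((arc θ : Fin LL) : ℕ) + 1 := Nat.lt_succ_self _
    exact (Nat.div_lt_iff_lt_mul (Nat.pos_of_ne_zero (NeZero.ne k))).1 this
  have h5' : (((arc θ : Fin LL) : ℕ) : ℝ) * k ≤ LL * θ.val := by exact_mod_cast h5
  have h6' : (LL : ℝ) * θ.val < ((((arc θ : Fin LL) : ℕ) : ℝ) + 1) * k := by exact_mod_cast h6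
  have h7 : 0 ≤ (θ.val : ℝ) / k - ((arc θ : Fin LL) : ℕ) / LL := by
    rw [sub_nonneg, div_le_div_iff₀ hLL hk]
    linarith
  have h8 : (θ.val : ℝ) / k - ((arc θ : Fin LL) : ℕ) / LL ≤ 1 / LL := by
    rw [sub_le_iff_le_add, ← add_div, div_le_div_iff₀ hk hLL]
    linarith
  rw [h4, abs_mul, abs_of_nonneg h7, abs_of_pos (by positivity)]
  have h9 : (1 : ℝ) / LL = 1 / 300 := by norm_num [LL_eq]
  rw [h9] at h8
  nlinarith [Real.pi_pos, Real.pi_lt_d2]

/-- index set of the spectral projections -/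
abbrev Lam : Type := Fin LL × Fin LL

/-- colour of a diagonal position: arcs of the clock and of the chirp -/
noncomputable def col (k : ℕ) [NeZero k] (j : ZMod k) : Lam := (arc j, arc (j ^ 2))

noncomputable def Fb (k : ℕ) [NeZero k] (b : Bool) : Matrix (ZMod k) (ZMod k) ℂ :=
  if b then Fm k else 1

lemma Fb_isom (b : Bool) : (Fb k b)ᴴ * Fb k b = 1 := by
  cases b
  · simp [Fb]
  · simp [Fb, Fm_isom]

lemma Fb_coisom (b : Bool) : Fb k b * (Fb k b)ᴴ = 1 := mul_eq_one_comm.1 (Fb_isom b)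

/-- The element of type `b` with coefficients `h` -/
noncomputable def dl (k : ℕ) [NeZero k] (b : Bool) (h : Lam → ℂ) : Matrix (ZMod k) (ZMod k) ℂ :=
  Fb k b * diagonal (fun j => h (col k j)) * (Fb k b)ᴴ

noncomputable def hh (c : Bool) (l : Lam) : ℂ := if c then zt l.2 else zt l.1

lemma hh_norm (c : Bool) (l : Lam) : ‖hh c l‖ = 1 := by
  unfold hh; split_ifs <;> exact zt_norm _

lemma dl_add (b : Bool) (h h' : Lam → ℂ) : dl k b (h + h') = dl k b h + dl k b h' := by
  unfold dl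
  rw [← Matrix.add_mul, ← Matrix.mul_add, Matrix.diagonal_add]
  rfl

lemma dl_smul (b : Bool) (c : ℂ) (h : Lam → ℂ) : dl k b (c • h) = c • dl k b h := by
  unfold dl
  rw [← Matrix.smul_mul, ← Matrix.mul_smul, ← Matrix.diagonal_smul]
  rfl

lemma dl_mul (b : Bool) (h h' : Lam → ℂ) : dl k b h * dl k b h' = dl k b (h * h') := by
  unfold dl
  calc Fb k b * diagonal (fun j => h (col k j)) * (Fb k b)ᴴ *
        (Fb k b * diagonal (fun j => h' (col k j)) * (Fb k b)ᴴ)
      = Fb k b * diagonal (fun j => h (col k j)) * ((Fb k b)ᴴ * Fb k b)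
        * diagonal (fun j => h' (col k j)) * (Fb k b)ᴴ := by simp only [Matrix.mul_assoc]
    _ = _ := by
        rw [Fb_isom, Matrix.mul_one, Matrix.mul_assoc (Fb k b), Matrix.diagonal_mul_diagonal]
        rfl

lemma dl_star (b : Bool) (h : Lam → ℂ) : star (dl k b h) = dl k b (star h) := by
  unfold dl
  rw [Matrix.star_eq_conjTranspose, Matrix.conjTranspose_mul, Matrix.conjTranspose_mul,
    Matrix.conjTranspose_conjTranspose, Matrix.diagonal_conjTranspose, Matrix.mul_assoc]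
  rfl

lemma dl_norm_le (b : Bool) (h : Lam → ℂ) (C : ℝ) (hC : 0 ≤ C) (hh : ∀ l, ‖h l‖ ≤ C) :
    ‖dl k b h‖ ≤ C := by
  have h1 : ‖Fb k b‖ ≤ 1 := by
    rw [← posSemidef_one_sub_iff, Fb_isom, sub_self]
    exact Matrix.PosSemidef.zero
  have h2 : ‖(Fb k b)ᴴ‖ ≤ 1 := by rwa [Matrix.l2_opNorm_conjTranspose]
  have h3 : ‖(diagonal (fun j => h (col k j)) : Matrix (ZMod k) (ZMod k) ℂ)‖ ≤ C := by
    rw [Matrix.l2_opNorm_diagonal]
    exact (pi_norm_le_iff_of_nonneg hC).2 fun j => hh _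
  calc ‖dl k b h‖ ≤ ‖Fb k b * diagonal (fun j => h (col k j))‖ * ‖(Fb k b)ᴴ‖ :=
        Matrix.l2_opNorm_mul _ _
    _ ≤ (‖Fb k b‖ * ‖(diagonal (fun j => h (col k j)) : Matrix (ZMod k) (ZMod k) ℂ)‖)
        * ‖(Fb k b)ᴴ‖ := by gcongr; exact Matrix.l2_opNorm_mul _ _
    _ ≤ (1 * C) * 1 := by gcongr
    _ = C := by ring

lemma dl_unitary (b c : Bool) : (dl k b (hh c))ᴴ * dl k b (hh c) = 1 := by
  rw [← Matrix.star_eq_conjTranspose, dl_star, dl_mul]
  have : star (hh c) * hh c = 1 := by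
    funext l
    rw [Pi.mul_apply, Pi.star_apply, Complex.star_def, ← Complex.normSq_eq_conj_mul_self,
      Complex.normSq_eq_norm_sq, hh_norm]
    simp
  rw [this]
  unfold dl
  have h2 : (diagonal (fun j => (1 : Lam → ℂ) (col k j)) : Matrix (ZMod k) (ZMod k) ℂ) = 1 := by
    rw [← Matrix.diagonal_one]
    rfl
  rw [h2, Matrix.mul_one, Fb_coisom]

lemma dl_unitary' (b c : Bool) : dl k b (hh c) * (dl k b (hh c))ᴴ = 1 :=
  mul_eq_one_comm.1 (dl_unitary b c)

/-- commutators with two close diagonal matrices -/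
lemma comm_close (d d' : ZMod k → ℂ) (hd : ∀ j, ‖d j - d' j‖ ≤ 1 / 40)
    (y : Matrix (ZMod k) (ZMod k) ℂ)
    (h : hs (diagonal d' * y - y * diagonal d') ≤ hs y / 400) :
    hs (diagonal d * y - y * diagonal d) ≤ hs y / 100 := by
  have h1 : hs (diagonal d * y - y * diagonal d)
      ≤ 2 * hs (diagonal d' * y - y * diagonal d') + hs y / 200 := by
    unfold hs
    rw [Finset.mul_sum, Finset.sum_div, ← Finset.sum_add_distrib]
    refine Finset.sum_le_sum fun i _ => ?_
    rw [Finset.mul_sum, Finset.sum_div, ← Finset.sum_add_distrib]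
    refine Finset.sum_le_sum fun j _ => ?_
    simp only [Matrix.sub_apply, Matrix.diagonal_mul, Matrix.mul_diagonal]
    have e1 : d i * y i j - y i j * d j = (d' i * y i j - y i j * d' j)
        + ((d i - d' i) - (d j - d' j)) * y i j := by ring
    have e2 : ‖((d i - d' i) - (d j - d' j)) * y i j‖ ≤ 1 / 20 * ‖y i j‖ := by
      rw [norm_mul]
      refine mul_le_mul_of_nonneg_right ?_ (norm_nonneg _)
      calc ‖(d i - d' i) - (d j - d' j)‖ ≤ ‖d i - d' i‖ + ‖d j - d' j‖ := norm_sub_le _ _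
        _ ≤ 1 / 40 + 1 / 40 := add_le_add (hd i) (hd j)
        _ = 1 / 20 := by norm_num
    have e3 := norm_add_le (d' i * y i j - y i j * d' j) (((d i - d' i) - (d j - d' j)) * y i j)
    rw [← e1] at e3
    set A := ‖d i * y i j - y i j * d j‖
    set B := ‖d' i * y i j - y i j * d' j‖
    set D := ‖((d i - d' i) - (d j - d' j)) * y i j‖
    have hA : 0 ≤ A := norm_nonneg _
    have hB : 0 ≤ B := norm_nonneg _
    have hD : 0 ≤ D := norm_nonneg _
    have hY : 0 ≤ ‖y i j‖ := norm_nonneg _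
    have e4 : A ^ 2 ≤ (B + D) ^ 2 := pow_le_pow_left₀ hA e3 2
    have e5 : D ^ 2 ≤ (1 / 20 * ‖y i j‖) ^ 2 := pow_le_pow_left₀ hD e2 2
    nlinarith [sq_nonneg (B - D)]
  linarith

/-- **Spectral gap** for the finite spectrum approximations. -/
theorem gap' (y : Matrix (ZMod k) (ZMod k) ℂ) (htr : y.trace = 0)
    (h : ∀ b c, hs (dl k b (hh c) * y - y * dl k b (hh c)) ≤ hs y / 400) : hs y = 0 := by
  have e0 : ∀ c, hs (diagonal (fun j => hh c (col k j)) * y - y * diagonal (fun j => hh c (col k j)))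
      ≤ hs y / 400 := by
    intro c
    have := h false c
    unfold dl at this
    simpa [Fb] using this
  set yh := (Fm k)ᴴ * y * Fm k with hyh
  have hyy : hs yh = hs y := by
    rw [hyh, hs_mul_coisometry _ Fm_coisom, hs_isometry_mul]
    rw [Matrix.conjTranspose_conjTranspose, Fm_coisom]
  have e1 : ∀ c, hs (diagonal (fun j => hh c (col k j)) * yh - yh * diagonal (fun j => hh c (col k j)))
      ≤ hs yh / 400 := by
    intro c
    rw [hyy]
    refine le_trans (le_of_eq ?_) (h true c)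
    set D : Matrix (ZMod k) (ZMod k) ℂ := diagonal (fun j => hh c (col k j)) with hD
    have h1 : dl k true (hh c) * y - y * dl k true (hh c) = Fm k * (D * yh - yh * D) * (Fm k)ᴴ := by
      have e2 : dl k true (hh c) = Fm k * D * (Fm k)ᴴ := by simp [dl, Fb, hD]
      rw [e2, hyh, Matrix.mul_sub, Matrix.sub_mul]
      have e3 : Fm k * D * (Fm k)ᴴ * y = Fm k * (D * ((Fm k)ᴴ * y * Fm k)) * (Fm k)ᴴ := by
        calc Fm k * D * (Fm k)ᴴ * y = Fm k * D * (Fm k)ᴴ * y * (Fm k * (Fm k)ᴴ) := by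
              rw [Fm_coisom, Matrix.mul_one]
          _ = _ := by simp only [Matrix.mul_assoc]
      have e4 : y * (Fm k * D * (Fm k)ᴴ) = Fm k * ((Fm k)ᴴ * y * Fm k * D) * (Fm k)ᴴ := by
        calc y * (Fm k * D * (Fm k)ᴴ) = (Fm k * (Fm k)ᴴ) * y * (Fm k * D * (Fm k)ᴴ) := by
              rw [Fm_coisom, Matrix.one_mul]
          _ = _ := by simp only [Matrix.mul_assoc]
      rw [e3, e4]
    rw [h1, hs_mul_coisometry _ (by rw [Matrix.conjTranspose_conjTranspose, Fm_isom]),
      hs_isometry_mul _ Fm_isom]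
  have cz : ∀ j : ZMod k, ‖ee j - hh false (col k j)‖ ≤ 1 / 40 := by
    intro j
    have := zt_approx j
    simpa [hh, col] using this
  have cq : ∀ j : ZMod k, ‖ee (j ^ 2) - hh true (col k j)‖ ≤ 1 / 40 := by
    intro j
    have := zt_approx (j ^ 2)
    simpa [hh, col] using this
  refine gap y htr ?_ ?_ ?_ ?_
  · exact comm_close _ _ cz y (e0 false)
  · exact comm_close _ _ cq y (e0 true)
  · rw [← hyy]; exact comm_close _ _ cz yh (e1 false)
  · rw [← hyy]; exact comm_close _ _ cq yh (e1 true)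

end Pool.Agent.MP_162c54_lc
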