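import Pool.Agent.MP_162c54_lc.Defs
import Pool.Agent.MP_162c54_lc.Types
import Pool.Agent.MP_162c54_lc.Kraus
import Pool.Agent.MP_162c54_lc.Extract
import Pool.Agent.MP_162c54_lc.State

set_option autoImplicit false
set_option linter.unusedSectionVars false
open scoped ComplexOrder Matrix.Norms.L2Operator
open Matrix

namespace Pool.Agent.MP_162c54_lc

/-- The purely matricial contradiction. -/
lemma no_kraus {N : Type*} [Fintype N] [DecidableEq N] {k : ℕ} [NeZero k]
    (hNk : 2 * Fintype.card N ≤ k) (V : Matrix N (ZMod k) ℂ) (hV : 0 < hs V)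
    (T : Bool × Bool → Matrix N N ℂ) (hT : ∀ j, ‖T j‖ ≤ 1) (δ : ℝ) (hδ : δ ≤ 1 / 3200)
    (h : ∀ j : Bool × Bool, (1 - δ) * hs V ≤
      (((dl k j.1 (hh j.2))ᴴ * (Vᴴ * T j * V)).trace).re) : False := by
  have hk : (0 : ℝ) < k := by exact_mod_cast Nat.pos_of_ne_zero (NeZero.ne k)
  obtain ⟨y, hy1, hy2, hy3⟩ := exists_abs V
  set c : ℂ := y.trace / k with hc
  set y0 : Matrix (ZMod k) (ZMod k) ℂ := y - c • (1 : Matrix (ZMod k) (ZMod k) ℂ) with hy0
  have htr : y0.trace = 0 := by
    rw [hy0, Matrix.trace_sub, Matrix.trace_smul, Matrix.trace_one, ZMod.card, hc, smul_eq_mul,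
      div_mul_cancel₀]
    · ring
    · exact_mod_cast hk.ne'
  have hhs : hs y0 = hs V - ‖y.trace‖ ^ 2 / k := by
    rw [hy0, hs_sub, hy1, hs_smul]
    have h1 : hs (1 : Matrix (ZMod k) (ZMod k) ℂ) = k := by
      rw [hs_eq_re_trace, Matrix.conjTranspose_one, Matrix.one_mul, Matrix.trace_one, ZMod.card]
      simp
    have h2 : ((yᴴ * (c • (1 : Matrix (ZMod k) (ZMod k) ℂ))).trace).re = ‖y.trace‖ ^ 2 / k := by
      rw [Matrix.mul_smul, Matrix.mul_one, Matrix.trace_smul, Matrix.trace_conjTranspose, hc,
        smul_eq_mul]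
      have h3 : y.trace / (k : ℂ) * star y.trace = ((‖y.trace‖ ^ 2 / k : ℝ) : ℂ) := by
        rw [div_mul_eq_mul_div, Complex.star_def, Complex.mul_conj, Complex.normSq_eq_norm_sq]
        push_cast
        rfl
      rw [h3, Complex.ofReal_re]
    rw [h1, h2, hc, norm_div, Complex.norm_natCast]
    field_simp
    ring
  have hhalf : hs V / 2 ≤ hs y0 := by
    rw [hhs]
    have h1 : ‖y.trace‖ ^ 2 / k ≤ hs V / 2 := by
      rw [div_le_div_iff₀ hk (by norm_num)]
      have h2 : (2 * Fintype.card N : ℝ) ≤ k := by exact_mod_cast hNk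
      nlinarith
    linarith
  have hz : hs y0 = 0 := by
    refine gap' y0 htr fun b c' => ?_
    have h1 : dl k b (hh c') * y0 - y0 * dl k b (hh c')
        = dl k b (hh c') * y - y * dl k b (hh c') := by
      rw [hy0, Matrix.mul_sub, Matrix.sub_mul, Matrix.mul_smul, Matrix.smul_mul, Matrix.mul_one,
        Matrix.one_mul]
      abel
    rw [h1]
    have h2 := hy3 (dl k b (hh c')) (T (b, c')) δ (dl_unitary b c') (dl_unitary' b c')
      (hT _) (h (b, c'))
    have h3 : 4 * δ * hs V ≤ 4 * (1 / 3200) * hs V := by
      refine mul_le_mul_of_nonneg_right ?_ hV.le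
      linarith
    linarith
  linarith

/-- **Failure of amalgamation.**  In a nuclear C*-algebra, elements of both types cannot be
realised over the same large matrix blocks. -/
theorem conflict {U : Type*} [NonUnitalCStarAlgebra U] (hU : IsNuclear U) (u : Bool × Bool → U)
    (hu : ∀ j, ‖u j‖ ≤ 1) : ∃ K : ℕ, ∀ (k : ℕ) [NeZero k], K ≤ k →
      ∀ g : Matrix (ZMod k) (ZMod k) ℂ →⋆ₙₐ[ℂ] U, Function.Injective g →
        ¬ ∀ j : Bool × Bool, u j * g 1 = g (dl k j.1 (hh j.2)) := by
  classical
  obtain ⟨N, φ, ψ, hφ, hψ, hφ1, hψ1, happ⟩ := hU (Finset.univ.image u) (1 / 20000) (by norm_num)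
  refine ⟨2 * N, fun k _ hK g hg hj => ?_⟩
  set T : Bool × Bool → Matrix (Fin N) (Fin N) ℂ := fun j => φ (u j) with hTdef
  have hT : ∀ j, ‖T j‖ ≤ 1 := fun j => (posSemidef_one_sub_iff _).1 (hφ1 _ (hu j))
  -- the rank one projection and its state
  have hss : ∀ i j : ZMod k, star (single i j (1:ℂ)) = single j i (1:ℂ) := by
    intro i j
    rw [Matrix.star_eq_conjTranspose]
    ext a b
    simp [Matrix.single_apply, Matrix.conjTranspose_apply, and_comm, apply_ite]
  obtain ⟨ρ, hρ1, hρn, hρ0⟩ := exists_corner_state (g (single 0 0 1))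
    (by rw [← map_mul, Matrix.single_mul_single_same, mul_one])
    (by rw [← map_star, hss])
    (by
      intro h0
      have := hg (h0.trans (map_zero g).symm)
      have h1 := congr_fun (congr_fun this 0) 0
      simp at h1)
  have hgn : ∀ x, ‖g x‖ ≤ ‖x‖ := fun x => NonUnitalStarAlgHom.norm_apply_le g x
  have hsn : ∀ i j : ZMod k, ‖(single i j (1:ℂ) : Matrix (ZMod k) (ZMod k) ℂ)‖ ≤ 1 := by
    intro i j
    rw [← posSemidef_one_sub_iff, ← Matrix.star_eq_conjTranspose, hss,
      Matrix.single_mul_single_same, mul_one]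
    have : (1 : Matrix (ZMod k) (ZMod k) ℂ) - single j j 1
        = diagonal (fun i => if i = j then (0:ℂ) else 1) := by
      ext a b
      by_cases hab : a = b
      · subst hab
        by_cases haj : a = j
        · subst haj; simp
        · simp [Ne.symm haj, eq_comm]
      · simp only [Matrix.sub_apply, Matrix.one_apply_ne hab, Matrix.single_apply,
          Matrix.diagonal_apply_ne _ hab]
        rw [if_neg]
        · simp
        · rintro ⟨rfl, rfl⟩
          exact hab rfl
    rw [this]
    refine Matrix.PosSemidef.diagonal ?_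
    intro i
    show (0:ℂ) ≤ if i = j then (0:ℂ) else 1
    split_ifs
    · exact le_rfl
    · exact zero_le_one
  -- the Choi matrix
  set C : Matrix (Fin N × ZMod k) (Fin N × ZMod k) ℂ := Matrix.of fun a b =>
    ρ (g (single 0 a.2 1) * ψ (single a.1 b.1 1) * g (single b.2 0 1)) with hC
  have hCq : ∀ x : Fin N × ZMod k → ℂ, 0 ≤ star x ⬝ᵥ (C *ᵥ x) := by
    intro x
    rcases isEmpty_or_nonempty (Fin N) with hN | ⟨⟨i0⟩⟩
    · have : star x ⬝ᵥ (C *ᵥ x) = 0 := by
        simp [dotProduct]
      rw [this]
    · set yy : Fin N → U := fun i => g (∑ t, x (i, t) • single t 0 (1:ℂ)) with hyy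
      obtain ⟨s, hs'⟩ := hψ N (fun i => single i0 i (1:ℂ)) yy
      have e1 : ∀ i, yy i * g (single 0 0 1) = yy i := by
        intro i
        rw [hyy]
        simp only
        rw [← map_mul, Finset.sum_mul]
        congr 1
        refine Finset.sum_congr rfl fun t _ => ?_
        rw [Matrix.smul_mul, Matrix.single_mul_single_same, mul_one]
      have e2 : star x ⬝ᵥ (C *ᵥ x) = ρ (∑ i, ∑ j, star (yy i) * ψ (star (single i0 i (1:ℂ)) *
          single i0 j (1:ℂ)) * yy j) := by
        have e3 : ∀ i j : Fin N, star (single i0 i (1:ℂ)) * single i0 j (1:ℂ) = single i j 1 := by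
          intro i j
          rw [Matrix.star_eq_conjTranspose]
          have : (single i0 i (1:ℂ))ᴴ = single i i0 1 := by
            ext a b
            simp [Matrix.single_apply, Matrix.conjTranspose_apply, and_comm, apply_ite]
          rw [this, Matrix.single_mul_single_same, mul_one]
        simp only [e3]
        have e4 : ∀ i, star (yy i) = ∑ t, star (x (i, t)) • g (single 0 t 1) := by
          intro i
          rw [hyy]
          simp only
          rw [← map_star, star_sum, map_sum]
          refine Finset.sum_congr rfl fun t _ => ?_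
          rw [star_smul, hss, map_smul]
        have e5 : ∀ j, yy j = ∑ t, x (j, t) • g (single t 0 1) := by
          intro j
          rw [hyy]
          simp only
          rw [map_sum]
          refine Finset.sum_congr rfl fun t _ => ?_
          rw [map_smul]
        simp only [e4]
        simp only [e5]
        rw [map_sum]
        simp only [dotProduct, Matrix.mulVec, Fintype.sum_prod_type, Pi.star_apply]
        refine Finset.sum_congr rfl fun i _ => ?_
        rw [map_sum]
        simp only [Finset.mul_sum]
        rw [Finset.sum_comm]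
        refine Finset.sum_congr rfl fun j _ => ?_
        rw [Finset.sum_comm, map_sum]
        refine Finset.sum_congr rfl fun t _ => ?_
        rw [Finset.sum_mul, Finset.sum_mul, map_sum]
        refine Finset.sum_congr rfl fun s _ => ?_
        rw [hC]
        simp only [Matrix.of_apply]
        rw [smul_mul_assoc, smul_mul_assoc, mul_smul_comm, map_smul, map_smul, smul_eq_mul,
          smul_eq_mul]
        ring
      rw [e2, hs']
      have e6 : star s * s = star (s * g (single 0 0 1)) * (s * g (single 0 0 1)) := by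
        have e7 : (star s * s) * g (single 0 0 1) = star s * s := by
          rw [← hs', Finset.sum_mul]
          refine Finset.sum_congr rfl fun i _ => ?_
          rw [Finset.sum_mul]
          refine Finset.sum_congr rfl fun j _ => ?_
          rw [mul_assoc, e1]
        have e8 := congrArg star e7
        rw [star_mul, ← map_star, hss, star_mul, star_star] at e8
        rw [star_mul, ← map_star, hss]
        calc star s * s = g (single 0 0 1) * (star s * s) := e8.symm
          _ = g (single 0 0 1) * ((star s * s) * g (single 0 0 1)) := by rw [e7]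
          _ = _ := by simp only [mul_assoc]
      rw [e6]
      exact hρ0 s
  have hCpsd : C.PosSemidef := posSemidef_of_quad C hCq
  have htr : (C.trace).re ≤ Fintype.card (ZMod k) := by
    have e1 : C.trace = ∑ s : ZMod k, ρ (g (single 0 s 1) * ψ 1 * g (single s 0 1)) := by
      rw [Matrix.trace, Fintype.sum_prod_type, Finset.sum_comm]
      refine Finset.sum_congr rfl fun s _ => ?_
      simp only [hC, Matrix.diag_apply, Matrix.of_apply]
      rw [← map_sum, ← Finset.sum_mul, ← Finset.mul_sum, ← map_sum, Matrix.sum_single_one]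
    rw [e1, Complex.re_sum]
    calc ∑ s : ZMod k, (ρ (g (single 0 s 1) * ψ 1 * g (single s 0 1))).re
        ≤ ∑ _s : ZMod k, (1:ℝ) := by
          refine Finset.sum_le_sum fun s _ => ?_
          refine (Complex.re_le_norm _).trans ((hρn _).trans ?_)
          have h1 : ‖ψ 1‖ ≤ 1 := hψ1 1 (by simp [Matrix.PosSemidef.zero])
          calc ‖g (single 0 s 1) * ψ 1 * g (single s 0 1)‖
              ≤ ‖g (single 0 s 1)‖ * ‖ψ 1‖ * ‖g (single s 0 1)‖ := norm_mul₃_le
            _ ≤ 1 * 1 * 1 := by
                gcongr
                · exact (hgn _).trans (hsn _ _)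
                · exact (hgn _).trans (hsn _ _)
            _ = 1 := by norm_num
      _ = _ := by simp
  have hmain : ∀ j : Bool × Bool, (1 - 1 / 20000) * (Fintype.card (ZMod k) : ℝ) ≤
      (∑ s, ∑ t, ∑ i, ∑ i', star (dl k j.1 (hh j.2) s t) * T j i i' * C (i, s) (i', t)).re := by
    intro j
    set w := dl k j.1 (hh j.2) with hw
    have hwn : ‖w‖ ≤ 1 := by
      rw [← posSemidef_one_sub_iff, hw, dl_unitary, sub_self]
      exact Matrix.PosSemidef.zero
    have e1 : ∑ s, ∑ t, ∑ i, ∑ i', star (w s t) * T j i i' * C (i, s) (i', t)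
        = ∑ t, ρ (g (single 0 t 1 * star w) * ψ (T j) * g (single t 0 1)) := by
      rw [Finset.sum_comm]
      refine Finset.sum_congr rfl fun t _ => ?_
      have e2 : single 0 t 1 * star w = ∑ s, star (w s t) • single 0 s (1:ℂ) := by
        ext a b
        rw [Matrix.sum_apply]
        simp only [Matrix.smul_apply, Matrix.single_apply, smul_eq_mul]
        by_cases ha : a = 0
        · subst ha
          rw [Matrix.single_mul_apply_same]
          rw [Finset.sum_eq_single b]
          · simp [Matrix.star_apply]
          · intro s _ hsb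
            simp [hsb]
          · simp
        · rw [Matrix.single_mul_apply_of_ne _ _ _ _ _ ha]
          symm
          refine Finset.sum_eq_zero fun s _ => ?_
          rw [if_neg]
          · simp
          · rintro ⟨h, _⟩
            exact ha h.symm
      rw [e2, map_sum, Finset.sum_mul, Finset.sum_mul, map_sum]
      refine Finset.sum_congr rfl fun s _ => ?_
      have e3 : T j = ∑ i, ∑ i', T j i i' • single i i' (1:ℂ) := by
        conv_lhs => rw [Matrix.matrix_eq_sum_single (T j)]
        refine Finset.sum_congr rfl fun i _ => Finset.sum_congr rfl fun i' _ => ?_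
        rw [Matrix.smul_single, smul_eq_mul, mul_one]
      conv_rhs => rw [e3]
      rw [map_sum, Finset.mul_sum, Finset.sum_mul, map_sum]
      refine Finset.sum_congr rfl fun i _ => ?_
      rw [map_sum, Finset.mul_sum, Finset.sum_mul, map_sum]
      refine Finset.sum_congr rfl fun i' _ => ?_
      rw [map_smul, map_smul, smul_mul_assoc, smul_mul_assoc, mul_smul_comm, smul_mul_assoc,
        map_smul, map_smul, smul_eq_mul, smul_eq_mul, hC]
      simp only [Matrix.of_apply]
      ring
    rw [e1, Complex.re_sum]
    have e4 : ∀ t : ZMod k, 1 - 1 / 20000 ≤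
        (ρ (g (single 0 t 1 * star w) * ψ (T j) * g (single t 0 1))).re := by
      intro t
      have e5 : ρ (g (single 0 t 1 * star w) * u j * g (single t 0 1)) = 1 := by
        have e6 : u j * g (single t 0 1) = g (w * single t 0 1) := by
          rw [map_mul, ← hj j, mul_assoc, ← map_mul, Matrix.one_mul]
        rw [mul_assoc, e6, ← map_mul, Matrix.mul_assoc, ← Matrix.mul_assoc (star w),
          Matrix.star_eq_conjTranspose, hw, dl_unitary, Matrix.one_mul,
          Matrix.single_mul_single_same, mul_one, hρ1]
      have e7 : ρ (g (single 0 t 1 * star w) * ψ (T j) * g (single t 0 1))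
          = 1 + ρ (g (single 0 t 1 * star w) * (ψ (T j) - u j) * g (single t 0 1)) := by
        have e9 : g (single 0 t 1 * star w) * ψ (T j) * g (single t 0 1)
            = g (single 0 t 1 * star w) * u j * g (single t 0 1)
              + g (single 0 t 1 * star w) * (ψ (T j) - u j) * g (single t 0 1) := by
          noncomm_ring
        rw [e9, map_add, e5]
      have e8 : ‖ρ (g (single 0 t 1 * star w) * (ψ (T j) - u j) * g (single t 0 1))‖
          ≤ 1 / 20000 := by
        refine (hρn _).trans ?_
        have h1 : ‖ψ (T j) - u j‖ ≤ 1 / 20000 :=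
          (happ (u j) (Finset.mem_image_of_mem _ (Finset.mem_univ j))).le
        have h2 : ‖g (single 0 t 1 * star w)‖ ≤ 1 := by
          refine (hgn _).trans ((norm_mul_le _ _).trans ?_)
          rw [norm_star]
          calc ‖(single 0 t (1:ℂ) : Matrix (ZMod k) (ZMod k) ℂ)‖ * ‖w‖ ≤ 1 * 1 := by
                gcongr
                exact hsn _ _
            _ = 1 := by norm_num
        calc ‖g (single 0 t 1 * star w) * (ψ (T j) - u j) * g (single t 0 1)‖
            ≤ ‖g (single 0 t 1 * star w)‖ * ‖ψ (T j) - u j‖ * ‖g (single t 0 1)‖ := norm_mul₃_le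
          _ ≤ 1 * (1 / 20000) * 1 := by
              gcongr
              exact (hgn _).trans (hsn _ _)
          _ = 1 / 20000 := by norm_num
      rw [e7, Complex.add_re, Complex.one_re]
      have := (Complex.abs_re_le_norm _).trans e8
      have := (abs_le.1 this).1
      linarith
    calc (1 - 1 / 20000) * (Fintype.card (ZMod k) : ℝ) = ∑ _t : ZMod k, (1 - 1 / 20000 : ℝ) := by
          simp; ring
      _ ≤ _ := Finset.sum_le_sum fun t _ => e4 t
  obtain ⟨V, hV0, hV⟩ := extract C hCpsd (1 / 20000) (by norm_num) (by norm_num)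
    (by rw [ZMod.card]; exact Nat.pos_of_ne_zero (NeZero.ne k)) htr
    (fun j : Bool × Bool => dl k j.1 (hh j.2)) (fun j => dl_unitary' _ _) T hT hmain
  refine no_kraus (by simpa using hK) V hV0 T hT _ ?_ hV
  simp
  norm_num

end Pool.Agent.MP_162c54_lc
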