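import Mathlib

set_option autoImplicit false
open scoped ComplexOrder
open Cardinal

namespace Pool.Agent.MP_162c54_lc

universe u

/-- Nuclearity of a C*-algebra: the completely positive approximation property.  For every finite
set `F` and `ε > 0` there are completely positive contractions `φ : A → M_n(ℂ)` and
`ψ : M_n(ℂ) → A` with `‖ψ (φ a) - a‖ < ε` on `F`.  (Same formula as in the frozen statements.) -/
def IsNuclear (A : Type*) [NonUnitalCStarAlgebra A] : Prop :=
  ∀ (F : Finset A) (ε : ℝ), 0 < ε → ∃ (n : ℕ) (φ : A →ₗ[ℂ] Matrix (Fin n) (Fin n) ℂ)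
      (ψ : Matrix (Fin n) (Fin n) ℂ →ₗ[ℂ] A),
    (∀ (m : ℕ) (x : Fin m → A),
      (Matrix.of (fun p q : Fin m × Fin n => φ (star (x p.1) * x q.1) p.2 q.2)).PosSemidef) ∧
    (∀ (m : ℕ) (Y : Fin m → Matrix (Fin n) (Fin n) ℂ) (y : Fin m → A),
      ∃ s : A, ∑ i, ∑ j, star (y i) * ψ (star (Y i) * Y j) * y j = star s * s) ∧
    (∀ a : A, ‖a‖ ≤ 1 → (1 - star (φ a) * φ a).PosSemidef) ∧
    (∀ M : Matrix (Fin n) (Fin n) ℂ, (1 - star M * M).PosSemidef → ‖ψ M‖ ≤ 1) ∧
    ∀ a ∈ F, ‖ψ (φ a) - a‖ < ε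

/-- Locally finite dimensional C*-algebras (also called locally AF): every finite set is approximately
contained in a finite dimensional *-subalgebra.  (Separable ones are exactly the AF algebras.) -/
def IsLocallyFinDim (A : Type*) [NonUnitalCStarAlgebra A] : Prop :=
  ∀ (F : Finset A) (ε : ℝ), 0 < ε → ∃ S : NonUnitalStarSubalgebra ℂ A,
    FiniteDimensional ℂ S ∧ ∀ a ∈ F, ∃ x ∈ S, ‖a - x‖ < ε

/-- There is a universal nuclear C*-algebra of density character `κ`. -/
def ExistsUniversalNuclear (κ : Cardinal.{u}) : Prop :=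
  ∃ (A : Type u) (_ : NonUnitalCStarAlgebra A), IsNuclear A ∧
    (∃ D : Set A, Dense D ∧ #D ≤ κ) ∧ (∀ D : Set A, Dense D → κ ≤ #D) ∧
    ∀ (B : Type u) [NonUnitalCStarAlgebra B], IsNuclear B → (∃ D : Set B, Dense D ∧ #D ≤ κ) →
      ∃ f : B →⋆ₙₐ[ℂ] A, Function.Injective f

/-- Every nuclear C*-algebra of density character at most `κ` fails to contain some nuclear, even
locally finite dimensional, C*-algebra of density character at most `κ`. -/
def NoNuclearContainsAll (κ : Cardinal.{u}) : Prop :=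
  ∀ (A : Type u) [NonUnitalCStarAlgebra A], IsNuclear A → (∃ D : Set A, Dense D ∧ #D ≤ κ) →
    ∃ (B : Type u) (_ : NonUnitalCStarAlgebra B), IsNuclear B ∧ IsLocallyFinDim B ∧
      (∃ D : Set B, Dense D ∧ #D ≤ κ) ∧ ¬ ∃ f : B →⋆ₙₐ[ℂ] A, Function.Injective f

end Pool.Agent.MP_162c54_lc
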