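import Pool.Agent.MP_162c54_lc.HS
import Pool.Agent.MP_162c54_lc.Cone

set_option autoImplicit false
set_option linter.unusedSectionVars false
open scoped ComplexOrder Matrix.Norms.L2Operator
open Matrix

namespace Pool.Agent.MP_162c54_lc

variable {k : ℕ} [NeZero k]

/-- the standard additive character of `ZMod k` -/
noncomputable def ee : AddChar (ZMod k) ℂ := ZMod.stdAddChar

lemma ee_norm (a : ZMod k) : ‖ee a‖ = 1 := by
  unfold ee
  rw [ZMod.stdAddChar_apply]
  exact Circle.norm_coe _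

lemma ee_star (a : ZMod k) : star (ee a) = ee (-a) := by
  have h1 : ee a * star (ee a) = 1 := by
    rw [Complex.star_def, Complex.mul_conj, Complex.normSq_eq_norm_sq, ee_norm]
    simp
  have h2 : ee a * ee (-a) = 1 := by
    rw [← AddChar.map_add_eq_mul, add_neg_cancel, AddChar.map_zero_eq_one]
  have h3 : ee a ≠ 0 := by
    intro h
    have := ee_norm a
    rw [h] at this
    simp at this
  exact mul_left_cancel₀ h3 (h1.trans h2.symm)

lemma ee_add (a b : ZMod k) : ee (a + b) = ee a * ee b := AddChar.map_add_eq_mul _ _ _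

lemma ee_sum (b : ZMod k) : ∑ x : ZMod k, ee (x * b) = if b = 0 then (k : ℂ) else 0 := by
  have := AddChar.sum_mulShift (R := ZMod k) (R' := ℂ) b (ZMod.isPrimitive_stdAddChar k)
  rw [ZMod.card] at this
  unfold ee
  rw [this]
  split_ifs <;> simp

lemma ee_leak (a : ZMod k) (h : (k : ℤ) ≤ 6 * |a.valMinAbs|) : 1 ≤ ‖ee a - 1‖ ^ 2 := by
  have hk : (0 : ℝ) < k := by exact_mod_cast Nat.pos_of_ne_zero (NeZero.ne k)
  set A := a.valMinAbs with hA
  have h1 : ee a = Complex.exp ((2 * Real.pi * A / k : ℝ) * Complex.I) := by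
    unfold ee
    conv_lhs => rw [← ZMod.coe_valMinAbs a]
    rw [ZMod.stdAddChar_coe]
    congr 1
    push_cast
    ring
  have h2 : ‖ee a - 1‖ ^ 2 = 2 - 2 * Real.cos (2 * Real.pi * A / k) := by
    rw [h1, ← Complex.normSq_eq_norm_sq, Complex.normSq_apply]
    simp only [Complex.sub_re, Complex.sub_im, Complex.exp_ofReal_mul_I_re,
      Complex.exp_ofReal_mul_I_im, Complex.one_re, Complex.one_im]
    nlinarith [Real.sin_sq_add_cos_sq (2 * Real.pi * A / k)]
  rw [h2]
  have h3 : Real.cos (2 * Real.pi * A / k) ≤ 1 / 2 := by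
    rw [← Real.cos_abs, ← Real.cos_pi_div_three]
    have h4 : |2 * Real.pi * A / k| = 2 * Real.pi * |(A:ℝ)| / k := by
      rw [abs_div, abs_mul, abs_mul, abs_two, abs_of_pos Real.pi_pos, abs_of_pos hk]
    rw [h4]
    have h5 : (k : ℝ) ≤ 6 * |(A:ℝ)| := by exact_mod_cast h
    have h6 : |(A:ℝ)| * 2 ≤ k := by
      have := ZMod.valMinAbs_mem_Ioc a
      rw [← hA] at this
      obtain ⟨h7, h8⟩ := this
      have h9 : |A| * 2 ≤ k := by
        rcases abs_cases A with ⟨h, _⟩ | ⟨h, _⟩ <;> rw [h] <;> omega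
      exact_mod_cast h9
    apply Real.cos_le_cos_of_nonneg_of_le_pi (by positivity)
    · rw [div_le_iff₀ hk]
      nlinarith [Real.pi_pos]
    · rw [div_le_div_iff₀ (by norm_num) hk]
      nlinarith [Real.pi_pos]
  linarith

/-- discrete Parseval -/
lemma parseval (f : ZMod k → ℂ) :
    ∑ b : ZMod k, ‖∑ j, f j * ee (-(b * j))‖ ^ 2 = k * ∑ j, ‖f j‖ ^ 2 := by
  have h1 : ∀ z : ℂ, ((‖z‖ ^ 2 : ℝ) : ℂ) = star z * z := by
    intro z
    rw [Complex.star_def, ← Complex.normSq_eq_conj_mul_self, Complex.normSq_eq_norm_sq]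
  have h2 : ((∑ b : ZMod k, ‖∑ j, f j * ee (-(b * j))‖ ^ 2 : ℝ) : ℂ)
      = ((k * ∑ j, ‖f j‖ ^ 2 : ℝ) : ℂ) := by
    rw [Complex.ofReal_sum]
    calc ∑ b : ZMod k, ((‖∑ j, f j * ee (-(b * j))‖ ^ 2 : ℝ) : ℂ)
        = ∑ b : ZMod k, ∑ i, ∑ j, star (f i) * f j * ee (b * (i - j)) := by
          refine Finset.sum_congr rfl fun b _ => ?_
          rw [h1, star_sum, Finset.sum_mul_sum]
          refine Finset.sum_congr rfl fun i _ => Finset.sum_congr rfl fun j _ => ?_
          rw [star_mul', ee_star, neg_neg]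
          have : b * (i - j) = b * i + -(b * j) := by ring
          rw [this, ee_add]
          ring
      _ = ∑ i, ∑ j, star (f i) * f j * ∑ b, ee (b * (i - j)) := by
          rw [Finset.sum_comm]
          refine Finset.sum_congr rfl fun i _ => ?_
          rw [Finset.sum_comm]
          refine Finset.sum_congr rfl fun j _ => ?_
          rw [Finset.mul_sum]
      _ = ∑ i, star (f i) * f i * k := by
          refine Finset.sum_congr rfl fun i _ => ?_
          rw [Finset.sum_eq_single i]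
          · rw [ee_sum]; simp
          · intro j _ hj
            rw [ee_sum, if_neg (sub_ne_zero.2 (Ne.symm hj)), mul_zero]
          · simp
      _ = _ := by
          push_cast
          rw [Finset.mul_sum]
          refine Finset.sum_congr rfl fun i _ => ?_
          have := h1 (f i)
          push_cast at this
          rw [this]
          ring
  exact_mod_cast h2

/-- Weyl coefficients (not normalised) -/
noncomputable def co (y : Matrix (ZMod k) (ZMod k) ℂ) (v : ZMod k × ZMod k) : ℂ :=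
  ∑ j, y (j + v.1) j * ee (-(v.2 * j))

/-- summation over a matrix along the diagonals -/
lemma sum_diag (f : ZMod k → ZMod k → ℝ) : ∑ i, ∑ j, f i j = ∑ a, ∑ j, f (j + a) j := by
  rw [Finset.sum_comm]
  rw [Finset.sum_comm (f := fun a j => f (j + a) j)]
  refine Finset.sum_congr rfl fun j _ => ?_
  exact (Equiv.sum_comp (Equiv.addLeft j) (fun i => f i j)).symm

/-- weighted Parseval for the Weyl coefficients -/
lemma co_weighted (y : Matrix (ZMod k) (ZMod k) ℂ) (w : ZMod k → ℝ) :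
    ∑ v : ZMod k × ZMod k, w v.1 * ‖co y v‖ ^ 2 = k * ∑ a, w a * ∑ j, ‖y (j + a) j‖ ^ 2 := by
  rw [Fintype.sum_prod_type, Finset.mul_sum]
  refine Finset.sum_congr rfl fun a _ => ?_
  dsimp only
  rw [← Finset.mul_sum]
  unfold co
  rw [parseval (fun j => y (j + a) j)]
  ring

lemma co_parseval (y : Matrix (ZMod k) (ZMod k) ℂ) :
    ∑ v : ZMod k × ZMod k, ‖co y v‖ ^ 2 = k * hs y := by
  have := co_weighted y (fun _ => 1)
  simp only [one_mul] at this
  rw [this]
  unfold hs
  rw [sum_diag (fun i j => ‖y i j‖ ^ 2)]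

/-- clock and chirp -/
noncomputable def Zm (k : ℕ) [NeZero k] : Matrix (ZMod k) (ZMod k) ℂ := diagonal fun j => ee j
noncomputable def Qm (k : ℕ) [NeZero k] : Matrix (ZMod k) (ZMod k) ℂ :=
  diagonal fun j => ee (j ^ 2)

lemma hs_Z (y : Matrix (ZMod k) (ZMod k) ℂ) :
    k * hs (Zm k * y - y * Zm k) = ∑ v : ZMod k × ZMod k, ‖ee v.1 - 1‖ ^ 2 * ‖co y v‖ ^ 2 := by
  rw [co_weighted y (fun a => ‖ee a - 1‖ ^ 2)]
  congr 1
  unfold hs
  rw [sum_diag (fun i j => ‖(Zm k * y - y * Zm k) i j‖ ^ 2)]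
  refine Finset.sum_congr rfl fun a _ => ?_
  rw [Finset.mul_sum]
  refine Finset.sum_congr rfl fun j _ => ?_
  rw [Matrix.sub_apply, Zm, Matrix.diagonal_mul, Matrix.mul_diagonal, ee_add]
  have : ee j * ee a * y (j + a) j - y (j + a) j * ee j = ee j * ((ee a - 1) * y (j + a) j) := by
    ring
  rw [this, norm_mul, norm_mul, ee_norm, one_mul, mul_pow]

lemma hs_Q (y : Matrix (ZMod k) (ZMod k) ℂ) :
    ∑ v : ZMod k × ZMod k, (‖co y (v.1, v.2 - 2 * v.1)‖ - ‖co y v‖) ^ 2
      ≤ k * hs (Qm k * y - y * Qm k) := by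
  have h1 : hs (Qm k * y - y * Qm k) = hs (Qm k * y * (Qm k)ᴴ - y) := by
    have hQ : Qm k * (Qm k)ᴴ = 1 := by
      rw [Qm, Matrix.diagonal_conjTranspose, Matrix.diagonal_mul_diagonal, ← Matrix.diagonal_one]
      congr 1
      funext j
      rw [Pi.star_apply, ee_star, ← ee_add, add_neg_cancel]
      exact AddChar.map_zero_eq_one _
    rw [← hs_mul_coisometry ((Qm k)ᴴ) (by
      rw [Matrix.conjTranspose_conjTranspose]
      exact mul_eq_one_comm.1 hQ) (Qm k * y - y * Qm k)]
    rw [Matrix.sub_mul, Matrix.mul_assoc y, hQ, Matrix.mul_one]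
  rw [h1, ← co_parseval]
  refine Finset.sum_le_sum fun v _ => ?_
  have h2 : co (Qm k * y * (Qm k)ᴴ - y) v = ee (v.1 ^ 2) * co y (v.1, v.2 - 2 * v.1) - co y v := by
    unfold co
    rw [Finset.mul_sum, ← Finset.sum_sub_distrib]
    refine Finset.sum_congr rfl fun j _ => ?_
    rw [Matrix.sub_apply, Qm, Matrix.diagonal_conjTranspose, Matrix.mul_diagonal,
      Matrix.diagonal_mul, Pi.star_apply, ee_star]
    have : ee ((j + v.1) ^ 2) * ee (-(j ^ 2)) * ee (-(v.2 * j))
        = ee (v.1 ^ 2) * ee (-((v.2 - 2 * v.1) * j)) := by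
      rw [← ee_add, ← ee_add, ← ee_add]
      congr 1
      ring
    linear_combination (y (j + v.1) j) * this
  rw [h2]
  have h3 := abs_norm_sub_norm_le (ee (v.1 ^ 2) * co y (v.1, v.2 - 2 * v.1)) (co y v)
  rw [norm_mul, ee_norm, one_mul] at h3
  rw [← sq_abs]
  exact pow_le_pow_left₀ (abs_nonneg _) h3 2

/-- the Fourier matrix -/
noncomputable def Fm (k : ℕ) [NeZero k] : Matrix (ZMod k) (ZMod k) ℂ :=
  Matrix.of fun x j => ((Real.sqrt k : ℝ) : ℂ)⁻¹ * ee (x * j)

lemma sqrt_k_sq : (((Real.sqrt k : ℝ) : ℂ)⁻¹) * (((Real.sqrt k : ℝ) : ℂ)⁻¹) = ((k : ℂ))⁻¹ := by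
  rw [← mul_inv, ← Complex.ofReal_mul, Real.mul_self_sqrt (Nat.cast_nonneg k)]
  simp

lemma Fm_isom : (Fm k)ᴴ * Fm k = 1 := by
  have hk : (k : ℂ) ≠ 0 := by exact_mod_cast NeZero.ne k
  ext i j
  rw [Matrix.mul_apply]
  simp only [Matrix.conjTranspose_apply, Fm, Matrix.of_apply]
  have h1 : ∀ x : ZMod k, star (((Real.sqrt k : ℝ) : ℂ)⁻¹ * ee (x * i)) *
      (((Real.sqrt k : ℝ) : ℂ)⁻¹ * ee (x * j)) = ((k : ℂ))⁻¹ * ee (x * (j - i)) := by
    intro x
    rw [star_mul', ee_star, ← sqrt_k_sq]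
    have : x * (j - i) = -(x * i) + x * j := by ring
    rw [this, ee_add]
    simp only [star_inv₀, Complex.star_def, Complex.conj_ofReal]
    ring
  simp only [h1]
  rw [← Finset.mul_sum, ee_sum]
  by_cases h : i = j
  · subst h
    simp [hk]
  · rw [Matrix.one_apply_ne h, if_neg (sub_ne_zero.2 (Ne.symm h)), mul_zero]

lemma Fm_coisom : Fm k * (Fm k)ᴴ = 1 := mul_eq_one_comm.1 Fm_isom

lemma co_fourier (y : Matrix (ZMod k) (ZMod k) ℂ) (v : ZMod k × ZMod k) :
    co ((Fm k)ᴴ * y * Fm k) v = ee (v.1 * v.2) * co y (-v.2, v.1) := by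
  have hk : (k : ℂ) ≠ 0 := by exact_mod_cast NeZero.ne k
  obtain ⟨a, b⟩ := v
  have h1 : ∀ i j, ((Fm k)ᴴ * y * Fm k) i j
      = ∑ x, ∑ z, (k : ℂ)⁻¹ * (y x z * ee (-(x * i) + z * j)) := by
    intro i j
    rw [Matrix.mul_apply, Finset.sum_comm]
    refine Finset.sum_congr rfl fun z _ => ?_
    rw [Matrix.mul_apply, Finset.sum_mul]
    refine Finset.sum_congr rfl fun x _ => ?_
    simp only [Matrix.conjTranspose_apply, Fm, Matrix.of_apply]
    rw [star_mul', ee_star, ← sqrt_k_sq, ee_add]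
    simp only [star_inv₀, Complex.star_def, Complex.conj_ofReal]
    ring
  unfold co
  simp only [h1]
  calc ∑ j, (∑ x, ∑ z, (k : ℂ)⁻¹ * (y x z * ee (-(x * (j + a)) + z * j))) * ee (-(b * j))
      = ∑ x, ∑ z, (k : ℂ)⁻¹ * (y x z * ee (-(x * a))) * ∑ j, ee (j * (z - x - b)) := by
        simp only [Finset.sum_mul, Finset.mul_sum]
        rw [Finset.sum_comm]
        refine Finset.sum_congr rfl fun x _ => ?_
        rw [Finset.sum_comm]
        refine Finset.sum_congr rfl fun z _ => Finset.sum_congr rfl fun j _ => ?_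
        have : ee (-(x * (j + a)) + z * j) * ee (-(b * j))
            = ee (-(x * a)) * ee (j * (z - x - b)) := by
          rw [← ee_add, ← ee_add]
          congr 1
          ring
        linear_combination ((k : ℂ)⁻¹ * y x z) * this
    _ = ∑ x, y x (x + b) * ee (-(x * a)) := by
        refine Finset.sum_congr rfl fun x _ => ?_
        rw [Finset.sum_eq_single (x + b)]
        · rw [ee_sum, if_pos (by ring)]
          field_simp
        · intro z _ hz
          rw [ee_sum, if_neg, mul_zero]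
          intro h
          apply hz
          linear_combination h
        · simp
    _ = ∑ j, ee (a * b) * (y (j + -b) j * ee (-(a * j))) := by
        rw [← Equiv.sum_comp (Equiv.addRight (-b))]
        refine Finset.sum_congr rfl fun j _ => ?_
        simp only [Equiv.coe_addRight]
        have h2 : j + -b + b = j := by ring
        have h3 : ee (-((j + -b) * a)) = ee (a * b) * ee (-(a * j)) := by
          rw [← ee_add]
          congr 1
          ring
        rw [h2, h3]
        ring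
    _ = _ := by rw [Finset.mul_sum]

/-- **Spectral gap** for conjugation by clock, chirp and their Fourier conjugates. -/
theorem gap (y : Matrix (ZMod k) (ZMod k) ℂ) (htr : y.trace = 0)
    (h1 : hs (Zm k * y - y * Zm k) ≤ hs y / 100)
    (h2 : hs (Qm k * y - y * Qm k) ≤ hs y / 100)
    (h3 : hs (Zm k * ((Fm k)ᴴ * y * Fm k) - ((Fm k)ᴴ * y * Fm k) * Zm k) ≤ hs y / 100)
    (h4 : hs (Qm k * ((Fm k)ᴴ * y * Fm k) - ((Fm k)ᴴ * y * Fm k) * Qm k) ≤ hs y / 100) :
    hs y = 0 := by
  have hk : (0 : ℝ) < k := by exact_mod_cast Nat.pos_of_ne_zero (NeZero.ne k)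
  set yh := (Fm k)ᴴ * y * Fm k with hyh
  set m : ZMod k × ZMod k → ℝ := fun v => ‖co y v‖ with hm
  have hmh : ∀ v, ‖co yh v‖ = m (-v.2, v.1) := by
    intro v
    rw [hyh, co_fourier, norm_mul, ee_norm, one_mul]
  have hV : ∑ v, m v ^ 2 = k * hs y := co_parseval y
  let rot : (ZMod k × ZMod k) ≃ (ZMod k × ZMod k) :=
    { toFun := fun v => (-v.2, v.1)
      invFun := fun v => (v.2, -v.1)
      left_inv := fun v => by ext <;> simp
      right_inv := fun v => by ext <;> simp }
  have key := cone_ineq k m (k * hs y) ?_ hV ?_ ?_ ?_ ?_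
  · rcases mul_eq_zero.1 key with h | h
    · exact absurd h hk.ne'
    · exact h
  · show ‖co y (0, 0)‖ = 0
    rw [norm_eq_zero]
    unfold co
    simp only [add_zero, zero_mul, neg_zero, AddChar.map_zero_eq_one, mul_one]
    exact htr
  · calc ∑ v : ZMod k × ZMod k, (if (k : ℤ) ≤ 6 * |v.1.valMinAbs| then m v ^ 2 else 0)
        ≤ ∑ v : ZMod k × ZMod k, ‖ee v.1 - 1‖ ^ 2 * ‖co y v‖ ^ 2 := by
          refine Finset.sum_le_sum fun v _ => ?_
          split_ifs with h
          · have := ee_leak v.1 h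
            have h5 : 0 ≤ ‖co y v‖ ^ 2 := by positivity
            show ‖co y v‖ ^ 2 ≤ _
            nlinarith
          · positivity
      _ = k * hs (Zm k * y - y * Zm k) := (hs_Z y).symm
      _ ≤ k * hs y / 100 := by
          rw [mul_div_assoc]
          exact mul_le_mul_of_nonneg_left h1 hk.le
  · calc ∑ v : ZMod k × ZMod k, (if (k : ℤ) ≤ 6 * |v.2.valMinAbs| then m v ^ 2 else 0)
        = ∑ v : ZMod k × ZMod k, (if (k : ℤ) ≤ 6 * |v.1.valMinAbs| then m (-v.2, v.1) ^ 2 else 0) :=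
          (Equiv.sum_comp rot (fun v : ZMod k × ZMod k =>
            (if (k : ℤ) ≤ 6 * |v.2.valMinAbs| then m v ^ 2 else 0))).symm
      _ ≤ ∑ v : ZMod k × ZMod k, ‖ee v.1 - 1‖ ^ 2 * ‖co yh v‖ ^ 2 := by
          refine Finset.sum_le_sum fun v _ => ?_
          rw [hmh]
          split_ifs with h
          · have := ee_leak v.1 h
            have h5 : 0 ≤ m (-v.2, v.1) ^ 2 := by positivity
            nlinarith
          · positivity
      _ = k * hs (Zm k * yh - yh * Zm k) := (hs_Z yh).symm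
      _ ≤ k * hs y / 100 := by
          rw [mul_div_assoc]
          exact mul_le_mul_of_nonneg_left h3 hk.le
  · let sh : (ZMod k × ZMod k) ≃ (ZMod k × ZMod k) :=
      { toFun := fun v => (v.1, v.2 - 2 * v.1)
        invFun := fun v => (v.1, v.2 + 2 * v.1)
        left_inv := fun v => by ext <;> simp
        right_inv := fun v => by ext <;> simp }
    calc ∑ v : ZMod k × ZMod k, (m (v.1, v.2 + 2 * v.1) - m v) ^ 2
        = ∑ v : ZMod k × ZMod k, (m (v.1, v.2 - 2 * v.1 + 2 * v.1) - m (v.1, v.2 - 2 * v.1)) ^ 2 :=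
          (Equiv.sum_comp sh (fun v : ZMod k × ZMod k =>
            (m (v.1, v.2 + 2 * v.1) - m v) ^ 2)).symm
      _ = ∑ v : ZMod k × ZMod k, (‖co y (v.1, v.2 - 2 * v.1)‖ - ‖co y v‖) ^ 2 := by
          refine Finset.sum_congr rfl fun v _ => ?_
          rw [sub_add_cancel]
          show (‖co y (v.1, v.2)‖ - ‖co y (v.1, v.2 - 2 * v.1)‖) ^ 2 = _
          rw [Prod.mk.eta]
          ring
      _ ≤ k * hs (Qm k * y - y * Qm k) := hs_Q y
      _ ≤ k * hs y / 100 := by
          rw [mul_div_assoc]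
          exact mul_le_mul_of_nonneg_left h2 hk.le
  · calc ∑ v : ZMod k × ZMod k, (m (v.1 + 2 * v.2, v.2) - m v) ^ 2
        = ∑ v : ZMod k × ZMod k, (m (-v.2 + 2 * v.1, v.1) - m (-v.2, v.1)) ^ 2 :=
          (Equiv.sum_comp rot (fun v : ZMod k × ZMod k =>
            (m (v.1 + 2 * v.2, v.2) - m v) ^ 2)).symm
      _ = ∑ v : ZMod k × ZMod k, (‖co yh (v.1, v.2 - 2 * v.1)‖ - ‖co yh v‖) ^ 2 := by
          refine Finset.sum_congr rfl fun v _ => ?_
          rw [hmh, hmh]
          have : -(v.2 - 2 * v.1) = -v.2 + 2 * v.1 := by ring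
          simp only [this]
      _ ≤ k * hs (Qm k * yh - yh * Qm k) := hs_Q yh
      _ ≤ k * hs y / 100 := by
          rw [mul_div_assoc]
          exact mul_le_mul_of_nonneg_left h4 hk.le

end Pool.Agent.MP_162c54_lc
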