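import Pool.Agent.MP_162c54_lc.Defs

set_option autoImplicit false
open Cardinal Ordinal Set

namespace Pool.Agent.MP_162c54_lc

universe u v

/-- the ordinals closed under `f` -/
def Cl (f : Ordinal.{u} → Ordinal.{u}) : Set Ordinal.{u} := {α | ∀ β < α, f β < α}

/-- the largest ordinal `≤ c` closed under `f` -/
noncomputable def top (f : Ordinal.{u} → Ordinal.{u}) (c : Ordinal.{u}) : Ordinal.{u} :=
  sSup (Cl f ∩ Iic c)

lemma zero_mem_Cl (f : Ordinal.{u} → Ordinal.{u}) : (0 : Ordinal.{u}) ∈ Cl f := by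
  intro β hβ
  exact absurd hβ (not_lt.2 (zero_le))

lemma Cl_anti {f g : Ordinal.{u} → Ordinal.{u}} (h : ∀ α, f α ≤ g α) : Cl g ⊆ Cl f :=
  fun _ hα β hβ => (h β).trans_lt (hα β hβ)

lemma top_bdd (f : Ordinal.{u} → Ordinal.{u}) (c : Ordinal.{u}) : BddAbove (Cl f ∩ Iic c) :=
  ⟨c, fun _ hx => hx.2⟩

lemma top_nonempty (f : Ordinal.{u} → Ordinal.{u}) (c : Ordinal.{u}) : (Cl f ∩ Iic c).Nonempty :=
  ⟨0, zero_mem_Cl f, mem_Iic.2 zero_le⟩

lemma top_mem (f : Ordinal.{u} → Ordinal.{u}) (c : Ordinal.{u}) : top f c ∈ Cl f := by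
  intro β hβ
  obtain ⟨e, he, hβe⟩ := exists_lt_of_lt_csSup (top_nonempty f c) hβ
  exact (he.1 β hβe).trans_le (le_csSup (top_bdd f c) he)

lemma top_le (f : Ordinal.{u} → Ordinal.{u}) (c : Ordinal.{u}) : top f c ≤ c :=
  csSup_le (top_nonempty f c) fun _ hx => hx.2

lemma le_top' {f : Ordinal.{u} → Ordinal.{u}} {c e : Ordinal.{u}} (he : e ∈ Cl f) (hec : e ≤ c) :
    e ≤ top f c := le_csSup (top_bdd f c) ⟨he, hec⟩

lemma top_anti {f g : Ordinal.{u} → Ordinal.{u}} (h : ∀ α, f α ≤ g α) (c : Ordinal.{u}) :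
    top g c ≤ top f c :=
  csSup_le_csSup (top_bdd f c) (top_nonempty g c)
    (inter_subset_inter_left _ (Cl_anti h))

section

variable {κ : Cardinal.{u}}

/-- `f` maps the ordinals below `κ` to themselves -/
def Self (κ : Cardinal.{u}) (f : Ordinal.{u} → Ordinal.{u}) : Prop := ∀ α < κ.ord, f α < κ.ord

lemma iSup_small_lt (hκ : κ.IsRegular) {ι : Type v} (g : ι → Ordinal.{u})
    (hι : Cardinal.lift.{u} #ι < Cardinal.lift.{v} κ) (hg : ∀ i, g i < κ.ord) :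
    ⨆ i, g i < κ.ord := by
  apply Ordinal.lift_iSup_lt_of_lt_cof _ hg
  rw [← lift_cof, hκ.cof_ord]
  exact hι

lemma iSup_Iio_lt (hκ : κ.IsRegular) {ζ : Ordinal.{u}} (hζ : ζ.card < κ)
    (g : Iio ζ → Ordinal.{u}) (hg : ∀ i, g i < κ.ord) : ⨆ i, g i < κ.ord := by
  apply iSup_small_lt hκ g _ hg
  rw [Cardinal.mk_Iio_ordinal, Cardinal.lift_lift]
  exact Cardinal.lift_lt.2 hζ

lemma iSup_countable_lt (hκ : κ.IsRegular) (hκ1 : ℵ₀ < κ) {ι : Type v} [Countable ι]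
    (g : ι → Ordinal.{u}) (hg : ∀ i, g i < κ.ord) : ⨆ i, g i < κ.ord := by
  apply iSup_small_lt hκ g _ hg
  calc Cardinal.lift.{u} #ι ≤ Cardinal.lift.{u} ℵ₀ := Cardinal.lift_le.2 (Cardinal.mk_le_aleph0)
    _ = ℵ₀ := Cardinal.lift_aleph0
    _ = Cardinal.lift.{v} ℵ₀ := Cardinal.lift_aleph0.symm
    _ < Cardinal.lift.{v} κ := Cardinal.lift_lt.2 hκ1

lemma succ_lt (hκ : κ.IsRegular) {α : Ordinal.{u}} (hα : α < κ.ord) : α + 1 < κ.ord :=
  (Cardinal.isSuccLimit_ord hκ.aleph0_le).add_one_lt hα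

/-- closed ordinals are unbounded below `κ` -/
lemma Cl_unbounded (hκ : κ.IsRegular) (hκ1 : ℵ₀ < κ) {f : Ordinal.{u} → Ordinal.{u}}
    (hf : Self κ f) {α : Ordinal.{u}} (hα : α < κ.ord) : ∃ e ∈ Cl f, α < e ∧ e < κ.ord := by
  set G : Ordinal.{u} → Ordinal.{u} := fun γ => ⨆ β : Iio γ, (f β + 1) with hG
  have hGs : ∀ γ < κ.ord, G γ < κ.ord := by
    intro γ hγ
    refine iSup_Iio_lt hκ (Cardinal.lt_ord.1 hγ) _ fun i => ?_
    exact succ_lt hκ (hf _ (i.2.trans hγ))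
  refine ⟨nfp G (α + 1), ?_, ?_, ?_⟩
  · intro β hβ
    obtain ⟨n, hn⟩ := Ordinal.lt_nfp_iff.1 hβ
    have h1 : f β + 1 ≤ G (G^[n] (α + 1)) :=
      Ordinal.le_iSup (fun β : Iio (G^[n] (α + 1)) => f β + 1) ⟨β, hn⟩
    rw [← Function.iterate_succ_apply' G n (α + 1)] at h1
    exact (Order.lt_add_one_iff.2 le_rfl).trans_le (h1.trans (Ordinal.iterate_le_nfp G _ (n + 1)))
  · exact (Order.lt_add_one_iff.2 le_rfl).trans_le (Ordinal.iterate_le_nfp G _ 0)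
  · apply Ordinal.nfp_lt_ord _ hGs (succ_lt hκ hα)
    rw [hκ.cof_ord]; exact hκ1

/-- a transfinite iteration that dominates a reply function -/
noncomputable def itF (G : (Ordinal.{u} → Ordinal.{u}) → (Ordinal.{u} → Ordinal.{u}))
    (ζ : Ordinal.{u}) : Ordinal.{u} → Ordinal.{u} :=
  fun α => ⨆ ξ : Iio ζ, max (itF G ξ.1 α) (G (itF G ξ.1) α)
termination_by ζ
decreasing_by all_goals exact ξ.2

lemma itF_le (G : (Ordinal.{u} → Ordinal.{u}) → (Ordinal.{u} → Ordinal.{u}))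
    {ξ ζ : Ordinal.{u}} (h : ξ < ζ) (α : Ordinal.{u}) : itF G ξ α ≤ itF G ζ α := by
  rw [itF.eq_1 G ζ]
  exact (le_max_left _ _).trans
    (Ordinal.le_iSup (fun ξ : Iio ζ => max (itF G ξ.1 α) (G (itF G ξ.1) α)) ⟨ξ, h⟩)

lemma itF_le' (G : (Ordinal.{u} → Ordinal.{u}) → (Ordinal.{u} → Ordinal.{u}))
    {ξ ζ : Ordinal.{u}} (h : ξ < ζ) (α : Ordinal.{u}) : G (itF G ξ) α ≤ itF G ζ α := by
  rw [itF.eq_1 G ζ]
  exact (le_max_right _ _).trans
    (Ordinal.le_iSup (fun ξ : Iio ζ => max (itF G ξ.1 α) (G (itF G ξ.1) α)) ⟨ξ, h⟩)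

lemma itF_self (hκ : κ.IsRegular) (G : (Ordinal.{u} → Ordinal.{u}) → (Ordinal.{u} → Ordinal.{u}))
    (hG : ∀ f, Self κ f → Self κ (G f)) (ζ : Ordinal.{u}) (hζ : ζ.card < κ) :
    Self κ (itF G ζ) := by
  induction ζ using WellFoundedLT.induction with
  | ind ζ ih =>
    intro α hα
    rw [itF.eq_1 G ζ]
    refine iSup_Iio_lt hκ hζ _ fun ξ => ?_
    have h1 : Self κ (itF G ξ.1) := ih ξ.1 ξ.2 ((Ordinal.card_le_card ξ.2.le).trans_lt hζ)
    exact max_lt (h1 α hα) (hG _ h1 α hα)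

/-- `c` is a sequence cofinal in `δ` -/
def CofSeq (δ : Ordinal.{u}) (c : ℕ → Ordinal.{u}) : Prop :=
  (∀ n, c n < δ) ∧ ∀ β < δ, ∃ n, β ≤ c n

/-- `δ` is a limit of ordinals closed under `f` -/
def Acc (f : Ordinal.{u} → Ordinal.{u}) (δ : Ordinal.{u}) : Prop :=
  ∀ β < δ, ∃ e ∈ Cl f, β < e ∧ e < δ

/-- the main step of the club guessing theorem -/
theorem guess_aux (hκ : κ.IsRegular) (hκ1 : ℵ₁ < κ) (c : Ordinal.{u} → ℕ → Ordinal.{u})
    (hc : ∀ δ, (∃ s, CofSeq δ s) → CofSeq δ (c δ)) :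
    ∃ f₀, Self κ f₀ ∧ ∀ f, Self κ f → ∃ δ < κ.ord, Acc f₀ δ ∧ CofSeq δ (c δ) ∧
      ∀ n, top f₀ (c δ n) ∈ Cl f := by
  classical
  have hκ0 : ℵ₀ < κ := Cardinal.aleph0_lt_aleph_one.trans hκ1
  by_contra hcon
  push Not at hcon
  choose! g hg1 hg2 using hcon
  set G : (Ordinal.{u} → Ordinal.{u}) → (Ordinal.{u} → Ordinal.{u}) := g with hG
  have hself : ∀ ζ ≤ ω_ (1 : Ordinal.{u}), Self κ (itF G ζ) := by
    intro ζ hζ
    refine itF_self hκ G hg1 ζ ?_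
    refine lt_of_le_of_lt (Ordinal.card_le_card hζ) ?_
    rw [Ordinal.card_omega]
    exact hκ1
  set h := itF G (ω_ (1 : Ordinal.{u})) with hh
  have hh1 : Self κ h := hself _ le_rfl
  -- a sequence of closed ordinals
  let Q := {e : Ordinal.{u} // e ∈ Cl h ∧ e < κ.ord}
  have hκpos : (0 : Ordinal.{u}) < κ.ord := by
    rw [Cardinal.lt_ord, Ordinal.card_zero]; exact hκ.pos
  have : Nonempty Q := ⟨⟨0, zero_mem_Cl h, hκpos⟩⟩
  have : NoMaxOrder Q := ⟨by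
    rintro ⟨e, he1, he2⟩
    obtain ⟨e', h1, h2, h3⟩ := Cl_unbounded hκ hκ0 hh1 he2
    exact ⟨⟨e', h1, h3⟩, h2⟩⟩
  obtain ⟨s, hs⟩ := Nat.exists_strictMono Q
  set δ : Ordinal.{u} := ⨆ n, (s n).1 with hδ
  have hsδ : ∀ n, (s n).1 < δ := by
    intro n
    have h1 : (s n).1 < (s (n + 1)).1 := hs (Nat.lt_succ_self n)
    exact h1.trans_le (Ordinal.le_iSup (fun n => (s n).1) (n + 1))
  have hδκ : δ < κ.ord := iSup_countable_lt hκ hκ0 _ fun n => (s n).2.2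
  have hacc : Acc h δ := by
    intro β hβ
    obtain ⟨n, hn⟩ := Ordinal.lt_iSup_iff.1 hβ
    exact ⟨_, (s n).2.1, hn, hsδ n⟩
  have hcof : CofSeq δ (c δ) := hc δ ⟨fun n => (s n).1, hsδ, fun β hβ => by
    obtain ⟨n, hn⟩ := Ordinal.lt_iSup_iff.1 hβ
    exact ⟨n, hn.le⟩⟩
  have haccζ : ∀ ζ < ω_ (1 : Ordinal.{u}), Acc (itF G ζ) δ := by
    intro ζ hζ β hβ
    obtain ⟨e, he, h1, h2⟩ := hacc β hβ
    exact ⟨e, Cl_anti (itF_le G hζ) he, h1, h2⟩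
  -- stabilisation
  have hω1 : (0 : Ordinal.{u}) < ω_ (1 : Ordinal.{u}) := Ordinal.omega_pos 1
  have hst : ∀ n, ∃ ζ < ω_ (1 : Ordinal.{u}), ∀ ξ, ζ ≤ ξ → ξ < ω_ (1 : Ordinal.{u}) →
      top (itF G ξ) (c δ n) = top (itF G ζ) (c δ n) := by
    intro n
    set V : Set Ordinal.{u} := (fun ζ => top (itF G ζ) (c δ n)) '' Iio (ω_ (1 : Ordinal.{u}))
      with hV
    have hVne : V.Nonempty := ⟨_, 0, hω1, rfl⟩
    obtain ⟨ζ, hζ, hζv⟩ := csInf_mem hVne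
    refine ⟨ζ, hζ, fun ξ hξ hξ1 => ?_⟩
    apply le_antisymm
    · rcases hξ.eq_or_lt with rfl | hlt
      · exact le_rfl
      · exact top_anti (itF_le G hlt) _
    · have h1 : sInf V ≤ top (itF G ξ) (c δ n) := csInf_le' ⟨ξ, hξ1, rfl⟩
      rw [← hζv] at h1
      exact h1
  choose Z hZ1 hZ2 using hst
  have hreg1 : (ℵ₁ : Cardinal.{u}).IsRegular := Cardinal.isRegular_aleph_one
  have hord : (ℵ₁ : Cardinal.{u}).ord = ω_ (1 : Ordinal.{u}) := by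
    rw [Cardinal.ord_aleph]
  set z : Ordinal.{u} := ⨆ n, Z n with hz
  have hz1 : z < ω_ (1 : Ordinal.{u}) := by
    rw [← hord]
    exact iSup_countable_lt hreg1 Cardinal.aleph0_lt_aleph_one _ fun n => by
      rw [hord]; exact hZ1 n
  have hz2 : z + 1 < ω_ (1 : Ordinal.{u}) := by
    rw [← hord] at hz1 ⊢
    exact succ_lt hreg1 hz1
  obtain ⟨n, hn⟩ := hg2 (itF G z) (hself z hz1.le) δ hδκ (haccζ z hz1) hcof
  apply hn
  have h1 : top (itF G z) (c δ n) = top (itF G (z + 1)) (c δ n) := by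
    have hle : Z n ≤ z := Ordinal.le_iSup Z n
    rw [hZ2 n z hle hz1, hZ2 n (z + 1) (hle.trans (Order.le_succ z)) hz2]
  rw [h1]
  exact Cl_anti (itF_le' G (Order.lt_succ z)) (top_mem _ _)

/-- Club guessing: a family of strictly increasing sequences below `κ` such that every function on
`κ` has a sequence consisting of ordinals closed under it. -/
theorem exists_guess (hκ : κ.IsRegular) (hκ1 : ℵ₁ < κ) :
    ∃ C : Ordinal.{u} → ℕ → Ordinal.{u}, ∀ f, Self κ f → ∃ δ < κ.ord,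
      StrictMono (C δ) ∧ (∀ n, C δ n < κ.ord) ∧ (∀ n, 0 < C δ n) ∧ ∀ n, C δ n ∈ Cl f := by
  classical
  let c : Ordinal.{u} → ℕ → Ordinal.{u} := fun δ =>
    if h : ∃ s, CofSeq δ s then h.choose else fun _ => 0
  have hc : ∀ δ, (∃ s, CofSeq δ s) → CofSeq δ (c δ) := by
    intro δ h
    have : c δ = h.choose := dif_pos h
    rw [this]
    exact h.choose_spec
  obtain ⟨f₀, hf₀, hmain⟩ := guess_aux hκ hκ1 c hc
  let P : Ordinal.{u} → (ℕ → Ordinal.{u}) → Prop := fun δ s =>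
    StrictMono s ∧ ∀ n, 0 < s n ∧ ∃ m, s n = top f₀ (c δ m)
  refine ⟨fun δ => if h : ∃ s, P δ s then h.choose else fun _ => 0, fun f hf => ?_⟩
  obtain ⟨δ, hδ, hacc, hcof, htop⟩ := hmain f hf
  have hex : ∃ s, P δ s := by
    let T := {x : Ordinal.{u} // 0 < x ∧ ∃ m, x = top f₀ (c δ m)}
    have step : ∀ β < δ, ∃ x : T, β < x.1 := by
      intro β hβ
      obtain ⟨e, he1, he2, he3⟩ := hacc β hβ
      obtain ⟨m, hm⟩ := hcof.2 e he3
      have h1 : e ≤ top f₀ (c δ m) := le_top' he1 hm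
      refine ⟨⟨top f₀ (c δ m), ?_, m, rfl⟩, he2.trans_le h1⟩
      exact (zero_le.trans_lt he2).trans_le h1
    have hδ0 : 0 < δ := zero_le.trans_lt (hcof.1 0)
    have : Nonempty T := ⟨(step 0 hδ0).choose⟩
    have : NoMaxOrder T := ⟨by
      rintro ⟨x, hx0, m, rfl⟩
      obtain ⟨y, hy⟩ := step _ ((top_le f₀ (c δ m)).trans_lt (hcof.1 m))
      exact ⟨y, hy⟩⟩
    obtain ⟨s, hs⟩ := Nat.exists_strictMono T
    exact ⟨fun n => (s n).1, fun a b hab => hs hab, fun n => (s n).2⟩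
  have hC : (fun δ => if h : ∃ s, P δ s then h.choose else fun _ => 0) δ = hex.choose :=
    dif_pos hex
  have hP := hex.choose_spec
  refine ⟨δ, hδ, ?_, ?_, ?_, ?_⟩
  · rw [hC]; exact hP.1
  · intro n
    rw [hC]
    obtain ⟨-, m, hm⟩ := hP.2 n
    rw [hm]
    exact ((top_le f₀ _).trans_lt (hcof.1 m)).trans hδ
  · intro n
    rw [hC]
    exact (hP.2 n).1
  · intro n
    rw [hC]
    obtain ⟨-, m, hm⟩ := hP.2 n
    rw [hm]
    exact htop m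

end

end Pool.Agent.MP_162c54_lc
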