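import Pool.Agent.MP_162c54_lc.Guess

set_option autoImplicit false
open Cardinal Ordinal Set

namespace Pool.Agent.MP_162c54_lc

universe u v

/-- the well-ordered set of order type `κ` -/
abbrev KK (κ : Cardinal.{u}) : Type u := κ.ord.ToType

section

variable {κ : Cardinal.{u}}

lemma bound_K (hκ : κ.IsRegular) {ι : Type v} (g : ι → KK κ)
    (hι : Cardinal.lift.{u} #ι < Cardinal.lift.{v} κ) : ∃ b : KK κ, ∀ i, g i < b := by
  have hlt : ∀ i, ((ToType.toOrd (g i)) : Ordinal.{u}) + 1 < κ.ord := fun i =>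
    succ_lt hκ (ToType.toOrd (g i)).2
  have h1 := iSup_small_lt hκ (fun i => ((ToType.toOrd (g i)) : Ordinal.{u}) + 1) hι hlt
  refine ⟨ToType.mk ⟨_, h1⟩, fun i => ?_⟩
  rw [← ToType.mk.apply_symm_apply (g i), OrderIso.lt_iff_lt]
  show ((ToType.toOrd (g i)) : Ordinal.{u}) < _
  have hb : BddAbove (range fun i => ((ToType.toOrd (g i)) : Ordinal.{u}) + 1) :=
    ⟨κ.ord, by rintro _ ⟨i, rfl⟩; exact (hlt i).le⟩
  exact (Order.lt_succ _).trans_le (le_ciSup hb i)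

lemma bound_K_countable (hκ : κ.IsRegular) (hκ1 : ℵ₀ < κ) {ι : Type v} [Countable ι]
    (g : ι → KK κ) : ∃ b : KK κ, ∀ i, g i < b := by
  apply bound_K hκ g
  calc Cardinal.lift.{u} #ι ≤ Cardinal.lift.{u} ℵ₀ := Cardinal.lift_le.2 (Cardinal.mk_le_aleph0)
    _ = ℵ₀ := Cardinal.lift_aleph0
    _ = Cardinal.lift.{v} ℵ₀ := Cardinal.lift_aleph0.symm
    _ < Cardinal.lift.{v} κ := Cardinal.lift_lt.2 hκ1

/-- Club guessing on the well-ordered set `KK κ`. -/
theorem exists_guess_K (hκ : κ.IsRegular) (hκ1 : ℵ₁ < κ) :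
    ∃ C : KK κ → ℕ → KK κ, ∀ f : KK κ → KK κ, ∃ δ,
      StrictMono (C δ) ∧ (∀ n, ∃ k, k < C δ n) ∧ ∀ n, ∀ β < C δ n, f β < C δ n := by
  classical
  obtain ⟨C, hC⟩ := exists_guess hκ hκ1
  have hκpos : (0 : Ordinal.{u}) < κ.ord := by
    rw [Cardinal.lt_ord, Ordinal.card_zero]; exact hκ.pos
  let e : Ordinal.{u} → KK κ := fun α => if h : α < κ.ord then ToType.mk ⟨α, h⟩ else
    ToType.mk ⟨0, hκpos⟩
  have he : ∀ α, ∀ h : α < κ.ord, e α = ToType.mk ⟨α, h⟩ := fun α h => dif_pos h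
  have heo : ∀ k : KK κ, e (ToType.toOrd k : Ordinal.{u}) = k := by
    intro k
    rw [he _ (ToType.toOrd k).2]
    exact ToType.mk.apply_symm_apply k
  have heo' : ∀ α, ∀ h : α < κ.ord, (ToType.toOrd (e α) : Ordinal.{u}) = α := by
    intro α h
    rw [he α h]
    show ((ToType.mk.symm (ToType.mk ⟨α, h⟩) : Iio κ.ord) : Ordinal.{u}) = α
    rw [OrderIso.symm_apply_apply]
  have hlt : ∀ k k' : KK κ, k < k' ↔ (ToType.toOrd k : Ordinal.{u}) < (ToType.toOrd k') := by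
    intro k k'
    show k < k' ↔ ToType.mk.symm k < ToType.mk.symm k'
    rw [OrderIso.lt_iff_lt]
  refine ⟨fun δ n => e (C (ToType.toOrd δ) n), fun f => ?_⟩
  obtain ⟨δ, hδ, h1, h2, h3, h4⟩ := hC (fun α => (ToType.toOrd (f (e α)) : Ordinal.{u}))
    (fun α _ => (ToType.toOrd (f (e α))).2)
  refine ⟨e δ, ?_, ?_, ?_⟩
  · intro a b hab
    show e _ < e _
    rw [heo' δ hδ, hlt, heo' _ (h2 _), heo' _ (h2 _)]
    exact h1 hab
  · intro n
    refine ⟨e 0, ?_⟩
    show e 0 < e (C (ToType.toOrd (e δ)) n)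
    rw [heo' δ hδ, hlt, heo' _ (h2 _), heo' _ hκpos]
    exact h3 n
  · intro n β hβ
    change β < e (C (ToType.toOrd (e δ)) n) at hβ
    show f β < e (C (ToType.toOrd (e δ)) n)
    rw [heo' δ hδ, hlt, heo' _ (h2 _)] at hβ
    rw [heo' δ hδ, hlt, heo' _ (h2 _)]
    have := h4 n _ hβ
    change (ToType.toOrd (f (e (ToType.toOrd β))) : Ordinal.{u}) < _ at this
    rwa [heo] at this

lemma mk_Iic_K (hκ : κ.IsRegular) (β : KK κ) : #(Iic β) < κ := by
  obtain ⟨b, hb⟩ := bound_K (ι := Unit) hκ (fun _ => β) (by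
    rw [Cardinal.mk_unit, Cardinal.lift_one, Cardinal.lift_uzero]
    exact Cardinal.one_lt_aleph0.trans_le hκ.aleph0_le)
  have h0 : #(Iio b) < κ := by
    have := Cardinal.mk_Iio_lt b (by rw [Cardinal.mk_ord_toType, Ordinal.type_toType])
    rwa [Cardinal.mk_ord_toType] at this
  refine lt_of_le_of_lt (Cardinal.mk_le_mk_of_subset ?_) h0
  intro x hx
  exact lt_of_le_of_lt hx (hb ())

lemma mk_lists (hκ : κ.IsRegular) (hκ1 : ℵ₀ < κ) (β : KK κ) :
    #{s : List (ℚ ⊕ KK κ) // ∀ k, Sum.inr k ∈ s → k ≤ β} < κ := by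
  classical
  have h1 : {s : List (ℚ ⊕ KK κ) | ∀ k, Sum.inr k ∈ s → k ≤ β}
      ⊆ range (List.map (Sum.map id Subtype.val : ℚ ⊕ Iic β → ℚ ⊕ KK κ)) := by
    intro s hs
    rw [Set.range_list_map]
    intro x hx
    rcases x with q | k
    · exact ⟨Sum.inl q, rfl⟩
    · exact ⟨Sum.inr ⟨k, hs k hx⟩, rfl⟩
  refine lt_of_le_of_lt (Cardinal.mk_le_mk_of_subset h1) ?_
  refine lt_of_le_of_lt Cardinal.mk_range_le ?_
  refine lt_of_le_of_lt (Cardinal.mk_list_le_max _) ?_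
  refine max_lt hκ1 ?_
  rw [Cardinal.mk_sum]
  refine Cardinal.add_lt_of_lt hκ.aleph0_le ?_ ?_
  · rw [Cardinal.mk_eq_aleph0 ℚ, Cardinal.lift_aleph0]; exact hκ1
  · rw [Cardinal.lift_uzero]; exact mk_Iic_K hκ β

/-- closing off under a function of finite sequences -/
lemma exists_closing (hκ : κ.IsRegular) (hκ1 : ℵ₀ < κ) (h : List (ℚ ⊕ KK κ) → KK κ) :
    ∃ f : KK κ → KK κ, ∀ α, (∃ k, k < α) → (∀ β < α, f β < α) →
      ∀ s : List (ℚ ⊕ KK κ), (∀ k, Sum.inr k ∈ s → k < α) → h s < α := by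
  classical
  have h1 : ∀ β : KK κ, ∃ b : KK κ, ∀ s : {s : List (ℚ ⊕ KK κ) // ∀ k, Sum.inr k ∈ s → k ≤ β},
      h s.1 < b := fun β => bound_K hκ _ (by
        rw [Cardinal.lift_id, Cardinal.lift_id]; exact mk_lists hκ hκ1 β)
  choose f hf using h1
  refine ⟨f, fun α hα hcl s hs => ?_⟩
  have h2 : ∀ s : List (ℚ ⊕ KK κ), (∀ k, Sum.inr k ∈ s → k < α) →
      ∃ β < α, ∀ k, Sum.inr k ∈ s → k ≤ β := by
    intro s
    induction s with
    | nil =>
      intro _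
      obtain ⟨k, hk⟩ := hα
      exact ⟨k, hk, fun k hk => absurd hk (by simp)⟩
    | cons x s ih =>
      intro hs
      obtain ⟨β, hβ, hβs⟩ := ih fun k hk => hs k (List.mem_cons_of_mem _ hk)
      rcases x with q | k
      · refine ⟨β, hβ, fun k hk => hβs k ?_⟩
        rcases List.mem_cons.1 hk with h | h
        · exact absurd h (by simp)
        · exact h
      · refine ⟨max β k, max_lt hβ (hs k (by simp)), fun k' hk' => ?_⟩
        rcases List.mem_cons.1 hk' with h | h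
        · have : k' = k := by simpa using h
          rw [this]; exact le_max_right _ _
        · exact (hβs k' h).trans (le_max_left _ _)
  obtain ⟨β, hβ, hβs⟩ := h2 s hs
  exact (hf β ⟨s, hβs⟩).trans (hcl β hβ)

end

end Pool.Agent.MP_162c54_lc
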