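import Pool.Agent.MP_162c54_lc.Comm

set_option autoImplicit false
set_option linter.unusedSectionVars false
open scoped ComplexOrder Matrix.Norms.L2Operator ENNReal
open Matrix Cardinal

namespace Pool.Agent.MP_162c54_lc

universe u

section

variable {I : Type u} {X : Type} [LinearOrder X] (ev : I → X)

open Classical in
/-- a minimal point of a finite set -/
noncomputable def pickF (T : Finset I) : Option I :=
  if h : T.Nonempty then some (T.exists_min_image ev h).choose else none

open Classical in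
/-- the least point of `S` above `i`, if any -/
noncomputable def pick (S : Finset I) (i : I) : Option I := pickF ev (S.filter fun l => ev i ≤ ev l)

lemma pick_some {S : Finset I} {i l : I} (h : pick ev S i = some l) :
    l ∈ S ∧ ev i ≤ ev l ∧ ∀ l' ∈ S, ev i ≤ ev l' → ev l ≤ ev l' := by
  classical
  unfold pick pickF at h
  split_ifs at h with hne
  have hspec := (Finset.exists_min_image _ ev hne).choose_spec
  rw [Option.some.injEq] at h
  rw [h] at hspec
  obtain ⟨h1, h2⟩ := hspec
  rw [Finset.mem_filter] at h1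
  exact ⟨h1.1, h1.2, fun l' hl' h3 => h2 l' (Finset.mem_filter.2 ⟨hl', h3⟩)⟩

lemma pick_none {S : Finset I} {i : I} (h : pick ev S i = none) : ∀ l ∈ S, ¬ ev i ≤ ev l := by
  classical
  unfold pick pickF at h
  split_ifs at h with hne
  intro l hl hil
  exact hne ⟨l, Finset.mem_filter.2 ⟨hl, hil⟩⟩

lemma pick_eq {S : Finset I} {i j : I} (h : ∀ l ∈ S, (ev i ≤ ev l ↔ ev j ≤ ev l)) :
    pick ev S i = pick ev S j := by
  classical
  unfold pick
  congr 1
  ext l
  rw [Finset.mem_filter, Finset.mem_filter]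
  exact ⟨fun hl => ⟨hl.1, (h l hl.1).1 hl.2⟩, fun hl => ⟨hl.1, (h l hl.1).2 hl.2⟩⟩

open Classical in
/-- the minimal projection attached to `l ∈ S` -/
noncomputable def qc (S : Finset I) (l : I) : CC ev :=
  CC.mk ev (mkC (fun i => if pick ev S i = some l then 1 else 0) 1 (by
    intro i
    split_ifs <;> simp)) (C0_le ev ⟨S, by
      constructor
      · intro i j hij
        show (if pick ev S i = some l then (1 : ℂ) else 0) = if pick ev S j = some l then 1 else 0
        rw [pick_eq ev hij]
      · intro i hi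
        show (if pick ev S i = some l then (1 : ℂ) else 0) = 0
        refine if_neg fun h => ?_
        obtain ⟨h1, h2, -⟩ := pick_some ev h
        exact hi l h1 h2⟩)

open Classical in
lemma qc_val (S : Finset I) (l i : I) :
    (qc ev S l).val i = if pick ev S i = some l then (1 : ℂ) else 0 := rfl

/-- restriction to finitely many points -/
noncomputable def resC (S : Finset I) [DecidableEq {l // l ∈ S}] :
    CC ev →⋆ₙₐ[ℂ] Matrix {l // l ∈ S} {l // l ∈ S} ℂ where
  toFun a := diagonal fun l => a.val l.1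
  map_smul' c a := by
    rw [MonoidHom.id_apply, ← Matrix.diagonal_smul]
    congr 1
  map_zero' := by
    rw [← Matrix.diagonal_zero]
    congr 1
  map_add' a b := by
    rw [Matrix.diagonal_add]
    congr 1
  map_mul' a b := by
    rw [Matrix.diagonal_mul_diagonal]
    congr 1
  map_star' a := by
    rw [Matrix.star_eq_conjTranspose, Matrix.diagonal_conjTranspose]
    congr 1

open Classical in
/-- **The algebras `CC` are nuclear.** -/
theorem CC_nuclear : IsNuclear (CC ev) := by
  classical
  refine isNuclear_of_model.{u} fun F ε hε => ?_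
  have h1 : ∀ a : CC ev, ∃ x : CAmb I, x ∈ C0 ev ∧ ‖a.val - x‖ < ε / 2 := by
    intro a
    have ha : a.val ∈ closure (C0 ev : Set (CAmb I)) := a.mem
    obtain ⟨x, hx, hxa⟩ := Metric.mem_closure_iff.1 ha (ε / 2) (by linarith)
    exact ⟨x, hx, by rwa [dist_eq_norm] at hxa⟩
  choose x0 hx0 hx0' using h1
  have h2 : ∀ a : CC ev, ∃ S : Finset I, Simple ev S (x0 a) := fun a => hx0 a
  choose Sa hSa using h2
  set S := F.biUnion Sa with hS
  have hgood : ∀ a ∈ F, Simple ev S (x0 a) := fun a ha =>
    (hSa a).mono (Finset.subset_biUnion_of_mem Sa ha)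
  set ψ : Matrix {l // l ∈ S} {l // l ∈ S} ℂ →ₗ[ℂ] CC ev :=
    ∑ l : {l // l ∈ S}, (Matrix.entryLinearMap ℂ ℂ l l).smulRight (qc ev S l.1) with hψ
  have hval : ∀ (M : Matrix {l // l ∈ S} {l // l ∈ S} ℂ) (i : I),
      (ψ M).val i = ∑ l : {l // l ∈ S}, M l l * (if pick ev S i = some l.1 then 1 else 0) := by
    intro M i
    show evC ev i (ψ M) = _
    rw [hψ, LinearMap.sum_apply, map_sum]
    refine Finset.sum_congr rfl fun l _ => ?_
    rw [LinearMap.smulRight_apply, map_smul]
    rfl
  have hval1 : ∀ (M : Matrix {l // l ∈ S} {l // l ∈ S} ℂ) (i : I) (l : {l // l ∈ S}),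
      pick ev S i = some l.1 → (ψ M).val i = M l l := by
    intro M i l h
    rw [hval, Finset.sum_eq_single l]
    · rw [if_pos h, mul_one]
    · intro l' _ hne
      rw [if_neg, mul_zero]
      rw [h, Option.some.injEq]
      exact fun h' => hne (Subtype.ext h'.symm)
    · intro h'
      exact absurd (Finset.mem_univ l) h'
  have hval0 : ∀ (M : Matrix {l // l ∈ S} {l // l ∈ S} ℂ) (i : I),
      pick ev S i = none → (ψ M).val i = 0 := by
    intro M i h
    rw [hval]
    refine Finset.sum_eq_zero fun l _ => ?_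
    rw [h, if_neg (by simp), mul_zero]
  have hnorm : ∀ M : Matrix {l // l ∈ S} {l // l ∈ S} ℂ, ‖M‖ ≤ 1 → ‖ψ M‖ ≤ 1 := by
    intro M hM
    rw [← CC.norm_val]
    refine lp.norm_le_of_forall_le zero_le_one fun i => ?_
    rcases hp : pick ev S i with _ | l
    · rw [hval0 M i hp, norm_zero]
      exact zero_le_one
    · have hl : l ∈ S := (pick_some ev hp).1
      rw [hval1 M i ⟨l, hl⟩ hp]
      have h3 := col_le_of_norm_le hM ⟨l, hl⟩
      have h4 : ‖M ⟨l, hl⟩ ⟨l, hl⟩‖ ^ 2 ≤ 1 :=
        (Finset.single_le_sum (f := fun i => ‖M i ⟨l, hl⟩‖ ^ 2) (fun i _ => by positivity)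
          (Finset.mem_univ _)).trans h3
      nlinarith [norm_nonneg (M ⟨l, hl⟩ ⟨l, hl⟩)]
  refine ⟨{l // l ∈ S}, inferInstance, inferInstance, resC ev S, ψ, ?_, hnorm, ?_⟩
  · -- complete positivity
    refine cp_of_kraus (Finset.univ : Finset ({l // l ∈ S} × {l // l ∈ S})) _
      (fun p Y => Y p.1 p.2 • qc ev S p.2.1) fun Y Y' => ?_
    refine CC.ext' fun i => ?_
    have h3 : (∑ p : {l // l ∈ S} × {l // l ∈ S},
        star (Y p.1 p.2 • qc ev S p.2.1) * (Y' p.1 p.2 • qc ev S p.2.1) : CC ev).val i
        = ∑ p : {l // l ∈ S} × {l // l ∈ S}, (star (Y p.1 p.2) * Y' p.1 p.2)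
          * (if pick ev S i = some p.2.1 then 1 else 0) := by
      show evC ev i _ = _
      rw [map_sum]
      refine Finset.sum_congr rfl fun p _ => ?_
      show (star (Y p.1 p.2 • qc ev S p.2.1) * (Y' p.1 p.2 • qc ev S p.2.1) : CC ev).val i = _
      rw [CC.val_mul]
      show star (Y p.1 p.2 * (if pick ev S i = some p.2.1 then (1 : ℂ) else 0))
        * (Y' p.1 p.2 * (if pick ev S i = some p.2.1 then (1 : ℂ) else 0)) = _
      split_ifs
      · rw [mul_one, mul_one, mul_one]
      · rw [mul_zero, mul_zero, star_zero, mul_zero, mul_zero]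
    rw [h3, hval, Fintype.sum_prod_type, Finset.sum_comm]
    refine Finset.sum_congr rfl fun l _ => ?_
    rw [Matrix.mul_apply, Finset.sum_mul]
    rfl
  · intro a ha
    set y : CC ev := CC.mk ev (x0 a) (C0_le ev (hx0 a)) with hy
    have hay : ‖a - y‖ < ε / 2 := hx0' a
    have hfix : ψ (resC ev S y) = y := by
      refine CC.ext' fun i => ?_
      rcases hp : pick ev S i with _ | l
      · rw [hval0 _ i hp]
        exact ((hgood a ha).2 i (pick_none ev hp)).symm
      · obtain ⟨h3, h4, h5⟩ := pick_some ev hp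
        rw [hval1 _ i ⟨l, h3⟩ hp]
        show (diagonal fun l : {l // l ∈ S} => y.val l.1) ⟨l, h3⟩ ⟨l, h3⟩ = _
        rw [Matrix.diagonal_apply_eq]
        refine (hgood a ha).1 l i fun l' hl' => ⟨fun h => h4.trans h, fun h => h5 l' hl' h⟩
    have hcon : ∀ z : CC ev, ‖ψ (resC ev S z)‖ ≤ ‖z‖ := by
      intro z
      have hz : ‖resC ev S z‖ ≤ ‖z‖ := NonUnitalStarAlgHom.norm_apply_le _ z
      rcases eq_or_ne z 0 with rfl | hne
      · simp
      · have hzp : 0 < ‖z‖ := norm_pos_iff.2 hne
        have h5 := hnorm (((‖z‖⁻¹ : ℝ) : ℂ) • resC ev S z) (by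
          rw [norm_smul, Complex.norm_real, Real.norm_of_nonneg (by positivity)]
          rw [inv_mul_le_iff₀ hzp, mul_one]
          exact hz)
        rw [map_smul, norm_smul, Complex.norm_real, Real.norm_of_nonneg (by positivity),
          inv_mul_le_iff₀ hzp, mul_one] at h5
        exact h5
    have e3 : ψ (resC ev S a) - a = ψ (resC ev S (a - y)) - (a - y) := by
      rw [map_sub (resC ev S), map_sub ψ, hfix]
      abel
    rw [e3]
    calc ‖ψ (resC ev S (a - y)) - (a - y)‖
        ≤ ‖ψ (resC ev S (a - y))‖ + ‖a - y‖ := norm_sub_le _ _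
      _ ≤ ‖a - y‖ + ‖a - y‖ := by gcongr; exact hcon _
      _ < ε := by linarith

/-- the finite dimensional subalgebra of functions simple over `S` -/
noncomputable def fdC (S : Finset I) : NonUnitalStarSubalgebra ℂ (CC ev) where
  carrier := {a | Simple ev S a.val}
  add_mem' := fun {_ _} ha hb => Simple.add ha hb
  zero_mem' := Simple.zero
  mul_mem' := fun {_ _} ha hb => Simple.mul ha hb
  smul_mem' := fun c {_} ha => Simple.smul c ha
  star_mem' := fun {_} ha => Simple.star ha

lemma fdC_finite (S : Finset I) : FiniteDimensional ℂ (fdC ev S) := by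
  classical
  set V : Submodule ℂ (CC ev) := Submodule.span ℂ (Set.range (fun l : {l // l ∈ S} => qc ev S l.1))
    with hV
  have hVf : FiniteDimensional ℂ V := FiniteDimensional.span_of_finite ℂ (Set.finite_range _)
  have hle : ((fdC ev S).toNonUnitalSubalgebra.toSubmodule : Submodule ℂ (CC ev)) ≤ V := by
    intro a ha
    have ha1 : Simple ev S a.val := ha
    have ha' : a = ∑ l : {l // l ∈ S}, a.val l.1 • qc ev S l.1 := by
      refine CC.ext' fun i => ?_
      have h3 : (∑ l : {l // l ∈ S}, a.val l.1 • qc ev S l.1 : CC ev).val i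
          = ∑ l : {l // l ∈ S}, a.val l.1 * (if pick ev S i = some l.1 then 1 else 0) := by
        show evC ev i _ = _
        rw [map_sum]
        refine Finset.sum_congr rfl fun l _ => ?_
        rw [map_smul]
        rfl
      rw [h3]
      rcases hp : pick ev S i with _ | l
      · rw [Finset.sum_eq_zero fun l _ => by rw [if_neg (by simp), mul_zero]]
        exact ha1.2 i (pick_none ev hp)
      · obtain ⟨h3, h4, h5⟩ := pick_some ev hp
        rw [Finset.sum_eq_single ⟨l, h3⟩]
        · rw [if_pos rfl, mul_one]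
          exact (ha1.1 l i fun l' hl' => ⟨fun h => h4.trans h, fun h => h5 l' hl' h⟩).symm
        · intro l' _ hne
          rw [if_neg, mul_zero]
          rw [Option.some.injEq]
          exact fun h' => hne (Subtype.ext h'.symm)
        · intro h'
          exact absurd (Finset.mem_univ _) h'
    rw [ha']
    exact V.sum_mem fun l _ => V.smul_mem _ (Submodule.subset_span ⟨l, rfl⟩)
  have := Submodule.finiteDimensional_of_le hle
  exact this

theorem CC_lfd : IsLocallyFinDim (CC ev) := by
  classical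
  intro F ε hε
  have h1 : ∀ a : CC ev, ∃ x : CAmb I, x ∈ C0 ev ∧ ‖a.val - x‖ < ε := by
    intro a
    have ha : a.val ∈ closure (C0 ev : Set (CAmb I)) := a.mem
    obtain ⟨x, hx, hxa⟩ := Metric.mem_closure_iff.1 ha ε hε
    exact ⟨x, hx, by rwa [dist_eq_norm] at hxa⟩
  choose x0 hx0 hx0' using h1
  have h2 : ∀ a : CC ev, ∃ S : Finset I, Simple ev S (x0 a) := fun a => hx0 a
  choose Sa hSa using h2
  refine ⟨fdC ev (F.biUnion Sa), fdC_finite ev _, fun a ha =>
    ⟨CC.mk ev (x0 a) (C0_le ev (hx0 a)), ?_, hx0' a⟩⟩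
  exact (hSa a).mono (Finset.subset_biUnion_of_mem Sa ha)

end

end Pool.Agent.MP_162c54_lc
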