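import Pool.Agent.MP_162c54_lc.Model
import Pool.Agent.MP_162c54_lc.Alg

set_option autoImplicit false
set_option linter.unusedSectionVars false
open scoped ComplexOrder Matrix.Norms.L2Operator ENNReal
open Matrix

namespace Pool.Agent.MP_162c54_lc

universe u

lemma cp_add {A : Type*} [NonUnitalCStarAlgebra A] {J : Type*} [Fintype J]
    {ψ ψ' : Matrix J J ℂ → A} (h : CP ψ) (h' : CP ψ') : CP (fun T => ψ T + ψ' T) := by
  have := cp_sum (A := A) (Finset.univ : Finset Bool) (fun b => if b then ψ else ψ')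
    (fun b _ => by cases b <;> simpa)
  simpa using this

section

variable {K : Type u} {F1 : Finset (List K)}

/-- the finite index set of a finite set of nodes -/
abbrev JJ (F1 : Finset (List K)) : Type u := Σ η : {η // η ∈ F1}, ZMod (η.1.length + 1)

/-- the corner of a matrix at a node -/
noncomputable def subL (η : {η // η ∈ F1}) : Matrix (JJ F1) (JJ F1) ℂ →ₗ[ℂ] Blk η.1 where
  toFun T := T.submatrix (fun a => (⟨η, a⟩ : JJ F1)) (fun a => (⟨η, a⟩ : JJ F1))
  map_add' _ _ := rfl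
  map_smul' _ _ := rfl

lemma subL_apply (η : {η // η ∈ F1}) (T : Matrix (JJ F1) (JJ F1) ℂ)
    (a b : ZMod (η.1.length + 1)) : subL η T a b = T ⟨η, a⟩ ⟨η, b⟩ := rfl

variable [DecidableEq {η // η ∈ F1}]

lemma subL_norm (η : {η // η ∈ F1}) (T : Matrix (JJ F1) (JJ F1) ℂ) : ‖subL η T‖ ≤ ‖T‖ := by
  classical
  set I : Matrix (JJ F1) (ZMod (η.1.length + 1)) ℂ :=
    Matrix.of fun c a => if c = ⟨η, a⟩ then 1 else 0 with hI
  have h1 : Iᴴ * I = 1 := by
    ext a b
    rw [Matrix.mul_apply]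
    simp only [hI, Matrix.conjTranspose_apply, Matrix.of_apply]
    by_cases hab : a = b
    · subst hab
      simp
    · rw [Matrix.one_apply_ne hab]
      refine Finset.sum_eq_zero fun c _ => ?_
      by_cases hc : c = ⟨η, a⟩
      · subst hc
        simp [hab]
      · simp [hc]
  have h2 : subL η T = Iᴴ * T * I := by
    ext a b
    rw [subL_apply, Matrix.mul_apply]
    simp only [Matrix.mul_apply, hI, Matrix.conjTranspose_apply, Matrix.of_apply]
    simp
  have h3 : ‖I‖ ≤ 1 := by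
    rw [← posSemidef_one_sub_iff, h1, sub_self]
    exact Matrix.PosSemidef.zero
  have h4 : ‖Iᴴ‖ ≤ 1 := by rwa [Matrix.l2_opNorm_conjTranspose]
  rw [h2]
  calc ‖Iᴴ * T * I‖ ≤ ‖Iᴴ * T‖ * ‖I‖ := Matrix.l2_opNorm_mul _ _
    _ ≤ (‖Iᴴ‖ * ‖T‖) * ‖I‖ := by gcongr; exact Matrix.l2_opNorm_mul _ _
    _ ≤ (1 * ‖T‖) * 1 := by gcongr
    _ = ‖T‖ := by ring

lemma subL_star_mul (η : {η // η ∈ F1}) (Y Y' : Matrix (JJ F1) (JJ F1) ℂ) :
    subL η (star Y * Y') = ∑ c : JJ F1,
      star ((Matrix.of fun i a => if i = 0 then Y c ⟨η, a⟩ else 0) : Blk η.1) *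
        ((Matrix.of fun i a => if i = 0 then Y' c ⟨η, a⟩ else 0) : Blk η.1) := by
  ext a b
  rw [subL_apply, Matrix.mul_apply, Matrix.sum_apply]
  refine Finset.sum_congr rfl fun c _ => ?_
  rw [Matrix.mul_apply]
  simp [Matrix.star_apply]

/-- coefficient functional of a branch projection -/
noncomputable def tL (η : {η // η ∈ F1}) (j : ZMod (η.1.length + 1)) (b : Bool) :
    Matrix (JJ F1) (JJ F1) ℂ →ₗ[ℂ] ℂ where
  toFun T := ((Fb (η.1.length + 1) b)ᴴ * subL η T * Fb (η.1.length + 1) b) j j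
  map_add' S T := by
    rw [map_add, Matrix.mul_add, Matrix.add_mul]; rfl
  map_smul' c T := by
    rw [map_smul, Matrix.mul_smul, Matrix.smul_mul]; rfl

lemma tL_apply (η : {η // η ∈ F1}) (j : ZMod (η.1.length + 1)) (b : Bool)
    (T : Matrix (JJ F1) (JJ F1) ℂ) : tL η j b T =
      ((Fb (η.1.length + 1) b)ᴴ * subL η T * Fb (η.1.length + 1) b) j j := rfl

lemma Fb_norm {k : ℕ} [NeZero k] (b : Bool) : ‖Fb k b‖ ≤ 1 := by
  rw [← posSemidef_one_sub_iff, Fb_isom, sub_self]
  exact Matrix.PosSemidef.zero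

lemma tL_norm (η : {η // η ∈ F1}) (j : ZMod (η.1.length + 1)) (b : Bool)
    (T : Matrix (JJ F1) (JJ F1) ℂ) (hT : ‖T‖ ≤ 1) : ‖tL η j b T‖ ≤ 1 := by
  rw [tL_apply]
  set M : Matrix (ZMod (η.1.length + 1)) (ZMod (η.1.length + 1)) ℂ :=
    (Fb (η.1.length + 1) b)ᴴ * subL η T * Fb (η.1.length + 1) b with hM
  have h1 : ‖M‖ ≤ 1 := by
    have h2 : ‖(Fb (η.1.length + 1) b)ᴴ‖ ≤ 1 := by
      rw [Matrix.l2_opNorm_conjTranspose]; exact Fb_norm b
    calc ‖M‖ ≤ ‖(Fb (η.1.length + 1) b)ᴴ * subL η T‖ * ‖Fb (η.1.length + 1) b‖ :=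
          Matrix.l2_opNorm_mul _ _
      _ ≤ (‖(Fb (η.1.length + 1) b)ᴴ‖ * ‖subL η T‖) * ‖Fb (η.1.length + 1) b‖ := by
          gcongr; exact Matrix.l2_opNorm_mul _ _
      _ ≤ (1 * 1) * 1 := by
          gcongr
          · exact (subL_norm η T).trans hT
          · exact Fb_norm b
      _ = 1 := by norm_num
  have h3 := col_le_of_norm_le h1 j
  have h4 : ‖M j j‖ ^ 2 ≤ 1 :=
    (Finset.single_le_sum (f := fun i => ‖M i j‖ ^ 2) (fun i _ => by positivity)
      (Finset.mem_univ j)).trans h3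
  nlinarith [norm_nonneg (M j j)]

lemma tL_star_mul (η : {η // η ∈ F1}) (j : ZMod (η.1.length + 1)) (b : Bool)
    (Y Y' : Matrix (JJ F1) (JJ F1) ℂ) :
    tL η j b (star Y * Y') = ∑ c : JJ F1,
      star ((Y.submatrix id (fun a => (⟨η, a⟩ : JJ F1)) * Fb (η.1.length + 1) b) c j) *
        ((Y'.submatrix id (fun a => (⟨η, a⟩ : JJ F1)) * Fb (η.1.length + 1) b) c j) := by
  set R : Matrix (JJ F1) (ZMod (η.1.length + 1)) ℂ :=
    Y.submatrix id (fun a => (⟨η, a⟩ : JJ F1)) with hR
  set R' : Matrix (JJ F1) (ZMod (η.1.length + 1)) ℂ :=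
    Y'.submatrix id (fun a => (⟨η, a⟩ : JJ F1)) with hR'
  have h1 : subL η (star Y * Y') = Rᴴ * R' := by
    ext a b
    rw [subL_apply, Matrix.mul_apply, Matrix.mul_apply]
    rfl
  rw [tL_apply, h1]
  have h2 : (Fb (η.1.length + 1) b)ᴴ * (Rᴴ * R') * Fb (η.1.length + 1) b
      = (R * Fb (η.1.length + 1) b)ᴴ * (R' * Fb (η.1.length + 1) b) := by
    rw [Matrix.conjTranspose_mul]
    simp only [Matrix.mul_assoc]
  rw [h2, Matrix.mul_apply]
  rfl

end

variable {K β : Type u} {σ : β → ℕ → K} (lab : β → Bool)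

/-- block diagonal restriction to finitely many nodes -/
noncomputable def resG (hσ : Function.Injective σ) (F1 : Finset (List K))
    [DecidableEq {η // η ∈ F1}] : GG σ lab hσ →⋆ₙₐ[ℂ] Matrix (JJ F1) (JJ F1) ℂ where
  toFun a := Matrix.blockDiagonal' fun η : {η // η ∈ F1} => a.val η.1
  map_smul' c a := by
    exact Matrix.blockDiagonal'_smul c (fun η : {η // η ∈ F1} => a.val η.1)
  map_zero' := by
    ext i j
    rw [Matrix.blockDiagonal'_apply]
    split_ifs with h
    · rfl
    · rfl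
  map_add' a b := Matrix.blockDiagonal'_add (fun η : {η // η ∈ F1} => a.val η.1)
    (fun η : {η // η ∈ F1} => b.val η.1)
  map_mul' a b := Matrix.blockDiagonal'_mul (fun η : {η // η ∈ F1} => a.val η.1)
    (fun η : {η // η ∈ F1} => b.val η.1)
  map_star' a := by
    rw [Matrix.star_eq_conjTranspose, Matrix.blockDiagonal'_conjTranspose]; rfl

lemma subL_resG (hσ : Function.Injective σ) (F1 : Finset (List K))
    [DecidableEq {η // η ∈ F1}] (a : GG σ lab hσ) (η : {η // η ∈ F1}) :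
    subL η (resG lab hσ F1 a) = a.val η.1 := by
  ext i j
  rw [subL_apply]
  exact Matrix.blockDiagonal'_apply_eq (fun η : {η // η ∈ F1} => a.val η.1) η i j

/-- the branch projection of colour `l`, cut down off the finite set `F0` -/
noncomputable def brp (σ : β → ℕ → K) (lab : β → Bool) (F0 : Finset (List K)) (b : β) (l : Lam) :
    Amb K := by
  classical
  exact mkAmb (fun η => if η ∈ F0 then 0 else brv σ lab b (Pi.single l 1) η) 1 (by
    intro η
    split_ifs
    · simp
    · refine brv_norm_le σ lab b _ 1 zero_le_one (fun l' => ?_) η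
      by_cases h : l' = l
      · subst h; simp
      · simp [h])

lemma brp_in {F0 : Finset (List K)} {b : β} {l : Lam} {η : List K} (hη : η ∈ F0) :
    (brp σ lab F0 b l : (η : List K) → Blk η) η = 0 := by
  classical
  simp [brp, hη]

lemma brp_out {F0 : Finset (List K)} {b : β} {l : Lam} {η : List K} (hη : η ∉ F0) :
    (brp σ lab F0 b l : (η : List K) → Blk η) η = brv σ lab b (Pi.single l 1) η := by
  classical
  simp [brp, hη]

lemma good_brp (F0 : Finset (List K)) (b : β) (l : Lam) :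
    Good σ lab {b} F0 (brp σ lab F0 b l) := by
  refine ⟨fun _ => Pi.single l 1, fun η hη => ?_⟩
  rw [Finset.sum_singleton]
  exact brp_out lab hη

lemma brp_proj (F0 : Finset (List K)) (b : β) (l : Lam) :
    star (brp σ lab F0 b l) * brp σ lab F0 b l = brp σ lab F0 b l := by
  refine amb_ext fun η => ?_
  show star ((brp σ lab F0 b l : (η : List K) → Blk η) η) *
    (brp σ lab F0 b l : (η : List K) → Blk η) η = _
  by_cases hη : η ∈ F0
  · rw [brp_in lab hη, mul_zero]
  · rw [brp_out lab hη, brv_star, brv_mul]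
    congr 1
    ext l'
    by_cases h : l' = l
    · subst h; simp
    · simp [h]

/-- as an element of the algebra -/
noncomputable def brpG (hσ : Function.Injective σ) (F0 : Finset (List K)) (b : β) (l : Lam) :
    GG σ lab hσ :=
  GG.mk hσ (brp σ lab F0 b l) (G0_le lab hσ (mem_G0_of_good lab hσ (good_brp lab F0 b l)))

lemma brpG_proj (hσ : Function.Injective σ) (F0 : Finset (List K)) (b : β) (l : Lam) :
    star (brpG lab hσ F0 b l) * brpG lab hσ F0 b l = brpG lab hσ F0 b l :=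
  GG.ext (brp_proj lab F0 b l)

lemma brv_decomp (b : β) (h : Lam → ℂ) (η : List K) :
    ∑ l, h l • brv σ lab b (Pi.single l 1) η = brv σ lab b h η := by
  have h1 : h = ∑ l, h l • (Pi.single l 1 : Lam → ℂ) := by
    funext l'
    simp [Finset.sum_apply, Pi.single_apply]
  by_cases hη : On (σ b) η
  · conv_rhs => rw [h1]
    simp only [brv_on σ lab hη]
    have h2 : ∀ (s : Finset Lam) (f : Lam → Lam → ℂ), dl (η.length + 1) (lab b) (∑ l ∈ s, f l)
        = ∑ l ∈ s, dl (η.length + 1) (lab b) (f l) := by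
      classical
      intro s f
      induction s using Finset.induction_on with
      | empty =>
        simp only [Finset.sum_empty]
        unfold dl
        simp only [Pi.zero_apply, Matrix.diagonal_zero, Matrix.mul_zero, Matrix.zero_mul]
      | insert a s ha ih => rw [Finset.sum_insert ha, Finset.sum_insert ha, dl_add, ih]
    rw [h2]
    refine Finset.sum_congr rfl fun l _ => ?_
    rw [dl_smul]
  · simp only [brv_off σ lab hη, smul_zero, Finset.sum_const_zero]

/-- evaluation at a node -/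
noncomputable def evL (hσ : Function.Injective σ) (η : List K) : GG σ lab hσ →ₗ[ℂ] Blk η where
  toFun a := a.val η
  map_add' _ _ := rfl
  map_smul' _ _ := rfl

/-- **The algebras `GG` are nuclear.** -/
theorem GG_nuclear (hσ : Function.Injective σ) : IsNuclear (GG σ lab hσ) := by
  classical
  refine isNuclear_of_model.{u} fun F ε hε => ?_
  -- approximants
  have h1 : ∀ a : GG σ lab hσ, ∃ x : Amb K, x ∈ G0 σ lab hσ ∧ ‖a.val - x‖ < ε / 2 := by
    intro a
    have ha : a.val ∈ closure (G0 σ lab hσ : Set (Amb K)) := a.mem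
    obtain ⟨x, hx, hxa⟩ := Metric.mem_closure_iff.1 ha (ε / 2) (by linarith)
    exact ⟨x, hx, by rwa [dist_eq_norm] at hxa⟩
  choose x0 hx0 hx0' using h1
  have h2 : ∀ a : GG σ lab hσ, ∃ (S : Finset β) (F' : Finset (List K)), Good σ lab S F' (x0 a) :=
    fun a => hx0 a
  choose Sa Fa hSF using h2
  set S := F.biUnion Sa with hS
  obtain ⟨X, hX⟩ := exists_cross hσ S
  set F0 := F.biUnion Fa ∪ X with hF0
  have hgood : ∀ a ∈ F, Good σ lab S F0 (x0 a) := fun a ha =>
    (hSF a).mono (Finset.subset_biUnion_of_mem Sa ha)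
      ((Finset.subset_biUnion_of_mem Fa ha).trans Finset.subset_union_left)
  have hX0 : ∀ η ∉ F0, ∀ b ∈ S, ∀ b' ∈ S, On (σ b) η → On (σ b') η → b = b' := fun η hη =>
    hX η fun h => hη (Finset.mem_union_right _ h)
  -- live colours
  have h3 : ∀ p : {b // b ∈ S} × Lam, ∃ (η : List K) (j : ZMod (η.length + 1)),
      (∃ (η : List K) (j : ZMod (η.length + 1)), η ∉ F0 ∧ On (σ p.1.1) η ∧
        col (η.length + 1) j = p.2) →
      (η ∉ F0 ∧ On (σ p.1.1) η ∧ col (η.length + 1) j = p.2) := by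
    intro p
    by_cases h : ∃ (η : List K) (j : ZMod (η.length + 1)), η ∉ F0 ∧ On (σ p.1.1) η ∧
        col (η.length + 1) j = p.2
    · obtain ⟨η, j, hh⟩ := h
      exact ⟨η, j, fun _ => hh⟩
    · exact ⟨[], 0, fun h' => absurd h' h⟩
  choose ηp jp hp using h3
  set F1 := F0 ∪ Finset.univ.image ηp with hF1
  have hF01 : ∀ η ∈ F0, η ∈ F1 := fun η hη => Finset.mem_union_left _ hη
  have hpF1 : ∀ p, ηp p ∈ F1 := fun p =>
    Finset.mem_union_right _ (Finset.mem_image_of_mem _ (Finset.mem_univ p))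
  -- the second map
  set ψ1 : Matrix (JJ F1) (JJ F1) ℂ →ₗ[ℂ] GG σ lab hσ :=
    ∑ η ∈ F0.attach, ((inc lab hσ η.1 : Blk η.1 →⋆ₙₐ[ℂ] GG σ lab hσ) : Blk η.1 →ₗ[ℂ] GG σ lab hσ) ∘ₗ
      (subL ⟨η.1, hF01 η.1 η.2⟩) with hψ1
  set tt : {b // b ∈ S} × Lam → Matrix (JJ F1) (JJ F1) ℂ →ₗ[ℂ] ℂ := fun p =>
    tL ⟨ηp p, hpF1 p⟩ (jp p) (lab p.1.1) with htt
  set ψ2 : Matrix (JJ F1) (JJ F1) ℂ →ₗ[ℂ] GG σ lab hσ :=
    ∑ p : {b // b ∈ S} × Lam, (tt p).smulRight (brpG lab hσ F0 p.1.1 p.2) with hψ2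
  have hv1 : ∀ (T : Matrix (JJ F1) (JJ F1) ℂ) (η : List K), evL lab hσ η ((ψ1 + ψ2) T)
      = (∑ η' ∈ F0.attach, (blk η'.1 (subL ⟨η'.1, hF01 η'.1 η'.2⟩ T) : (η : List K) → Blk η) η)
        + ∑ p : {b // b ∈ S} × Lam, tt p T • (brp σ lab F0 p.1.1 p.2 : (η : List K) → Blk η) η := by
    intro T η
    rw [LinearMap.add_apply, map_add, hψ1, hψ2, LinearMap.sum_apply, LinearMap.sum_apply, map_sum,
      map_sum]
    rfl
  have hvin : ∀ (T : Matrix (JJ F1) (JJ F1) ℂ) (η : List K) (hη : η ∈ F0),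
      evL lab hσ η ((ψ1 + ψ2) T) = subL ⟨η, hF01 η hη⟩ T := by
    intro T η hη
    rw [hv1, Finset.sum_eq_single_of_mem ⟨η, hη⟩ (Finset.mem_attach _ _), blk_same]
    · rw [Finset.sum_eq_zero, add_zero]
      intro p _
      rw [brp_in lab hη, smul_zero]
    · intro η' _ hne
      exact blk_ne (fun h => hne (Subtype.ext h.symm)) _
  have hvout : ∀ (T : Matrix (JJ F1) (JJ F1) ℂ) (η : List K) (hη : η ∉ F0),
      evL lab hσ η ((ψ1 + ψ2) T)
        = ∑ b : {b // b ∈ S}, brv σ lab b.1 (fun l => tt (b, l) T) η := by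
    intro T η hη
    rw [hv1, Finset.sum_eq_zero, zero_add, Fintype.sum_prod_type]
    · refine Finset.sum_congr rfl fun b _ => ?_
      rw [← brv_decomp lab b.1 (fun l => tt (b, l) T) η]
      refine Finset.sum_congr rfl fun l _ => ?_
      rw [brp_out lab hη]
    · intro η' _
      refine blk_ne (fun h => hη ?_) _
      rw [h]; exact η'.2
  have hnorm : ∀ T : Matrix (JJ F1) (JJ F1) ℂ, ‖T‖ ≤ 1 → ‖(ψ1 + ψ2) T‖ ≤ 1 := by
    intro T hT
    rw [← GG.norm_val]
    refine lp.norm_le_of_forall_le zero_le_one fun η => ?_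
    show ‖evL lab hσ η ((ψ1 + ψ2) T)‖ ≤ 1
    by_cases hη : η ∈ F0
    · rw [hvin T η hη]
      exact (subL_norm _ T).trans hT
    · rw [hvout T η hη]
      by_cases hex : ∃ b : {b // b ∈ S}, On (σ b.1) η
      · obtain ⟨b, hon⟩ := hex
        rw [Finset.sum_eq_single_of_mem b (Finset.mem_univ _)]
        · exact brv_norm_le σ lab b.1 _ 1 zero_le_one (fun l => tL_norm _ _ _ T hT) η
        · intro b' _ hne
          refine brv_off σ lab (fun hon' => hne ?_) _
          exact Subtype.ext (hX0 η hη b'.1 b'.2 b.1 b.2 hon' hon)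
      · push Not at hex
        rw [Finset.sum_eq_zero fun b _ => brv_off σ lab (hex b) _, norm_zero]
        exact zero_le_one
  refine ⟨JJ F1, inferInstance, inferInstance, resG lab hσ F1, ψ1 + ψ2, ?_, hnorm, ?_⟩
  · -- complete positivity
    refine cp_add (ψ := ψ1) (ψ' := ψ2) ?_ ?_
    · have : (ψ1 : Matrix (JJ F1) (JJ F1) ℂ → GG σ lab hσ) = fun T => ∑ η ∈ F0.attach,
          inc lab hσ η.1 (subL ⟨η.1, hF01 η.1 η.2⟩ T) := by
        funext T
        rw [hψ1, LinearMap.sum_apply]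
        rfl
      rw [this]
      refine cp_sum _ _ fun η _ => ?_
      refine cp_of_kraus (Finset.univ : Finset (JJ F1)) _ (fun c Y => inc lab hσ η.1
        ((Matrix.of fun i a => if i = 0 then Y c ⟨⟨η.1, hF01 η.1 η.2⟩, a⟩ else 0) : Blk η.1)) ?_
      intro Y Y'
      rw [subL_star_mul, map_sum]
      refine Finset.sum_congr rfl fun c _ => ?_
      rw [map_mul, map_star]
    · have : (ψ2 : Matrix (JJ F1) (JJ F1) ℂ → GG σ lab hσ) = fun T =>
          ∑ p : {b // b ∈ S} × Lam, tt p T • brpG lab hσ F0 p.1.1 p.2 := by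
        funext T
        rw [hψ2, LinearMap.sum_apply]
        rfl
      rw [this]
      refine cp_sum _ _ fun p _ => ?_
      refine cp_of_kraus (Finset.univ : Finset (JJ F1)) _ (fun c Y =>
        ((Y.submatrix id (fun a => (⟨⟨ηp p, hpF1 p⟩, a⟩ : JJ F1)) *
          Fb ((ηp p).length + 1) (lab p.1.1)) c (jp p)) • brpG lab hσ F0 p.1.1 p.2) ?_
      intro Y Y'
      rw [htt]
      simp only
      rw [tL_star_mul, Finset.sum_smul]
      refine Finset.sum_congr rfl fun c _ => ?_
      rw [star_smul, smul_mul_smul_comm, brpG_proj]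
  · -- approximation
    intro a ha
    have hx0m : x0 a ∈ GS σ lab hσ := G0_le lab hσ (hx0 a)
    set y : GG σ lab hσ := GG.mk hσ (x0 a) hx0m with hy
    have hay : ‖a - y‖ < ε / 2 := hx0' a
    have hfix : (ψ1 + ψ2) (resG lab hσ F1 y) = y := by
      refine GG.ext (amb_ext fun η => ?_)
      show evL lab hσ η ((ψ1 + ψ2) (resG lab hσ F1 y)) = x0 a η
      by_cases hη : η ∈ F0
      · rw [hvin _ η hη, subL_resG]
        rfl
      · rw [hvout _ η hη]
        obtain ⟨h, hh⟩ := hgood a ha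
        rw [hh η hη, ← Finset.sum_coe_sort S (fun b => brv σ lab b (h b) η)]
        refine Finset.sum_congr rfl fun b _ => ?_
        by_cases hon : On (σ b.1) η
        · rw [brv_on σ lab hon, brv_on σ lab hon]
          unfold dl
          congr 3
          funext j
          -- the colour of `j` is live
          have hl := hp (b, col (η.length + 1) j) ⟨η, j, hη, hon, rfl⟩
          set p : {b // b ∈ S} × Lam := (b, col (η.length + 1) j) with hpdef
          obtain ⟨hl1, hl2, hl3⟩ := hl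
          show tt p (resG lab hσ F1 y) = h b.1 (col (η.length + 1) j)
          rw [htt]
          simp only
          rw [tL_apply, subL_resG]
          have e1 : y.val (ηp p) = dl ((ηp p).length + 1) (lab b.1) (h b.1) := by
            show x0 a (ηp p) = _
            rw [hh _ hl1, sum_unique (hX0 _ hl1) h b.2 hl2, brv_on σ lab hl2]
          have e2 : (Fb ((ηp p).length + 1) (lab b.1))ᴴ * dl ((ηp p).length + 1) (lab b.1) (h b.1)
              * Fb ((ηp p).length + 1) (lab b.1)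
              = diagonal (fun j => h b.1 (col ((ηp p).length + 1) j)) := by
            unfold dl
            simp only [Matrix.mul_assoc]
            rw [Fb_isom, Matrix.mul_one, ← Matrix.mul_assoc, Fb_isom, Matrix.one_mul]
          show ((Fb ((ηp p).length + 1) (lab b.1))ᴴ * y.val (ηp p)
              * Fb ((ηp p).length + 1) (lab b.1)) (jp p) (jp p) = _
          rw [e1, e2, Matrix.diagonal_apply_eq, hl3]
        · rw [brv_off σ lab hon, brv_off σ lab hon]
    have hcon : ∀ z : GG σ lab hσ, ‖(ψ1 + ψ2) (resG lab hσ F1 z)‖ ≤ ‖z‖ := by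
      intro z
      have hz : ‖resG lab hσ F1 z‖ ≤ ‖z‖ := NonUnitalStarAlgHom.norm_apply_le _ z
      rcases eq_or_ne z 0 with rfl | hne
      · simp
      · have hzp : 0 < ‖z‖ := norm_pos_iff.2 hne
        have h5 := hnorm (((‖z‖⁻¹ : ℝ) : ℂ) • resG lab hσ F1 z) (by
          rw [norm_smul, Complex.norm_real, Real.norm_of_nonneg (by positivity)]
          rw [inv_mul_le_iff₀ hzp, mul_one]
          exact hz)
        rw [map_smul, norm_smul, Complex.norm_real, Real.norm_of_nonneg (by positivity),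
          inv_mul_le_iff₀ hzp, mul_one] at h5
        exact h5
    have e3 : (ψ1 + ψ2) (resG lab hσ F1 a) - a
        = (ψ1 + ψ2) (resG lab hσ F1 (a - y)) - (a - y) := by
      rw [map_sub (resG lab hσ F1), map_sub (ψ1 + ψ2), hfix]
      abel
    rw [e3]
    calc ‖(ψ1 + ψ2) (resG lab hσ F1 (a - y)) - (a - y)‖
        ≤ ‖(ψ1 + ψ2) (resG lab hσ F1 (a - y))‖ + ‖a - y‖ := norm_sub_le _ _
      _ ≤ ‖a - y‖ + ‖a - y‖ := by gcongr; exact hcon _
      _ < ε := by linarith

end Pool.Agent.MP_162c54_lc
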