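import Pool.Agent.MP_162c54_lc.GuessK

set_option autoImplicit false
open Cardinal Ordinal Set

namespace Pool.Agent.MP_162c54_lc

universe u v

/-- real sequences, lexicographically ordered -/
abbrev LS := Lex (ℕ → ℝ)

lemma ls_lt (x y : LS) : x < y ↔ ∃ n, (∀ m < n, x m = y m) ∧ x n < y n := Iff.rfl

lemma ls_ext {x y : LS} (h : ∀ n, x n = y n) : x = y := funext h

lemma exists_first_ne {x y : LS} {k : ℕ} (h : x k ≠ y k) :
    ∃ j ≤ k, (∀ m < j, x m = y m) ∧ x j ≠ y j := by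
  classical
  have hex : ∃ j, x j ≠ y j := ⟨k, h⟩
  refine ⟨Nat.find hex, Nat.find_min' hex h, fun m hm => ?_, Nat.find_spec hex⟩
  by_contra hne
  exact Nat.find_min hex hm hne

lemma between_prefix {x y l : LS} {k : ℕ} (h : ∀ j < k, x j = y j) (hxl : x ≤ l) (hly : l ≤ y) :
    ∀ j < k, l j = x j := by
  by_contra hcon
  push Not at hcon
  obtain ⟨i, hik, hi⟩ := hcon
  obtain ⟨j, hji, hj1, hj2⟩ := exists_first_ne hi
  have hjk : j < k := lt_of_le_of_lt hji hik
  have h1 : x j < l j := by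
    rcases lt_or_gt_of_ne hj2 with h1 | h1
    · exfalso
      exact absurd ((ls_lt l x).2 ⟨j, hj1, h1⟩) (not_lt.2 hxl)
    · exact h1
  have h2 : y < l := (ls_lt y l).2 ⟨j, fun m hm => by
    rw [← h m (hm.trans hjk), hj1 m hm], by rw [← h j hjk]; exact h1⟩
  exact absurd h2 (not_lt.2 hly)

/-- the greedy candidate for the supremum of `T` -/
noncomputable def topSeq (T : Set LS) (n : ℕ) : ℝ :=
  sSup {v | ∃ x ∈ T, (∀ j, ∀ _h : j < n, x j = topSeq T j) ∧ x n = v}
termination_by n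
decreasing_by exact _h

lemma real_cofinal (V : Set ℝ) (hV : ∀ v ∈ V, ∃ w ∈ V, v < w) :
    ∃ g : ℚ → ℝ, ∀ v ∈ V, ∃ q, g q ∈ V ∧ v < g q := by
  classical
  refine ⟨fun q => if h : ∃ v ∈ V, (q : ℝ) < v then h.choose else 0, fun v hv => ?_⟩
  obtain ⟨w, hw, hvw⟩ := hV v hv
  obtain ⟨q, hq1, hq2⟩ := exists_rat_btwn hvw
  have hex : ∃ v ∈ V, (q : ℝ) < v := ⟨w, hw, hq2⟩
  have hval : (if h : ∃ v ∈ V, (q : ℝ) < v then h.choose else 0) = hex.choose := dif_pos hex
  refine ⟨q, ?_⟩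
  show (if h : ∃ v ∈ V, (q : ℝ) < v then h.choose else 0) ∈ V ∧
    v < (if h : ∃ v ∈ V, (q : ℝ) < v then h.choose else 0)
  rw [hval]
  exact ⟨hex.choose_spec.1, hq1.trans hex.choose_spec.2⟩

/-- every set of real sequences has a countable cofinal subset -/
theorem countable_cofinal (T : Set LS) : ∃ Q ⊆ T, Q.Countable ∧ ∀ x ∈ T, ∃ q ∈ Q, x ≤ q := by
  classical
  by_contra hbad
  push Not at hbad
  have hTne : T.Nonempty := by
    by_contra hne
    rw [not_nonempty_iff_eq_empty] at hne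
    obtain ⟨x, hx, -⟩ := hbad ∅ (empty_subset _) countable_empty
    rw [hne] at hx
    exact hx
  set s := topSeq T with hs
  have hrec : ∀ n, s n = sSup {v | ∃ x ∈ T, (∀ j < n, x j = s j) ∧ x n = v} := by
    intro n
    rw [hs, topSeq]
  have step : ∀ n, (∀ x ∈ T, ∃ y ∈ T, (∀ j < n, y j = s j) ∧ x ≤ y) →
      (∃ y ∈ T, (∀ j < n, y j = s j) ∧ y n = s n) ∧
      ∀ x ∈ T, (∀ j < n, x j = s j) → x n ≤ s n := by
    intro n ih
    set V : Set ℝ := {v | ∃ x ∈ T, (∀ j < n, x j = s j) ∧ x n = v} with hV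
    have hVs : s n = sSup V := hrec n
    by_cases hmax : ∀ v ∈ V, ∃ w ∈ V, v < w
    · exfalso
      obtain ⟨g, hg⟩ := real_cofinal V hmax
      let Z : ℚ → LS := fun q => if h : g q ∈ V then h.choose else 0
      have hZ : ∀ q, g q ∈ V → Z q ∈ T ∧ (∀ j < n, Z q j = s j) ∧ Z q n = g q := by
        intro q h
        have h1 : Z q = h.choose := dif_pos h
        rw [h1]
        exact h.choose_spec
      obtain ⟨x, hx, hxQ⟩ := hbad (Z '' {q | g q ∈ V}) (by
        rintro _ ⟨q, hq, rfl⟩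
        exact (hZ q hq).1) ((to_countable _).image _)
      obtain ⟨y, hy, hyp, hxy⟩ := ih x hx
      obtain ⟨q, hq, hlt⟩ := hg (y n) ⟨y, hy, hyp, rfl⟩
      obtain ⟨h1, h2, h3⟩ := hZ q hq
      have h4 : y < Z q := (ls_lt _ _).2 ⟨n, fun m hm => by rw [hyp m hm, h2 m hm], by
        rw [h3]; exact hlt⟩
      exact absurd (hxQ (Z q) ⟨q, hq, rfl⟩) (not_lt.2 (hxy.trans h4.le))
    · push Not at hmax
      obtain ⟨w, hw, hwmax⟩ := hmax
      have hsn : s n = w := by
        rw [hVs]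
        exact IsGreatest.csSup_eq ⟨hw, hwmax⟩
      refine ⟨?_, fun x hx hxp => ?_⟩
      · rw [hsn]
        exact hw
      · rw [hsn]
        exact hwmax _ ⟨x, hx, hxp, rfl⟩
  have key : ∀ n, (∀ x ∈ T, ∃ y ∈ T, (∀ j < n, y j = s j) ∧ x ≤ y) := by
    intro n
    induction n with
    | zero => exact fun x hx => ⟨x, hx, fun j hj => absurd hj (Nat.not_lt_zero j), le_rfl⟩
    | succ n ih =>
      obtain ⟨⟨y', hy', hyp', hyw⟩, hle⟩ := step n ih
      intro x hx
      obtain ⟨y, hy, hyp, hxy⟩ := ih x hx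
      have hpre : ∀ z : LS, (∀ j < n, z j = s j) → z n = s n → ∀ j < n + 1, z j = s j := by
        intro z h1 h2 j hj
        rcases Nat.lt_succ_iff_lt_or_eq.1 hj with h | rfl
        · exact h1 j h
        · exact h2
      rcases (hle y hy hyp).eq_or_lt with h2 | h2
      · exact ⟨y, hy, hpre y hyp h2, hxy⟩
      · refine ⟨y', hy', hpre y' hyp' hyw, hxy.trans (le_of_lt ((ls_lt _ _).2 ⟨n, fun m hm => ?_, ?_⟩))⟩
        · rw [hyp m hm, hyp' m hm]
        · rw [hyw]; exact h2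
  obtain ⟨x0, hx0⟩ := hTne
  have hY : ∀ n, ∃ y ∈ T, ∀ j < n, y j = s j := fun n => by
    obtain ⟨y, hy, h, -⟩ := key n x0 hx0
    exact ⟨y, hy, h⟩
  choose Y hY1 hY2 using hY
  obtain ⟨x, hx, hxQ⟩ := hbad (range Y ∪ ({toLex s} ∩ T)) (by
    rintro y (⟨n, rfl⟩ | hy)
    · exact hY1 n
    · exact hy.2) ((countable_range Y).union ((countable_singleton _).mono inter_subset_left))
  by_cases hxs : ∃ n, x n ≠ s n
  · obtain ⟨n, hn⟩ := hxs
    obtain ⟨j, -, hj1, hj2⟩ := exists_first_ne (x := x) (y := toLex s) hn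
    have h1 : x j < s j := lt_of_le_of_ne ((step j (key j)).2 x hx hj1) hj2
    have h2 : x < Y (j + 1) := (ls_lt _ _).2 ⟨j, fun m hm => by
      rw [hY2 (j + 1) m (by omega)]; exact hj1 m hm, by
      rw [hY2 (j + 1) j (by omega)]; exact h1⟩
    exact absurd (hxQ (Y (j + 1)) (Or.inl ⟨_, rfl⟩)) (not_lt.2 h2.le)
  · push Not at hxs
    have : x = toLex s := ls_ext hxs
    exact absurd (hxQ x (Or.inr ⟨this, hx⟩)) (lt_irrefl _)

section points

variable {κ : Cardinal.{u}} (r : KK κ → ℝ) (C : KK κ → ℕ → KK κ) (e : ℕ → ℕ)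

/-- the real coded by a symbol -/
def sval : ℚ ⊕ KK κ → ℝ
  | Sum.inl q => (q : ℝ)
  | Sum.inr k => r k

/-- the eventually zero sequence coded by a finite sequence of symbols -/
def fpt (s : List (ℚ ⊕ KK κ)) : LS := toLex fun j => (s[j]?).elim 0 (sval r)

/-- the branch over `δ` -/
def bpt (δ : KK κ) : LS := toLex fun k => r (C δ (e k))

/-- the points of the linear order -/
def pt : List (ℚ ⊕ KK κ) ⊕ KK κ → LS
  | Sum.inl s => fpt r s
  | Sum.inr δ => bpt r C e δ

/-- all coordinates are rational or named below `β` -/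
def Below (β : KK κ) (l : LS) : Prop := ∀ j, (∃ q : ℚ, l j = q) ∨ ∃ i < β, l j = r i

lemma fpt_get {s : List (ℚ ⊕ KK κ)} {j : ℕ} (h : j < s.length) :
    fpt r s j = sval r (s[j]) := by
  show ((s[j]?).elim 0 (sval r) : ℝ) = _
  rw [List.getElem?_eq_getElem h]
  rfl

lemma fpt_out {s : List (ℚ ⊕ KK κ)} {j : ℕ} (h : s.length ≤ j) :
    fpt r s j = 0 := by
  show ((s[j]?).elim 0 (sval r) : ℝ) = _
  rw [List.getElem?_eq_none h]
  rfl

lemma fpt_below {β : KK κ} {s : List (ℚ ⊕ KK κ)} (hs : ∀ k, Sum.inr k ∈ s → k < β) :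
    Below r β (fpt r s) := by
  intro j
  by_cases hj : j < s.length
  · rw [fpt_get r hj]
    have hm : s[j] ∈ s := List.getElem_mem hj
    revert hm
    generalize s[j] = x
    intro hm
    rcases x with q | k
    · exact Or.inl ⟨q, rfl⟩
    · exact Or.inr ⟨k, hs k hm, rfl⟩
  · rw [fpt_out r (not_lt.1 hj)]
    exact Or.inl ⟨0, by simp⟩

/-- every point has all its names below some bound -/
lemma exists_bound (hκ : κ.IsRegular) (hκ1 : ℵ₀ < κ) (i : List (ℚ ⊕ KK κ) ⊕ KK κ) :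
    ∃ β, Below r β (pt r C e i) := by
  rcases i with s | δ
  · have : Finite {k : KK κ // Sum.inr k ∈ s} := by
      have hfin : ({k : KK κ | Sum.inr k ∈ s} : Set (KK κ)).Finite :=
        Set.Finite.preimage (Sum.inr_injective.injOn) (s.finite_toSet)
      exact hfin.to_subtype
    obtain ⟨b, hb⟩ := bound_K_countable hκ hκ1 (fun k : {k : KK κ // Sum.inr k ∈ s} => k.1)
    exact ⟨b, fpt_below r fun k hk => hb ⟨k, hk⟩⟩
  · obtain ⟨b, hb⟩ := bound_K_countable hκ hκ1 (fun k : ℕ => C δ (e k))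
    exact ⟨b, fun j => Or.inr ⟨_, hb j, rfl⟩⟩

variable (hr : Function.Injective r) (hirr : ∀ i, Irrational (r i))
include hr hirr

lemma below_ne {β i : KK κ} {l : LS} (hl : Below r β l) (hi : β ≤ i) (j : ℕ) : l j ≠ r i := by
  intro h
  rcases hl j with ⟨q, hq⟩ | ⟨i', hi', hq⟩
  · rw [hq] at h
    exact hirr i ⟨q, h⟩
  · rw [hq] at h
    have := hr h
    rw [this] at hi'
    exact absurd hi' (not_lt.2 hi)

/-- the initial segment of the branch -/
def seg (C : KK κ → ℕ → KK κ) (e : ℕ → ℕ) (δ : KK κ) (k : ℕ) : List (ℚ ⊕ KK κ) :=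
  (List.range k).map fun m => Sum.inr (C δ (e m))

omit hr hirr in
lemma seg_get (δ : KK κ) {k j : ℕ} (hj : j < k) : fpt r (seg C e δ k) j = bpt r C e δ j := by
  have hlen : (seg C e δ k).length = k := by simp [seg]
  rw [fpt_get r (by rw [hlen]; exact hj)]
  simp only [seg, List.getElem_map, List.getElem_range]
  rfl

/-- P1: no point named below `C δ n` lies between the branch and its initial segment of length
`k + 1`, where `n = e k`. -/
lemma no_between {δ : KK κ} {k : ℕ} {l : LS} (hl : Below r (C δ (e k)) l) :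
    ¬ (bpt r C e δ ≤ l ∧ l ≤ fpt r (seg C e δ (k + 1))) ∧
    ¬ (fpt r (seg C e δ (k + 1)) ≤ l ∧ l ≤ bpt r C e δ) := by
  have hpre : ∀ j < k + 1, bpt r C e δ j = fpt r (seg C e δ (k + 1)) j := fun j hj =>
    (seg_get r C e δ hj).symm
  constructor
  · rintro ⟨h1, h2⟩
    have := between_prefix hpre h1 h2 k (Nat.lt_succ_self k)
    exact below_ne r hr hirr hl le_rfl k this
  · rintro ⟨h1, h2⟩
    have := between_prefix (fun j hj => (hpre j hj).symm) h1 h2 k (Nat.lt_succ_self k)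
    rw [← hpre k (Nat.lt_succ_self k)] at this
    exact below_ne r hr hirr hl le_rfl k this

/-- P2: if `n` is not a value of `e`, every point named below `C δ (n + 1)` is separated from the
branch by a finite sequence named below `C δ n`. -/
lemma exists_between (he : StrictMono e) {δ : KK κ} (hC : StrictMono (C δ)) {n : ℕ}
    (hn : ∀ k, e k ≠ n) {y : LS} (hy : Below r (C δ (n + 1)) y) :
    ∃ s : List (ℚ ⊕ KK κ), (∀ k, Sum.inr k ∈ s → k < C δ n) ∧
      ((bpt r C e δ < fpt r s ∧ fpt r s < y) ∨ (y < fpt r s ∧ fpt r s < bpt r C e δ)) := by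
  classical
  have hex : ∃ k, n ≤ e k := ⟨n, he.id_le n⟩
  set k := Nat.find hex with hk
  have hk1 : n ≤ e k := Nat.find_spec hex
  have hk2 : ∀ m < k, e m < n := fun m hm => not_le.1 (Nat.find_min hex hm)
  have hk3 : n + 1 ≤ e k := Nat.succ_le_of_lt (lt_of_le_of_ne hk1 (hn k).symm)
  have hne : bpt r C e δ k ≠ y k := by
    intro h
    exact below_ne r hr hirr hy (hC.monotone hk3) k h.symm
  obtain ⟨j, hjk, hj1, hj2⟩ := exists_first_ne hne
  have main : ∀ q : ℚ, ∃ s : List (ℚ ⊕ KK κ), (∀ k, Sum.inr k ∈ s → k < C δ n) ∧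
      (∀ m < j, fpt r s m = bpt r C e δ m) ∧ fpt r s j = q := by
    intro q
    have hlen : (seg C e δ j).length = j := by simp [seg]
    refine ⟨seg C e δ j ++ [Sum.inl q], ?_, ?_, ?_⟩
    · intro i hi
      rcases List.mem_append.1 hi with h | h
      · simp only [seg, List.mem_map, List.mem_range] at h
        obtain ⟨m, hm, hmi⟩ := h
        have : C δ (e m) = i := Sum.inr_injective hmi
        rw [← this]
        exact hC (hk2 m (lt_of_lt_of_le hm hjk))
      · simp at h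
    · intro m hm
      rw [← seg_get r C e δ hm]
      rw [fpt_get r (by rw [List.length_append, hlen]; omega), fpt_get r (by rw [hlen]; exact hm)]
      rw [List.getElem_append_left (by rw [hlen]; exact hm)]
    · rw [fpt_get r (by rw [List.length_append, hlen]; simp)]
      rw [List.getElem_append_right (by rw [hlen])]
      simp [sval]
  rcases lt_or_gt_of_ne hj2 with h | h
  · obtain ⟨q, hq1, hq2⟩ := exists_rat_btwn h
    obtain ⟨s, hs1, hs2, hs3⟩ := main q
    refine ⟨s, hs1, Or.inl ⟨(ls_lt _ _).2 ⟨j, fun m hm => (hs2 m hm).symm, by rw [hs3]; exact hq1⟩,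
      (ls_lt _ _).2 ⟨j, fun m hm => by rw [hs2 m hm, hj1 m hm], by rw [hs3]; exact hq2⟩⟩⟩
  · obtain ⟨q, hq1, hq2⟩ := exists_rat_btwn h
    obtain ⟨s, hs1, hs2, hs3⟩ := main q
    refine ⟨s, hs1, Or.inr ⟨(ls_lt _ _).2 ⟨j, fun m hm => by rw [hs2 m hm, hj1 m hm], by
      rw [hs3]; exact hq1⟩, (ls_lt _ _).2 ⟨j, fun m hm => hs2 m hm, by rw [hs3]; exact hq2⟩⟩⟩

end points

end Pool.Agent.MP_162c54_lc
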