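import Pool.Agent.MP_162c54_lc.Order
import Pool.Agent.MP_162c54_lc.NucC

set_option autoImplicit false
set_option linter.unusedSectionVars false
open scoped ComplexOrder
open Cardinal Set

namespace Pool.Agent.MP_162c54_lc

universe u v

section norms

variable {A : Type*} [NonUnitalCStarAlgebra A]

lemma norm_sub_mul_proj_le {P : A} (hP1 : star P = P) (hP2 : P * P = P) (w : A) :
    ‖w - w * P‖ ≤ ‖w‖ := by
  have h1 : IsStarProjection (P : Unitization ℂ A) := by
    refine ⟨?_, ?_⟩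
    · show (P : Unitization ℂ A) * P = P
      rw [← Unitization.inr_mul, hP2]
    · show star (P : Unitization ℂ A) = P
      rw [← Unitization.inr_star, hP1]
  have h2 : ‖(1 - (P : Unitization ℂ A))‖ ≤ 1 := h1.one_sub.norm_le
  have h3 : ((w - w * P : A) : Unitization ℂ A) = (w : Unitization ℂ A) * (1 - P) := by
    rw [Unitization.inr_sub, Unitization.inr_mul, mul_sub, mul_one]
  calc ‖w - w * P‖ = ‖((w - w * P : A) : Unitization ℂ A)‖ := (Unitization.norm_inr _).symm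
    _ = ‖(w : Unitization ℂ A) * (1 - P)‖ := by rw [h3]
    _ ≤ ‖(w : Unitization ℂ A)‖ * ‖(1 - (P : Unitization ℂ A))‖ := norm_mul_le _ _
    _ ≤ ‖w‖ * 1 := by
        rw [Unitization.norm_inr]
        exact mul_le_mul_of_nonneg_left h2 (norm_nonneg _)
    _ = ‖w‖ := mul_one _

lemma theta_right (z a b : A) (hz : ‖z‖ ≤ 2) : |‖z - z * a‖ - ‖z - z * b‖| ≤ 2 * ‖a - b‖ := by
  calc |‖z - z * a‖ - ‖z - z * b‖| ≤ ‖(z - z * a) - (z - z * b)‖ := abs_norm_sub_norm_le _ _
    _ = ‖z * (b - a)‖ := by rw [mul_sub]; congr 1; abel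
    _ ≤ ‖z‖ * ‖b - a‖ := norm_mul_le _ _
    _ ≤ 2 * ‖a - b‖ := by
        rw [norm_sub_rev b a]
        exact mul_le_mul_of_nonneg_right hz (norm_nonneg _)

lemma theta_left {P : A} (hP1 : star P = P) (hP2 : P * P = P) (z w : A) :
    |‖z - z * P‖ - ‖w - w * P‖| ≤ ‖z - w‖ := by
  calc |‖z - z * P‖ - ‖w - w * P‖| ≤ ‖(z - z * P) - (w - w * P)‖ := abs_norm_sub_norm_le _ _
    _ = ‖(z - w) - (z - w) * P‖ := by rw [sub_mul]; congr 1; abel
    _ ≤ ‖z - w‖ := norm_sub_mul_proj_le hP1 hP2 _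

end norms

section counting

/-- the sequence coding a set of natural numbers -/
def eseq (t : ℕ → Bool) (n : ℕ) : ℕ := 2 * n + (if t n then 1 else 0)

lemma eseq_strictMono (t : ℕ → Bool) : StrictMono (eseq t) := by
  apply strictMono_nat_of_lt_succ
  intro n
  unfold eseq
  split_ifs <;> omega

lemma eseq_range_inj : Function.Injective (fun t : ℕ → Bool => range (eseq t)) := by
  intro t t' h
  funext n
  have h1 : ∀ s : ℕ → Bool, s n = true ↔ 2 * n + 1 ∈ range (eseq s) := by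
    intro s
    constructor
    · intro hs
      exact ⟨n, by simp [eseq, hs]⟩
    · rintro ⟨m, hm⟩
      unfold eseq at hm
      by_cases hs : s m = true
      · rw [if_pos hs] at hm
        have : m = n := by omega
        rw [← this]; exact hs
      · rw [if_neg hs] at hm
        omega
  have h2 : range (eseq t) = range (eseq t') := h
  have h3 := h1 t
  rw [h2, ← h1 t'] at h3
  cases h4 : t n <;> cases h5 : t' n <;> simp_all

end counting

section main

variable {κ : Cardinal.{u}}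

lemma exists_reals (hκ : κ ≤ 2 ^ (ℵ₀ : Cardinal.{u})) :
    ∃ r : KK κ → ℝ, Function.Injective r ∧ ∀ i, Irrational (r i) := by
  have h1 : #{x : ℝ // Irrational x} = Cardinal.continuum := by
    have h2 : #((range ((↑) : ℚ → ℝ))ᶜ : Set ℝ) = #ℝ := by
      refine Cardinal.mk_compl_of_infinite _ ?_
      rw [Cardinal.mk_real]
      exact (Cardinal.mk_le_aleph0_iff.2 (countable_range _).to_subtype).trans_lt
        Cardinal.aleph0_lt_continuum
    rw [Cardinal.mk_real] at h2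
    exact h2
  have h2 : Cardinal.lift.{0} #(KK κ) ≤ Cardinal.lift.{u} #{x : ℝ // Irrational x} := by
    rw [h1, Cardinal.mk_ord_toType, Cardinal.lift_uzero, Cardinal.lift_continuum]
    exact hκ
  obtain ⟨g⟩ := Cardinal.lift_mk_le'.1 h2
  exact ⟨fun k => (g k).1, fun a b h => g.injective (Subtype.ext h), fun k => (g k).2⟩

lemma Below.mono {r : KK κ → ℝ} {β β' : KK κ} {l : LS} (h : Below r β l) (hβ : β ≤ β') :
    Below r β' l := by
  intro j
  rcases h j with hq | ⟨i, hi, hj⟩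
  · exact Or.inl hq
  · exact Or.inr ⟨i, hi.trans_le hβ, hj⟩

/-- **Regular cardinals below the continuum.** -/
theorem misses_of_regular (κ : Cardinal.{u}) (hκ : κ.IsRegular) (hκ1 : ℵ₁ < κ)
    (hκ2 : κ < 2 ^ (ℵ₀ : Cardinal.{u})) (A : Type u) [NonUnitalCStarAlgebra A]
    (hd : ∃ D : Set A, Dense D ∧ #D ≤ κ) :
    ∃ (B : Type u) (_ : NonUnitalCStarAlgebra B), (∀ a b : B, a * b = b * a) ∧
      IsNuclear B ∧ IsLocallyFinDim B ∧
      (∃ D : Set B, Dense D ∧ #D ≤ κ) ∧ ¬ ∃ f : B →⋆ₙₐ[ℂ] A, Function.Injective f := by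
  classical
  have hκ0 : ℵ₀ < κ := Cardinal.aleph0_lt_aleph_one.trans hκ1
  obtain ⟨C, hC⟩ := exists_guess_K hκ hκ1
  obtain ⟨r, hr, hirr⟩ := exists_reals hκ2.le
  -- enumeration of a dense set
  obtain ⟨D, hD, hDc⟩ := hd
  have hd : ∃ d : KK κ → A, DenseRange d := by
    have h1 : #D ≤ #(KK κ) := by rw [Cardinal.mk_ord_toType]; exact hDc
    obtain ⟨g⟩ := (Cardinal.le_def _ _).1 h1
    obtain ⟨x0, hx0⟩ := hD.nonempty
    have : Nonempty D := ⟨⟨x0, hx0⟩⟩
    refine ⟨fun k => (Function.invFun g k : D), ?_⟩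
    have hsurj := Function.invFun_surjective g.injective
    have hrange : range (fun k => ((Function.invFun g k : D) : A)) = D := by
      ext x
      constructor
      · rintro ⟨k, rfl⟩
        exact (Function.invFun g k).2
      · intro hx
        obtain ⟨k, hk⟩ := hsurj ⟨x, hx⟩
        exact ⟨k, congrArg Subtype.val hk⟩
    show Dense (range _)
    rw [hrange]
    exact hD
  obtain ⟨d, hd⟩ := hd
  -- invariants
  let Inv : KK κ → KK κ → Set ℕ := fun δ i => {n | ∃ q, q < C δ (n + 1) ∧ ∀ z, z < C δ n →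
    ‖d z‖ ≤ 2 → |‖d z - d z * d q‖ - ‖d z - d z * d i‖| < 1 / 8}
  have hX : ∃ t : ℕ → Bool, ∀ δ i, range (eseq t) ≠ Inv δ i := by
    by_contra hcon
    push Not at hcon
    choose F G hFG using hcon
    have hinj : Function.Injective (fun t => (F t, G t)) := by
      intro t t' h
      have h1 : F t = F t' := congrArg Prod.fst h
      have h2 : G t = G t' := congrArg Prod.snd h
      apply eseq_range_inj
      show range (eseq t) = range (eseq t')
      rw [hFG t, hFG t', h1, h2]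
    have h1 := Cardinal.lift_mk_le'.2 ⟨⟨_, hinj⟩⟩
    rw [Cardinal.mk_prod, Cardinal.lift_id, Cardinal.mk_ord_toType,
      Cardinal.mul_eq_self hκ.aleph0_le, Cardinal.lift_uzero] at h1
    simp only [Cardinal.mk_pi, Cardinal.mk_fintype, Fintype.card_bool, Cardinal.prod_const,
      Cardinal.lift_id, Cardinal.mk_nat, Nat.cast_ofNat, Cardinal.lift_power,
      Cardinal.lift_ofNat, Cardinal.lift_aleph0] at h1
    exact absurd hκ2 (not_lt.2 h1)
  obtain ⟨t, ht⟩ := hX
  set e := eseq t with he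
  have hemono : StrictMono e := eseq_strictMono t
  let I : Type u := List (ℚ ⊕ KK κ) ⊕ KK κ
  let ev : I → LS := pt r C e
  have hIc : #I ≤ κ := by
    have hK : Cardinal.lift.{0} #(KK κ) = κ := by rw [Cardinal.lift_uzero, Cardinal.mk_ord_toType]
    rw [Cardinal.mk_sum, Cardinal.lift_id, Cardinal.lift_id, Cardinal.mk_ord_toType]
    refine (add_le_add_left ((Cardinal.mk_list_le_max _).trans (max_le hκ.aleph0_le ?_)) _).trans
      (Cardinal.add_eq_self hκ.aleph0_le).le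
    rw [Cardinal.mk_sum, Cardinal.mk_eq_aleph0 ℚ, Cardinal.lift_aleph0, hK]
    exact (add_le_add_left hκ.aleph0_le _).trans (Cardinal.add_eq_self hκ.aleph0_le).le
  have : Nonempty (KK κ) := by
    rw [← Cardinal.mk_ne_zero_iff, Cardinal.mk_ord_toType]
    exact hκ.pos.ne'
  have : Infinite I := by
    have : Infinite (List (ℚ ⊕ KK κ)) := inferInstance
    exact inferInstanceAs (Infinite (List (ℚ ⊕ KK κ) ⊕ KK κ))
  refine ⟨CC ev, inferInstance, CC.mul_comm, CC_nuclear ev, CC_lfd ev, ?_, ?_⟩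
  · obtain ⟨D', h1, h2⟩ := CC_dens ev
    exact ⟨D', h1, h2.trans hIc⟩
  rintro ⟨f, hf⟩
  set P : I → A := fun i => f (pc ev i) with hP
  have hP1 : ∀ i, star (P i) = P i := fun i => by rw [hP]; simp only; rw [← map_star, pc_star]
  have hP2 : ∀ i, P i * P i = P i := fun i => by rw [hP]; simp only; rw [← map_mul, pc_idem]
  have hP3 : ∀ m l, ev m ≤ ev l → P m * P l = P m := fun m l h => by
    rw [hP]; simp only; rw [← map_mul, pc_mul_of_le ev h]
  have hiso : ∀ x, ‖f x‖ = ‖x‖ := fun x => NonUnitalStarAlgHom.norm_map f hf x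
  have hP4 : ∀ m l, ev l < ev m → 1 ≤ ‖P m - P m * P l‖ := fun m l h => by
    have : P m - P m * P l = f (pc ev m - pc ev m * pc ev l) := by
      rw [map_sub, map_mul]
    rw [this, hiso]
    exact one_le_norm ev h
  have hPn : ∀ i, ‖P i‖ ≤ 1 := fun i => by
    have h1 : IsStarProjection (P i) := ⟨hP2 i, hP1 i⟩
    exact h1.norm_le
  set T : A → I → ℝ := fun z i => ‖z - z * P i‖ with hT
  have hTmono : ∀ z i j, ev i ≤ ev j → T z j ≤ T z i := by
    intro z i j h
    have h1 : z - z * P j = (z - z * P i) - (z - z * P i) * P j := by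
      rw [sub_mul, mul_assoc, hP3 i j h]
      abel
    rw [hT]
    simp only
    rw [h1]
    exact norm_sub_mul_proj_le (hP1 j) (hP2 j) _
  -- bounds for names
  have hb : ∀ i : I, ∃ β, Below r β (ev i) := fun i => exists_bound r C e hκ hκ0 i
  choose b hb using hb
  -- closing function 1
  have hcl1 : ∀ s : List (ℚ ⊕ KK κ), ∃ j, ‖d j - P (Sum.inl s)‖ < 1 / 64 := by
    intro s
    obtain ⟨j, hj⟩ := hd.exists_dist_lt (P (Sum.inl s)) (by norm_num : (0 : ℝ) < 1 / 64)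
    exact ⟨j, by rw [← dist_eq_norm, dist_comm]; exact hj⟩
  choose ap hap using hcl1
  obtain ⟨f1, hf1⟩ := exists_closing hκ hκ0 ap
  -- closing function 2
  have hcl2 : ∀ j : KK κ, ∃ β : KK κ, ∀ (q : ℚ) (i : I), (q : ℝ) < T (d j) i →
      ∃ l : I, (q : ℝ) < T (d j) l ∧ ev i ≤ ev l ∧ b l < β := by
    intro j
    have h1 : ∀ q : ℚ, ∃ β : KK κ, ∀ i : I, (q : ℝ) < T (d j) i →
        ∃ l : I, (q : ℝ) < T (d j) l ∧ ev i ≤ ev l ∧ b l < β := by
      intro q
      obtain ⟨Q, hQ1, hQ2, hQ3⟩ := countable_cofinal (ev '' {i | (q : ℝ) < T (d j) i})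
      have h2 : ∀ x : Q, ∃ l : I, (q : ℝ) < T (d j) l ∧ ev l = x.1 := fun x => by
        obtain ⟨l, hl, hlx⟩ := hQ1 x.2
        exact ⟨l, hl, hlx⟩
      choose g hg1 hg2 using h2
      have : Countable Q := hQ2.to_subtype
      obtain ⟨β, hβ⟩ := bound_K_countable hκ hκ0 (fun x : Q => b (g x))
      refine ⟨β, fun i hi => ?_⟩
      obtain ⟨x, hx, hix⟩ := hQ3 (ev i) ⟨i, hi, rfl⟩
      exact ⟨g ⟨x, hx⟩, hg1 _, by rw [hg2]; exact hix, hβ _⟩
    choose β hβ using h1
    obtain ⟨β', hβ'⟩ := bound_K_countable hκ hκ0 β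
    refine ⟨β', fun q i hi => ?_⟩
    obtain ⟨l, hl1, hl2, hl3⟩ := hβ q i hi
    exact ⟨l, hl1, hl2, hl3.trans (hβ' q)⟩
  choose f2 hf2 using hcl2
  -- closing function 3
  have hcl3 : ∀ (i β : KK κ), ∃ y : I, (∃ y' : I, ∀ z < β, ‖d z‖ ≤ 2 →
      |‖d z - d z * d i‖ - T (d z) y'| < 1 / 4) → (∀ z < β, ‖d z‖ ≤ 2 →
      |‖d z - d z * d i‖ - T (d z) y| < 1 / 4) := by
    intro i β
    by_cases h : ∃ y' : I, ∀ z < β, ‖d z‖ ≤ 2 → |‖d z - d z * d i‖ - T (d z) y'| < 1 / 4
    · obtain ⟨y', hy'⟩ := h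
      exact ⟨y', fun _ => hy'⟩
    · exact ⟨Sum.inl [], fun h' => absurd h' h⟩
  choose yy hyy using hcl3
  obtain ⟨f3, hf3⟩ := exists_closing hκ hκ0 (fun s : List (ℚ ⊕ KK κ) =>
    match s with
    | [Sum.inr i, Sum.inr β] => b (yy i β)
    | _ => ap [])
  obtain ⟨δ, hδ1, hδ2, hδ3⟩ := hC (fun k => max (f1 k) (max (f2 k) (f3 k)))
  have hc1 : ∀ n, ∀ β < C δ n, f1 β < C δ n := fun n β hβ =>
    (le_max_left _ _).trans_lt (hδ3 n β hβ)
  have hc2 : ∀ n, ∀ β < C δ n, f2 β < C δ n := fun n β hβ =>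
    ((le_max_left _ _).trans (le_max_right _ _)).trans_lt (hδ3 n β hβ)
  have hc3 : ∀ n, ∀ β < C δ n, f3 β < C δ n := fun n β hβ =>
    ((le_max_right _ _).trans (le_max_right _ _)).trans_lt (hδ3 n β hβ)
  have hg1 : ∀ n (s : List (ℚ ⊕ KK κ)), (∀ k, Sum.inr k ∈ s → k < C δ n) → ap s < C δ n :=
    fun n s hs => hf1 (C δ n) (hδ2 n) (hc1 n) s hs
  have hg3 : ∀ n (i β : KK κ), i < C δ n → β < C δ n → b (yy i β) < C δ n := by
    intro n i β hi hβ
    refine hf3 (C δ n) (hδ2 n) (hc3 n) [Sum.inr i, Sum.inr β] ?_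
    intro k hk
    simp only [List.mem_cons, Sum.inr.injEq, List.not_mem_nil, or_false] at hk
    rcases hk with rfl | rfl
    · exact hi
    · exact hβ
  -- the element of the dense set near the branch projection
  obtain ⟨i0, hi0⟩ : ∃ j, ‖d j - P (Sum.inr δ)‖ < 1 / 64 := by
    obtain ⟨j, hj⟩ := hd.exists_dist_lt (P (Sum.inr δ)) (by norm_num : (0 : ℝ) < 1 / 64)
    exact ⟨j, by rw [← dist_eq_norm, dist_comm]; exact hj⟩
  apply ht δ i0
  ext n
  constructor
  · rintro ⟨k, rfl⟩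
    set s := seg C e δ (k + 1) with hs
    have hs1 : ∀ i, Sum.inr i ∈ s → i < C δ (e k + 1) := by
      intro i hi
      simp only [hs, seg, List.mem_map, List.mem_range] at hi
      obtain ⟨m, hm, hmi⟩ := hi
      have h1 : C δ (e m) = i := Sum.inr_injective hmi
      rw [← h1]
      have h2 : e m ≤ e k := hemono.monotone (by omega)
      exact hδ1 (by omega)
    refine ⟨ap s, hg1 _ s hs1, fun z hz hz2 => ?_⟩
    have hnb : ∀ l : LS, Below r (C δ (e k)) l → ¬ (bpt r C e δ ≤ l ∧ l ≤ fpt r s) ∧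
        ¬ (fpt r s ≤ l ∧ l ≤ bpt r C e δ) := fun l hl => no_between r C e hr hirr hl
    have hcof : ∀ (q : ℚ) (i : I), (q : ℝ) < T (d z) i → ∃ l : I, (q : ℝ) < T (d z) l ∧
        ev i ≤ ev l ∧ Below r (C δ (e k)) (ev l) := by
      intro q i hi
      obtain ⟨l, h1, h2, h3⟩ := hf2 z q i hi
      exact ⟨l, h1, h2, (hb l).mono (h3.trans (hc2 _ z hz)).le⟩
    have hne : ∀ x y : I, (∀ l : LS, Below r (C δ (e k)) l → ¬ (ev x ≤ l ∧ l ≤ ev y)) →
        T (d z) x ≤ T (d z) y := by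
      intro x y hxy
      by_contra hlt
      rw [not_le] at hlt
      obtain ⟨q, hq1, hq2⟩ := exists_rat_btwn hlt
      obtain ⟨l, hl1, hl2, hl3⟩ := hcof q x hq2
      refine hxy (ev l) hl3 ⟨hl2, ?_⟩
      by_contra h
      rw [not_le] at h
      have := hTmono (d z) y l h.le
      linarith
    have heq : T (d z) (Sum.inl s) = T (d z) (Sum.inr δ) := by
      apply le_antisymm
      · exact hne _ _ fun l hl => (hnb l hl).2
      · exact hne _ _ fun l hl => (hnb l hl).1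
    have h1 := theta_right (d z) (d (ap s)) (P (Sum.inl s)) hz2
    have h2 := theta_right (d z) (d i0) (P (Sum.inr δ)) hz2
    have h3 := hap s
    have h4 : ‖d z - d z * P (Sum.inl s)‖ = ‖d z - d z * P (Sum.inr δ)‖ := heq
    rw [abs_le] at h1 h2
    rw [abs_lt]
    constructor <;> linarith [h1.1, h1.2, h2.1, h2.2]
  · rintro ⟨q, hq, hqz⟩
    by_contra hn
    have hn' : ∀ k, e k ≠ n := fun k hk => hn ⟨k, hk⟩
    have h1 : ∃ y' : I, ∀ z < C δ n, ‖d z‖ ≤ 2 →
        |‖d z - d z * d q‖ - T (d z) y'| < 1 / 4 := by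
      refine ⟨Sum.inr δ, fun z hz hz2 => ?_⟩
      have h2 := theta_right (d z) (d i0) (P (Sum.inr δ)) hz2
      have h3 := hqz z hz hz2
      rw [abs_le] at h2
      rw [abs_lt] at h3
      show |‖d z - d z * d q‖ - ‖d z - d z * P (Sum.inr δ)‖| < 1 / 4
      rw [abs_lt]
      constructor <;> linarith [h2.1, h2.2, h3.1, h3.2]
    have h2 := hyy q (C δ n) h1
    set y := yy q (C δ n) with hy
    have hby : Below r (C δ (n + 1)) (ev y) :=
      (hb y).mono (hg3 (n + 1) q (C δ n) hq (hδ1 (Nat.lt_succ_self n))).le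
    obtain ⟨s, hs1, hs2⟩ := exists_between r C e hr hirr hemono hδ1 hn' hby
    have hz := hg1 n s hs1
    have hzn : ‖d (ap s)‖ ≤ 2 := by
      have h3 := hap s
      have h4 := hPn (Sum.inl s)
      calc ‖d (ap s)‖ = ‖(d (ap s) - P (Sum.inl s)) + P (Sum.inl s)‖ := by rw [sub_add_cancel]
        _ ≤ ‖d (ap s) - P (Sum.inl s)‖ + ‖P (Sum.inl s)‖ := norm_add_le _ _
        _ ≤ 1 / 64 + 1 := add_le_add h3.le h4
        _ ≤ 2 := by norm_num
    have h3 := h2 (ap s) hz hzn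
    have h4 : |‖d (ap s) - d (ap s) * d q‖ - T (d (ap s)) (Sum.inr δ)| < 1 / 4 := by
      have h5 := theta_right (d (ap s)) (d i0) (P (Sum.inr δ)) hzn
      have h6 := hqz (ap s) hz hzn
      rw [abs_le] at h5
      rw [abs_lt] at h6
      show |‖d (ap s) - d (ap s) * d q‖ - ‖d (ap s) - d (ap s) * P (Sum.inr δ)‖| < 1 / 4
      rw [abs_lt]
      constructor <;> linarith [h5.1, h5.2, h6.1, h6.2]
    have h5 : ∀ i : I, |T (d (ap s)) i - ‖P (Sum.inl s) - P (Sum.inl s) * P i‖| ≤ 1 / 64 := fun i =>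
      (theta_left (hP1 i) (hP2 i) _ _).trans (hap s).le
    have h0 : ∀ i : I, ev (Sum.inl s) ≤ ev i → ‖P (Sum.inl s) - P (Sum.inl s) * P i‖ = 0 :=
      fun i hi => by rw [hP3 _ _ hi, sub_self, norm_zero]
    have h6 := h5 y
    have h7 := h5 (Sum.inr δ)
    rw [abs_le] at h6 h7
    rw [abs_lt] at h3 h4
    rcases hs2 with ⟨hs3, hs4⟩ | ⟨hs3, hs4⟩
    · have e1 := h0 y hs4.le
      have e2 : 1 ≤ ‖P (Sum.inl s) - P (Sum.inl s) * P (Sum.inr δ)‖ := hP4 _ _ hs3
      linarith [h3.1, h3.2, h4.1, h4.2, h6.1, h6.2, h7.1, h7.2]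
    · have e1 := h0 (Sum.inr δ) hs4.le
      have e2 : 1 ≤ ‖P (Sum.inl s) - P (Sum.inl s) * P y‖ := hP4 _ _ hs3
      linarith [h3.1, h3.2, h4.1, h4.2, h6.1, h6.2, h7.1, h7.2]

end main

end Pool.Agent.MP_162c54_lc
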