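import Pool.Agent.MP_162c54_lc.AlephN

set_option autoImplicit false
open Cardinal Ordinal Set

namespace Pool.Agent.MP_162c54_lc

universe u

/-- Countable sequences in a cardinal of uncountable cofinality are bounded. -/
lemma pow_le_of_cof {μ κ : Cardinal.{u}} (hμκ : μ ≤ κ) (hμ0 : ℵ₀ ≤ μ) (hcof : ℵ₀ < μ.ord.cof)
    (h : ∀ ν < μ, ν ^ (ℵ₀ : Cardinal.{u}) ≤ κ) : μ ^ (ℵ₀ : Cardinal.{u}) ≤ κ := by
  have hIio : ∀ b : KK μ, #(Iio b) < μ := by
    intro b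
    have := Cardinal.mk_Iio_lt b (by rw [Cardinal.mk_ord_toType, Ordinal.type_toType])
    rwa [Cardinal.mk_ord_toType] at this
  have hbd : ∀ g : ℕ → KK μ, ∃ b, ∀ m, g m < b := by
    intro g
    have hlt : ∀ i, ((ToType.toOrd (g i)) : Ordinal.{u}) + 1 < μ.ord := fun i =>
      (Cardinal.isSuccLimit_ord hμ0).add_one_lt (ToType.toOrd (g i)).2
    have h1 : ⨆ i, (((ToType.toOrd (g i)) : Ordinal.{u}) + 1) < μ.ord := by
      apply Ordinal.lift_iSup_lt_of_lt_cof _ hlt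
      rw [Cardinal.mk_nat, Cardinal.lift_aleph0, ← lift_cof, Cardinal.aleph0_lt_lift]
      exact hcof
    refine ⟨ToType.mk ⟨_, h1⟩, fun i => ?_⟩
    rw [← ToType.mk.apply_symm_apply (g i), OrderIso.lt_iff_lt]
    show ((ToType.toOrd (g i)) : Ordinal.{u}) < _
    have hb : BddAbove (range fun i => ((ToType.toOrd (g i)) : Ordinal.{u}) + 1) :=
      ⟨μ.ord, by rintro _ ⟨i, rfl⟩; exact (hlt i).le⟩
    exact (Order.lt_succ _).trans_le (le_ciSup hb i)
  have hsurj : Function.Surjective (fun p : (Σ b : KK μ, (ℕ → Iio b)) =>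
      (fun m => (p.2 m).1 : ℕ → KK μ)) := by
    intro g
    obtain ⟨b, hb⟩ := hbd g
    exact ⟨⟨b, fun m => ⟨g m, hb m⟩⟩, rfl⟩
  have h1 := Cardinal.mk_le_of_surjective hsurj
  rw [Cardinal.mk_arrow, Cardinal.mk_nat, Cardinal.lift_aleph0, Cardinal.lift_uzero,
    Cardinal.mk_ord_toType, Cardinal.mk_sigma] at h1
  refine h1.trans ?_
  have h2 : ∀ b : KK μ, #(ℕ → Iio b) ≤ κ := by
    intro b
    rw [Cardinal.mk_arrow, Cardinal.mk_nat, Cardinal.lift_aleph0, Cardinal.lift_uzero]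
    exact h _ (hIio b)
  refine (Cardinal.sum_le_sum _ _ h2).trans ?_
  rw [Cardinal.sum_const, Cardinal.lift_id, Cardinal.lift_id, Cardinal.mk_ord_toType]
  exact (mul_le_mul_left hμκ κ).trans (Cardinal.mul_eq_self (hμ0.trans hμκ)).le

/-- For a regular `κ ≥ 2 ^ ℵ₀` it suffices to look at the smaller cardinals of cofinality `ω`. -/
lemma pow_eq_of_regular {κ : Cardinal.{u}} (hreg : κ.IsRegular)
    (hc : 2 ^ (ℵ₀ : Cardinal.{u}) ≤ κ)
    (h : ∀ μ < κ, μ.ord.cof = ℵ₀ → μ ^ (ℵ₀ : Cardinal.{u}) ≤ max κ (2 ^ (ℵ₀ : Cardinal.{u}))) :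
    κ ^ (ℵ₀ : Cardinal.{u}) = κ := by
  have hκ0 : ℵ₀ < κ := (Cardinal.cantor ℵ₀).trans_le hc
  have key : ∀ μ : Cardinal.{u}, μ ≤ κ → μ ^ (ℵ₀ : Cardinal.{u}) ≤ κ := by
    intro μ
    induction μ using WellFoundedLT.induction with
    | ind μ ih =>
      intro hμ
      rcases le_or_gt μ (2 ^ (ℵ₀ : Cardinal.{u})) with h1 | h1
      · refine le_trans (Cardinal.power_le_power_right h1) ?_
        rw [← Cardinal.power_mul, Cardinal.aleph0_mul_aleph0]
        exact hc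
      · have hμ0 : ℵ₀ ≤ μ := (Cardinal.cantor ℵ₀).le.trans h1.le
        have hc1 : ℵ₀ ≤ μ.ord.cof := by
          rw [Ordinal.aleph0_le_cof_iff, Ordinal.one_lt_cof_iff]
          exact Cardinal.isSuccLimit_ord hμ0
        rcases hc1.eq_or_lt with h2 | h2
        · have h3 : μ ≠ κ := by
            rintro rfl
            rw [hreg.cof_ord] at h2
            exact hκ0.ne h2
          exact (h μ (lt_of_le_of_ne hμ h3) h2.symm).trans (max_le le_rfl hc)
        · exact pow_le_of_cof hμ hμ0 h2 fun ν hν => ih ν hν (hν.le.trans hμ)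
  exact le_antisymm (key κ le_rfl) (Cardinal.self_le_power _ Cardinal.one_le_aleph0)

/-- For a regular `κ > ℵ₁` such that `μ ^ ℵ₀ ≤ max κ (2 ^ ℵ₀)` for the smaller `μ` of cofinality
`ω`. -/
theorem regular_case (κ : Cardinal.{u}) (hreg : κ.IsRegular) (h1 : ℵ₁ < κ)
    (h : ∀ μ < κ, μ.ord.cof = ℵ₀ → μ ^ (ℵ₀ : Cardinal.{u}) ≤ max κ (2 ^ (ℵ₀ : Cardinal.{u}))) :
    NoNuclearContainsAll κ := by
  intro A _ hA hd
  rcases lt_or_ge κ (2 ^ (ℵ₀ : Cardinal.{u})) with hc | hc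
  · obtain ⟨B, hB, -, h2, h3, h4, h5⟩ := misses_of_regular κ hreg h1 hc A hd
    exact ⟨B, hB, h2, h3, h4, h5⟩
  · exact misses_of_power κ hreg.aleph0_le (pow_eq_of_regular hreg hc h) A hA hd

end Pool.Agent.MP_162c54_lc
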